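import Pool.Agent.TJ3.St
import Pool.Agent.TJ2.STAB

/-!
# KRO: Kronecker's theorem
-/

set_option autoImplicit false

open IntermediateField

namespace Pool.Agent.TJ3

open Pool.Agent.TJ2

theorem t_KRO : S_KRO := by
  intro u hu hn
  have hal := STAB_algebraic
  have hint : IsIntegral ℚ u := hu.tower_top
  have hfd : FiniteDimensional ℚ ℚ⟮u⟯ := adjoin.finiteDimensional hint
  have hnf : NumberField ℚ⟮u⟯ := ⟨⟩
  let x : ℚ⟮u⟯ := AdjoinSimple.gen ℚ u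
  have hx : IsIntegral ℤ x := by
    rw [← isIntegral_algebraMap_iff (A := ℚ⟮u⟯) (B := Qb) (algebraMap ℚ⟮u⟯ Qb).injective]
    exact hu
  have hx1 : ∀ φ : ℚ⟮u⟯ →+* ℂ, ‖φ x‖ = 1 := by
    intro φ
    let _ : Algebra ℚ⟮u⟯ ℂ := φ.toAlgebra
    have : Algebra.IsAlgebraic ℚ⟮u⟯ Qb := Algebra.IsAlgebraic.tower_top (K := ℚ) _
    let ψ : Qb →ₐ[ℚ⟮u⟯] ℂ := IsAlgClosed.lift
    have h1 := hn (ψ : Qb →+* ℂ)
    have h2 : ψ u = φ x := by
      have h3 := ψ.commutes x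
      exact h3
    rw [← h2]
    exact h1
  obtain ⟨n, hn0, hn1⟩ := NumberField.Embeddings.pow_eq_one_of_norm_eq_one ℚ⟮u⟯ ℂ hx hx1
  refine ⟨n, hn0, ?_⟩
  have h4 := congrArg (algebraMap ℚ⟮u⟯ Qb) hn1
  rw [map_pow, map_one] at h4
  exact h4

end Pool.Agent.TJ3
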