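import Pool.Agent.TJ3.St
import Pool.Agent.TJ2.STAB

/-!
# TRN: transitivity on the primes above `p`
-/

open Polynomial IntermediateField

namespace Pool.Agent.TJ3

open Pool.Agent.TJ2

noncomputable section

namespace TRN_aux

instance : TopologicalSpace Zb := ⊥

instance : DiscreteTopology Zb := ⟨rfl⟩

instance clo : IsAlgClosure ℚ Qb := by
  have h := AlgebraicClosure.instIsAlgClosure ℚ
  have e : (AlgebraicClosure.instAlgebra ℚ : Algebra ℚ (AlgebraicClosure ℚ)) =
    DivisionRing.toRatAlgebra := Subsingleton.elim _ _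
  exact e ▸ h

instance gal : IsGalois ℚ Qb := IsAlgClosure.isGalois ℚ Qb

instance : SMulCommClass Gal(Qb/ℚ) ℤ Qb where
  smul_comm g n x := by
    rw [AlgEquiv.smul_def, AlgEquiv.smul_def, map_zsmul]

/-- the stabiliser of an algebraic integer is open -/
lemma open_stab (x : Zb) :
    IsOpen {g : Gal(Qb/ℚ) | g • x = x} := by
  have hint : IsIntegral ℚ (x : Qb) := x.2.tower_top
  have : FiniteDimensional ℚ (IntermediateField.adjoin ℚ {(x : Qb)}) :=
    IntermediateField.adjoin.finiteDimensional hint
  have h1 := IntermediateField.fixingSubgroup_isOpen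
    (IntermediateField.adjoin ℚ {(x : Qb)})
  have h2 : {g : Gal(Qb/ℚ) | g • x = x} =
      ((IntermediateField.adjoin ℚ {(x : Qb)}).fixingSubgroup : Set Gal(Qb/ℚ)) := by
    ext g
    constructor
    · intro hg
      have hg' : g (x : Qb) = (x : Qb) := congrArg Subtype.val hg
      rw [SetLike.mem_coe, IntermediateField.mem_fixingSubgroup_iff]
      intro y hy
      have h3 : IntermediateField.adjoin ℚ {(x : Qb)} ≤
          IntermediateField.fixedField (Subgroup.zpowers g) := by
        rw [IntermediateField.adjoin_le_iff]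
        rintro z hz
        rw [Set.mem_singleton_iff] at hz
        subst hz
        rw [SetLike.mem_coe, IntermediateField.mem_fixedField_iff]
        intro f hf
        have : Subgroup.zpowers g ≤ MulAction.stabilizer Gal(Qb/ℚ) (x : Qb) := by
          rw [Subgroup.zpowers_le, MulAction.mem_stabilizer_iff]
          exact hg'
        exact this hf
      have h4 := h3 hy
      rw [IntermediateField.mem_fixedField_iff] at h4
      exact h4 g (Subgroup.mem_zpowers g)
    · intro hg
      rw [SetLike.mem_coe, IntermediateField.mem_fixingSubgroup_iff] at hg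
      have := hg x (IntermediateField.mem_adjoin_simple_self ℚ (x : Qb))
      exact Subtype.ext this
  rw [h2]
  exact h1

instance : ContinuousSMul Gal(Qb/ℚ) Zb where
  continuous_smul := by
    rw [continuous_discrete_rng]
    intro y
    rw [isOpen_iff_mem_nhds]
    rintro ⟨g, x⟩ hgx
    have hgx' : g • x = y := hgx
    have h1 : IsOpen ((fun h : Gal(Qb/ℚ) => g⁻¹ * h) ⁻¹' {h | h • x = x}) :=
      (open_stab x).preimage (continuous_const_mul g⁻¹)
    have h2 : IsOpen (((fun h : Gal(Qb/ℚ) => g⁻¹ * h) ⁻¹' {h | h • x = x}) ×ˢ {x}) :=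
      h1.prod (isOpen_discrete _)
    refine Filter.mem_of_superset (h2.mem_nhds ⟨?_, rfl⟩) ?_
    · simp
    · rintro ⟨h, x'⟩ ⟨hh, hx'⟩
      have hx'' : x' = x := hx'
      subst hx''
      have hh' : (g⁻¹ * h) • x' = x' := hh
      have : h • x' = g • x' := by
        rw [mul_smul, inv_smul_eq_iff] at hh'
        exact hh'
      exact this.trans hgx'

instance : Algebra.IsInvariant ℤ Zb Gal(Qb/ℚ) where
  isInvariant b hb := by
    have h1 : (b : Qb) ∈ Set.range (algebraMap ℚ Qb) := by
      rw [InfiniteGalois.mem_range_algebraMap_iff_fixed]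
      intro g
      exact congrArg Subtype.val (hb g)
    obtain ⟨r, hr⟩ := h1
    have h2 : IsIntegral ℤ r := by
      have := b.2
      rw [mem_integralClosure_iff, ← hr,
        isIntegral_algebraMap_iff (FaithfulSMul.algebraMap_injective ℚ Qb)] at this
      exact this
    obtain ⟨n, hn⟩ := IsIntegrallyClosed.algebraMap_eq_of_integral h2
    refine ⟨n, ?_⟩
    apply Subtype.ext
    rw [← hr, ← hn]
    simp

lemma under {l : ℕ} (hl : l.Prime) {M : Ideal Zb} (hM : M.IsPrime) (hlM : (l : Zb) ∈ M) :
    M.under ℤ = Ideal.span {(l : ℤ)} := by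
  have hmax : (Ideal.span {(l : ℤ)}).IsMaximal :=
    PrincipalIdealRing.isMaximal_of_irreducible (Nat.prime_iff_prime_int.1 hl).irreducible
  refine (hmax.eq_of_le ?_ ?_).symm
  · exact (Ideal.IsPrime.under ℤ M).ne_top
  · rw [Ideal.span_singleton_le_iff_mem, Ideal.mem_comap]
    simpa using hlM

end TRN_aux

open TRN_aux in
theorem t_TRN : S_TRN := by
  intro p P P' hp hP hP' hpP hpP'
  obtain ⟨g, hg⟩ := Algebra.IsInvariant.exists_smul_of_under_eq_of_profinite
    (A := ℤ) (B := Zb) (G := Gal(Qb/ℚ)) P P' (by rw [under hp hP hpP, under hp hP' hpP'])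
  refine ⟨g, fun x y hxy => ?_⟩
  have h1 : y = g • x := Subtype.ext hxy
  rw [h1, hg]
  exact (Ideal.smul_mem_pointwise_smul_iff (a := g) (S := P) (x := x)).symm

end

end Pool.Agent.TJ3
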