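import Pool.Agent.TJ3.St
import Pool.Agent.TJ2.OMB
import Pool.Agent.TJ2.FULC
import Pool.Agent.TJ2.EMB
import Pool.Agent.TJ2.SING
import Pool.Agent.TJ2.REP

/-!
# Project TJ3, module GIS: geometric isogeny (MP_3af9db_ag)
-/

open Polynomial IntermediateField

namespace Pool.Agent.TJ3

open Pool.Agent.TJ2

noncomputable section

lemma GIS_q0 {q : ℕ} (hq : IsPrimePow q) : (q : Qb) ≠ 0 := by
  have : q ≠ 0 := hq.pos.ne'
  exact_mod_cast this

/-- `a ^ M ≠ (q / a) ^ M` -/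
lemma GIS_bar {q : ℕ} (hq : IsPrimePow q) {h : ℤ[X]} (hh : h ∈ FO q) {a : Qb} (ha : a ∈ Om q h)
    {M : ℕ} (hM : 1 ≤ M) : a ^ M ≠ ((q : Qb) / a) ^ M := by
  intro e
  have ha0 : a ≠ 0 := ha.1
  have hb0 : (q : Qb) / a ≠ 0 := div_ne_zero (GIS_q0 hq) ha0
  refine t_SING t_EMB t_OMB h.natDegree q h a 1 M 0 hh.1 hq hh.2.1 ha one_ne_zero hM ?_
  rw [zpow_one, zpow_neg, zpow_one, zpow_zero, mul_pow, inv_pow, e]
  exact mul_inv_cancel₀ (pow_ne_zero M hb0)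

lemma GIS_inj {q : ℕ} (hq : IsPrimePow q) {h : ℤ[X]} (hh : h ∈ FO q) {a b : Qb}
    (ha : a ∈ Om q h) (hb : b ∈ Om q h) {M : ℕ} (hM : 1 ≤ M) (e : a ^ M = b ^ M) : a = b := by
  by_contra hne
  by_cases hbar : b = (q : Qb) / a
  · rw [hbar] at e
    exact GIS_bar hq hh ha hM e
  · have hq1 : 1 ≤ q := hq.pos
    obtain ⟨σ, hσ, hσ'⟩ := (t_FULC q h hq1 hh.2.1.1.1 hh.2.2).2.1 a ha
    have h1 : σ b = b := hσ' b hb (fun h => hne h.symm) hbar
    have h2 : ((q : Qb) / a) ^ M = a ^ M := by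
      rw [← hσ, ← map_pow, e, map_pow, h1]
    exact GIS_bar hq hh ha hM h2.symm

lemma GIS_trf {q : ℕ} (hq : IsPrimePow q) {h h' : ℤ[X]} (hh : h ∈ FO q) (hh' : h' ∈ FO q)
    (hG : GIso q h h') {a : Qb} (ha : a ∈ Om q h) :
    ∃ a' ∈ Om q h', ∃ N : ℕ, 1 ≤ N ∧ a ^ N = a' ^ N := by
  obtain ⟨b, hb, b', hb', N, hN, e⟩ := hG
  have hq1 : 1 ≤ q := hq.pos
  obtain ⟨σ, hσ⟩ := (t_FULC q h hq1 hh.2.1.1.1 hh.2.2).1 b hb a ha
  refine ⟨σ b', (t_OMB h'.natDegree q h' hq1 hh'.2.1.1.1 rfl).2.2.1 b' hb' σ, N, hN, ?_⟩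
  rw [← hσ, ← map_pow, e, map_pow]

theorem t_GIS : S_GIS := by
  intro q hq
  have hq1 : 1 ≤ q := hq.pos
  have hq0 := GIS_q0 hq
  refine ⟨fun h hh a ha b hb M hM e => GIS_inj hq hh ha hb hM e, ?_, ?_, ?_, ?_,
    fun h hh h' hh' hG a ha => GIS_trf hq hh hh' hG ha, ?_⟩
  · intro h hh a ha b hb M hM e
    have ha0 : a ≠ 0 := ha.1
    have hb0 : b ≠ 0 := hb.1
    have hbb : (q : Qb) / b ∈ Om q h := ((t_OMB h.natDegree q h hq1 hh.2.1.1.1 rfl).2.1 b hb).1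
    have h1 : a ^ M = ((q : Qb) / b) ^ M := by
      rw [div_pow, ← e, mul_pow, mul_div_assoc, div_self (pow_ne_zero M hb0), mul_one]
    have h2 : a = (q : Qb) / b := GIS_inj hq hh ha hbb hM h1
    rw [h2]
    field_simp
  · intro h hh
    have h1 : (Om q h).ncard = 2 * h.natDegree := hh.2.2.1
    have h2 : 1 ≤ h.natDegree := hh.1
    have h3 : (Om q h).Nonempty := by
      by_contra hne
      rw [Set.not_nonempty_iff_eq_empty] at hne
      rw [hne, Set.ncard_empty] at h1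
      omega
    obtain ⟨a, ha⟩ := h3
    exact ⟨a, ha, a, ha, 1, le_refl 1, rfl⟩
  · rintro h h' ⟨a, ha, a', ha', N, hN, e⟩
    exact ⟨a', ha', a, ha, N, hN, e.symm⟩
  · intro h hh h' hh' h'' hh'' ⟨a, ha, a', ha', N, hN, e⟩ h2
    obtain ⟨a'', ha'', M, hM, e'⟩ := GIS_trf hq hh' hh'' h2 ha'
    refine ⟨a, ha, a'', ha'', N * M, Nat.mul_pos hN hM, ?_⟩
    rw [pow_mul, e, ← pow_mul, mul_comm, pow_mul, e', ← pow_mul, mul_comm]
  · intro h hh
    have h1 : (Om q h).ncard = 2 * h.natDegree := hh.2.2.1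
    have h2 : 1 ≤ h.natDegree := hh.1
    have h3 : (Om q h).Nonempty := by
      by_contra hne
      rw [Set.not_nonempty_iff_eq_empty] at hne
      rw [hne, Set.ncard_empty] at h1
      omega
    obtain ⟨a, ha⟩ := h3
    refine ⟨⟨a, ha, -a, ?_, 2, by norm_num, by ring⟩, ?_⟩
    · rw [REP_om, neg_neg]
      exact ha
    · intro he
      have h4 : -a ∈ Om q h := by
        rw [← REP_om, ← he]
        exact ha
      have h5 : a = -a := GIS_inj hq hh ha h4 (M := 2) (by norm_num) (by ring)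
      have h6 : a ≠ 0 := ha.1
      apply h6
      have h7 : (2 : Qb) * a = 0 := by linear_combination h5
      exact (mul_eq_zero.1 h7).resolve_left two_ne_zero

end

end Pool.Agent.TJ3
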