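import Pool.Agent.TJ3.St

/-!
# JB3: matching
-/

set_option autoImplicit false

namespace Pool.Agent.TJ3

open Pool.Agent.TJ2

namespace JB3_aux

variable {K : Type} [Field K] {V : Type} [AddCommGroup V] [Module K V]

/-- a vector can be moved to the front, up to a scalar -/
lemma swap (x : V) (s : List V) : ∃ r : K,
    (s.map (ExteriorAlgebra.ι K)).prod * ExteriorAlgebra.ι K x
      = r • (ExteriorAlgebra.ι K x * (s.map (ExteriorAlgebra.ι K)).prod) := by
  induction s with
  | nil => exact ⟨1, by simp⟩
  | cons y s ih =>
    obtain ⟨r, hr⟩ := ih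
    refine ⟨-r, ?_⟩
    have h1 : ExteriorAlgebra.ι K y * ExteriorAlgebra.ι K x
        = -(ExteriorAlgebra.ι K x * ExteriorAlgebra.ι K y) :=
      eq_neg_of_add_eq_zero_left (ExteriorAlgebra.ι_add_mul_swap y x)
    rw [List.map_cons, List.prod_cons, mul_assoc, hr, mul_smul_comm, ← mul_assoc, h1, neg_mul,
      smul_neg, neg_smul, mul_assoc]

/-- powers of an endomorphism at an eigenvector -/
lemma pow_eig (F : Module.End K V) {v : V} {μ : K} (h : F v = μ • v) (M : ℕ) :
    (F ^ M) v = μ ^ M • v := by
  induction M with
  | zero => simp
  | succ M ih => rw [pow_succ', Module.End.mul_apply, ih, map_smul, h, smul_smul, pow_succ]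

/-- the product of two partners -/
lemma pair (F : Module.End K V) {E : Set V} {lam : V → K} {c : K}
    (hE : ∀ e ∈ E, F e = lam e • e) {e e' : V} (he : e ∈ E) (he' : e' ∈ E) {M : ℕ} (hM : 1 ≤ M)
    (h : (lam e * lam e') ^ M = c ^ M) :
    ExteriorAlgebra.ι K e * ExteriorAlgebra.ι K e' ∈ Deg2g F c := by
  constructor
  · have h1 : (⋀[K]^2 V : Submodule K (ExteriorAlgebra K V))
        = LinearMap.range (ExteriorAlgebra.ι K : V →ₗ[K] ExteriorAlgebra K V) *
          LinearMap.range (ExteriorAlgebra.ι K : V →ₗ[K] ExteriorAlgebra K V) := pow_two _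
    rw [h1]
    exact Submodule.mul_mem_mul ⟨e, rfl⟩ ⟨e', rfl⟩
  · refine ⟨M, hM, ?_⟩
    rw [map_mul, ExteriorAlgebra.map_apply_ι, ExteriorAlgebra.map_apply_ι, pow_eig F (hE e he),
      pow_eig F (hE e' he'), map_smul, map_smul, smul_mul_smul_comm, ← h, mul_pow]

end JB3_aux

open JB3_aux in
theorem t_JB3 : S_JB3 := by
  intro K V _ _ _ F E lam c hc hE hpart l j
  induction j generalizing l with
  | zero =>
    intro _ _ _ hlen _
    have h1 : l = [] := List.length_eq_zero_iff.mp (by simpa using hlen)
    rw [h1, List.map_nil, List.prod_nil]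
    exact one_mem _
  | succ j ih =>
    intro N hN hl hlen hprod
    cases l with
    | nil => simp at hlen
    | cons e l =>
      have he : e ∈ E := hl e List.mem_cons_self
      have hl' : ∀ e' ∈ l, e' ∈ E := fun e' he' => hl e' (List.mem_cons_of_mem _ he')
      rw [List.map_cons, List.prod_cons] at hprod
      obtain ⟨e', he'l, M, hM, he'2⟩ := hpart e l (j + 1) N he hl' hN hprod (by simpa using hlen)
      obtain ⟨s, t, rfl⟩ := List.append_of_mem he'l
      have he' : e' ∈ E := hl' e' he'l
      have hst : (List.map (ExteriorAlgebra.ι K) (s ++ t)).prod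
          ∈ Algebra.adjoin K (Deg2g F c) := by
        apply ih (s ++ t) (N * M) (Nat.mul_pos hN hM)
        · intro x hx
          apply hl' x
          rcases List.mem_append.mp hx with h | h
          · exact List.mem_append.mpr (Or.inl h)
          · exact List.mem_append.mpr (Or.inr (List.mem_cons_of_mem _ h))
        · simp only [List.length_cons, List.length_append] at hlen ⊢
          omega
        · rw [List.map_append, List.prod_append, List.map_cons, List.prod_cons] at hprod
          rw [List.map_append, List.prod_append]
          have h1 := congrArg (· ^ M) hprod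
          simp only [← pow_mul] at h1
          have h2 : c ^ (N * M) * ((s.map lam).prod * (t.map lam).prod) ^ (N * M) =
              c ^ (N * M) * (c ^ j) ^ (N * M) := by
            have h3 : c ^ (N * M) = (lam e * lam e') ^ (N * M) := by
              rw [mul_comm N M, pow_mul, pow_mul, he'2]
            have h4 : c ^ (N * M) * (c ^ j) ^ (N * M) = (c ^ (j + 1)) ^ (N * M) := by
              rw [← mul_pow, pow_succ']
            rw [h4]
            have h5 : c ^ ((j + 1) * (N * M)) = (c ^ (j + 1)) ^ (N * M) := by rw [pow_mul]
            rw [h3, ← mul_pow]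
            have h6 : lam e * lam e' * ((s.map lam).prod * (t.map lam).prod) =
                lam e * ((s.map lam).prod * (lam e' * (t.map lam).prod)) := by ring
            rw [h6]
            first
              | exact h1
              | (rw [h1, ← pow_mul]; ring_nf)
          exact mul_left_cancel₀ (pow_ne_zero _ hc) h2
      obtain ⟨r, hr⟩ := swap (K := K) e' s
      have h4 : (List.map (ExteriorAlgebra.ι K) (e :: (s ++ e' :: t))).prod
          = r • ((ExteriorAlgebra.ι K e * ExteriorAlgebra.ι K e') *
            (List.map (ExteriorAlgebra.ι K) (s ++ t)).prod) := by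
        rw [List.map_cons, List.prod_cons, List.map_append, List.prod_append, List.map_cons,
          List.prod_cons, List.map_append, List.prod_append, ← mul_assoc
            (List.map (ExteriorAlgebra.ι K) s).prod, hr, smul_mul_assoc, mul_smul_comm]
        simp only [mul_assoc]
      rw [h4]
      exact Subalgebra.smul_mem _
        (mul_mem (Algebra.subset_adjoin (pair F hE he he' hM he'2)) hst) r

end Pool.Agent.TJ3
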