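import Pool.Agent.TJ3.St
import Pool.Agent.TJ2.OMB

/-!
# C3: a simple sufficient condition
-/

set_option autoImplicit false

open Polynomial IntermediateField

namespace Pool.Agent.TJ3

open Pool.Agent.TJ2

namespace C3_aux

/-- equal or opposite signs: geometric isogeny -/
lemma iso_of (hSGB : S_SGB) (hUNI : S_UNI) {q : ℕ} {P : Ideal Zb} (hq : IsPrimePow q)
    (hP : P.IsPrime) (hp : ((q.minFac : ℕ) : Zb) ∈ P) {h h' : ℤ[X]} (hh : h ∈ FO q)
    (hh' : h' ∈ FO q) {a a' : Qb} (ha : a ∈ Om q h) (ha' : a' ∈ Om q h')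
    (hs : sgn P a = - sgn P a') : GIso q h h' := by
  have hq0 : (q : Qb) ≠ 0 := by
    have := hq.one_lt
    have : q ≠ 0 := by omega
    exact_mod_cast this
  obtain ⟨N, hN, hrel⟩ := hUNI q P hq hP hp [a, a'] (by
    intro b hb
    rcases List.mem_cons.1 hb with rfl | hb
    · exact ⟨h, hh, ha⟩
    · rw [List.mem_singleton] at hb
      subst hb
      exact ⟨h', hh', ha'⟩) (by
    intro σ
    have h1 := congrFun hs σ
    rw [Pi.neg_apply] at h1
    simp [h1])
  have ha0 : a ≠ 0 := ha.1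
  have ha0' : a' ≠ 0 := ha'.1
  have hb' : (q : Qb) / a' ∈ Om q h' :=
    ((t_OMB h'.natDegree q h' hq.one_lt.le hh'.2.1.1.1 rfl).2.1 a' ha').1
  refine ⟨a, ha, (q : Qb) / a', hb', 2 * N, by omega, ?_⟩
  have e1 : (a * a') ^ N = ((q : Qb) / a * ((q : Qb) / a')) ^ N := by
    simpa using hrel
  have e2 : a ^ (2 * N) * (a' ^ N) = (a * a') ^ N * a ^ N := by
    rw [two_mul, pow_add, mul_pow]
    ring
  have e3 : ((q : Qb) / a') ^ (2 * N) * (a' ^ N) =
      ((q : Qb) / a * ((q : Qb) / a')) ^ N * a ^ N := by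
    rw [two_mul, pow_add, ← mul_pow, ← mul_pow, ← mul_pow]
    congr 1
    field_simp
  apply mul_right_cancel₀ (pow_ne_zero N ha0')
  rw [e2, e3, e1]

end C3_aux

open C3_aux in
theorem t_C3 (hSGB : S_SGB) (hUNI : S_UNI) (hTHR : S_THR) : S_C3 := by
  intro q P S hq hP hp hS h4 hsurf
  refine ⟨?_, hsurf⟩
  intro n h a hha hfield hiso
  have hn : n ≤ 3 := by
    by_contra hn
    have hn4 : 4 ≤ n := by omega
    obtain ⟨i, j, hij, hg⟩ := h4 (fun i => h (Fin.castLE hn4 i)) (fun i => a (Fin.castLE hn4 i))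
      (fun i => hha _) (fun i j => hfield _ _)
    exact hiso _ _ (fun h => hij (Fin.castLE_injective hn4 h)) hg
  refine hTHR (Qb ≃ₐ[ℚ] Qb) n (fun i => sgn P (a i)) hn ⟨1⟩ (fun i σ =>
    ((hSGB q P (h i) (a i) hq hP hp (hS (hha i).1) (hha i).2).1 σ).1) ?_
  intro i j hij
  have hj := (hha j)
  have hb : (q : Qb) / a j ∈ Om q (h j) :=
    ((t_OMB (h j).natDegree q (h j) hq.one_lt.le (hS hj.1).2.1.1.1 rfl).2.1 _ hj.2).1
  constructor
  · intro hs
    apply hiso i j hij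
    refine iso_of hSGB hUNI hq hP hp (hS (hha i).1) (hS hj.1) (hha i).2 hb ?_
    funext σ
    rw [Pi.neg_apply, ((hSGB q P (h j) (a j) hq hP hp (hS hj.1) hj.2).1 σ).2, neg_neg]
    exact congrFun hs σ
  · intro hs
    apply hiso i j hij
    exact iso_of hSGB hUNI hq hP hp (hS (hha i).1) (hS hj.1) (hha i).2 hj.2 hs

end Pool.Agent.TJ3
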