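import Pool.Agent.TJ3.EAux

/-!
# TJ3: dependent sign vectors give data (helper85)
-/

open Polynomial IntermediateField

namespace Pool.Agent.TJ3

open Pool.Agent.TJ2

noncomputable section

theorem t_E1 (hSGB : S_SGB) (hUNI : S_UNI) (hGIS : S_GIS) : S_E1 := by
  classical
  intro q P S hq hP hqP hS n h a ha hn hdep
  have hq1 : 1 < q := hq.one_lt
  have hq0 : (q : Qb) ≠ 0 := by
    have : q ≠ 0 := by omega
    exact_mod_cast this
  obtain ⟨g, hg, i₀, hi₀⟩ := Fintype.not_linearIndependent_iff.1 hdep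
  let c : Fin n → ℤ := fun i => (g i).num * ∏ j ∈ Finset.univ.erase i, ((g j).den : ℤ)
  have hc : ∀ i, (c i : ℚ) = g i * ∏ j, ((g j).den : ℚ) := by
    intro i
    have h1 : ∏ j, ((g j).den : ℚ) = ((g i).den : ℚ) * ∏ j ∈ Finset.univ.erase i, ((g j).den : ℚ) :=
      (Finset.mul_prod_erase _ _ (Finset.mem_univ i)).symm
    have h2 : g i * ((g i).den : ℚ) = (g i).num := Rat.mul_den_eq_num (g i)
    rw [h1, ← mul_assoc, h2]
    simp [c]
  have hD : ∏ j, ((g j).den : ℚ) ≠ 0 :=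
    Finset.prod_ne_zero_iff.2 fun j _ => by exact_mod_cast (g j).den_nz
  refine E2_aux.data hSGB hUNI hGIS q P S hq hP hqP hS n h a ha c ?_ ?_ ?_
  · intro h0
    have h1 := hc i₀
    rw [h0] at h1
    simp only [Pi.zero_apply, Int.cast_zero] at h1
    exact (mul_ne_zero hi₀ hD) h1.symm
  · intro σ
    have h1 := congrFun hg σ
    simp only [Finset.sum_apply, Pi.smul_apply, smul_eq_mul, Pi.zero_apply] at h1
    have h2 : ∑ k, (c k : ℚ) * sgn P (a k) σ = (∏ j, ((g j).den : ℚ)) * ∑ k, g k * sgn P (a k) σ := by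
      rw [Finset.mul_sum]
      refine Finset.sum_congr rfl fun k _ => ?_
      rw [hc k]
      ring
    rw [h2, h1, mul_zero]
  · intro k k' hkk M hM
    have hk' := hS (ha k').1
    obtain ⟨-, h2, -⟩ := t_OMB _ q (h k') hq1.le hk'.2.1.1.1 rfl
    constructor
    · intro h1
      exact hn k k' hkk ⟨a k, (ha k).2, a k', (ha k').2, M, hM, h1⟩
    · intro h1
      refine hn k k' hkk ⟨a k, (ha k).2, (q : Qb) / a k', (h2 _ (ha k').2).1, M, hM, ?_⟩
      rw [div_pow, ← h1, mul_pow, mul_div_cancel_right₀ _ (pow_ne_zero M (ha k').2.1)]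

end

end Pool.Agent.TJ3
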