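import Pool.Agent.TJ3.EAux

/-!
# TJ3: three surfaces with the same splitting field give data (helper85)
-/

open Polynomial IntermediateField

namespace Pool.Agent.TJ3

open Pool.Agent.TJ2

noncomputable section

namespace E2_aux

/-- the four roots of a surface -/
theorem four (q : ℕ) (hq1 : 1 ≤ q) (h : ℤ[X]) (hh : h ∈ FO q) (hd : h.natDegree = 2) :
    ∃ a ∈ Om q h, ∃ b ∈ Om q h, b ≠ a ∧ b ≠ (q : Qb) / a ∧
      ∀ x ∈ Om q h, x = a ∨ x = (q : Qb) / a ∨ x = b ∨ x = (q : Qb) / b := by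
  classical
  have hq0 : (q : Qb) ≠ 0 := by
    have : q ≠ 0 := by omega
    exact_mod_cast this
  obtain ⟨hfin, h2, -, -, h5⟩ := t_OMB _ q h hq1 hh.2.1.1.1 rfl
  obtain ⟨h6, -⟩ := h5 hh.2.2.1
  have hcard : (Om q h).ncard = 4 := by
    rw [hh.2.2.1, hd]
  have hne : (Om q h).Nonempty := by
    rw [← Set.ncard_pos hfin]
    omega
  obtain ⟨a, ha⟩ := hne
  have hlt : ({a, (q : Qb) / a} : Set Qb).ncard < (Om q h).ncard := by
    have := Set.ncard_insert_le a {(q : Qb) / a}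
    rw [Set.ncard_singleton] at this
    omega
  obtain ⟨b, hb, hb'⟩ := Set.exists_mem_notMem_of_ncard_lt_ncard hlt
  have hba : b ≠ a := fun h => hb' (by simp [h])
  have hba' : b ≠ (q : Qb) / a := fun h => hb' (by simp [h])
  have ha0 : a ≠ 0 := ha.1
  have hb0 : b ≠ 0 := hb.1
  have hinv : ∀ x y : Qb, x ≠ 0 → y ≠ 0 → (q : Qb) / x = y → x = (q : Qb) / y := by
    intro x y hx hy hxy
    rw [← hxy]
    field_simp
  refine ⟨a, ha, b, hb, hba, hba', ?_⟩
  have hsub : ({a, (q : Qb) / a, b, (q : Qb) / b} : Finset Qb) ⊆ hfin.toFinset := by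
    intro x hx
    rw [Set.Finite.mem_toFinset]
    simp only [Finset.mem_insert, Finset.mem_singleton] at hx
    rcases hx with rfl | rfl | rfl | rfl
    · exact ha
    · exact (h2 _ ha).1
    · exact hb
    · exact (h2 _ hb).1
  have h7 : ({a, (q : Qb) / a, b, (q : Qb) / b} : Finset Qb).card = 4 := by
    rw [Finset.card_insert_of_notMem, Finset.card_insert_of_notMem, Finset.card_insert_of_notMem,
      Finset.card_singleton]
    · simp only [Finset.mem_singleton]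
      exact h6 b hb
    · simp only [Finset.mem_insert, Finset.mem_singleton, not_or]
      refine ⟨fun h8 => hba' h8.symm, fun h8 => hba ?_⟩
      have := hinv b ((q : Qb) / a) hb0 (div_ne_zero hq0 ha0) h8.symm
      rw [this]
      field_simp
    · simp only [Finset.mem_insert, Finset.mem_singleton, not_or]
      refine ⟨h6 a ha, fun h8 => hba h8.symm, fun h8 => hba' ?_⟩
      exact hinv b a hb0 ha0 h8.symm
  have h8 : ({a, (q : Qb) / a, b, (q : Qb) / b} : Finset Qb) = hfin.toFinset := by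
    refine Finset.eq_of_subset_of_card_le hsub ?_
    rw [h7, ← Set.ncard_eq_toFinset_card _ hfin, hcard]
  intro x hx
  have h9 : x ∈ ({a, (q : Qb) / a, b, (q : Qb) / b} : Finset Qb) := by
    rw [h8, Set.Finite.mem_toFinset]
    exact hx
  simpa only [Finset.mem_insert, Finset.mem_singleton] using h9

theorem sgn_congr (P : Ideal Zb) {a b : Qb} {σ τ : Qb ≃ₐ[ℚ] Qb} (h : σ a = τ b) :
    sgn P a σ = sgn P b τ := by
  unfold sgn
  rw [h]

end E2_aux

open E2_aux in
theorem t_E2 (hSGB : S_SGB) (hUNI : S_UNI) (hGIS : S_GIS) (hGAL : S_GAL) : S_E2 := by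
  classical
  intro q P hq hP hqP h₁ hh₁ h₂ hh₂ h₃ hh₃ d₁ d₂ d₃ n12 n13 n23 e12 e13
  have hq1 : 1 < q := hq.one_lt
  have hq0 : (q : Qb) ≠ 0 := by
    have : q ≠ 0 := by omega
    exact_mod_cast this
  obtain ⟨g1, g2, -, g4, -⟩ := hGIS q hq
  obtain ⟨κ, hκ⟩ := conj q hq1.le
  let H : Fin 3 → ℤ[X] := ![h₁, h₂, h₃]
  have hHS : ∀ i, H i ∈ ({h₁, h₂, h₃} : Set ℤ[X]) := by
    intro i
    fin_cases i <;> simp [H]
  have hH : ∀ i, H i ∈ FO q := by
    intro i
    fin_cases i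
    · exact hh₁
    · exact hh₂
    · exact hh₃
  have hHd : ∀ i, (H i).natDegree = 2 := by
    intro i
    fin_cases i
    · exact d₁
    · exact d₂
    · exact d₃
  have hHn : ∀ i j, i ≠ j → ¬ GIso q (H i) (H j) := by
    intro i j hij
    fin_cases i <;> fin_cases j
    · exact absurd rfl hij
    · exact n12
    · exact n13
    · exact fun h => n12 (g4 _ _ h)
    · exact absurd rfl hij
    · exact n23
    · exact fun h => n13 (g4 _ _ h)
    · exact fun h => n23 (g4 _ _ h)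
    · exact absurd rfl hij
  have hHf : ∀ i, ∀ σ : Qb ≃ₐ[ℚ] Qb, (∀ a ∈ Om q (H 0), σ a = a) → ∀ b ∈ Om q (H i), σ b = b := by
    intro i σ h0
    fin_cases i
    · exact h0
    · exact ((hGAL _ _).1 e12 σ).1 h0
    · exact ((hGAL _ _).1 e13 σ).1 h0
  have hOM : ∀ i, (∀ a ∈ Om q (H i), (q : Qb) / a ∈ Om q (H i)) ∧
      ∀ a ∈ Om q (H i), ∀ σ : Qb ≃ₐ[ℚ] Qb, σ a ∈ Om q (H i) := by
    intro i
    obtain ⟨-, h2, h3, -⟩ := t_OMB _ q (H i) hq1.le (hH i).2.1.1.1 rfl
    exact ⟨fun a ha => (h2 a ha).1, h3⟩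
  choose A hA B hB hBA hBA' hAB using fun i => four q hq1.le (H i) (hH i) (hHd i)
  have hσq : ∀ (σ : Qb ≃ₐ[ℚ] Qb) (x : Qb), σ ((q : Qb) / x) = (q : Qb) / σ x := by
    intro σ x
    rw [map_div₀, map_natCast]
  let R : Fin 3 × Fin 2 → Qb := fun k => if k.2 = 0 then A k.1 else B k.1
  have hR : ∀ k, R k ∈ Om q (H k.1) := by
    intro k
    by_cases hk : k.2 = 0
    · simp only [R, if_pos hk]
      exact hA _
    · simp only [R, if_neg hk]
      exact hB _
  let E : Fin (3 * 2) ≃ Fin 3 × Fin 2 := finProdFinEquiv.symm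
  let p : Fin 4 → Qb × Qb := ![(A 0, B 0), (A 0, (q : Qb) / B 0), (B 0, A 0), (B 0, (q : Qb) / A 0)]
  let σt : Fin 4 → (Qb ≃ₐ[ℚ] Qb) := fun t =>
    if h : ∃ σ : Qb ≃ₐ[ℚ] Qb, (σ (A 0), σ (B 0)) = p t then h.choose else 1
  have hσt : ∀ (t : Fin 4) (ρ : Qb ≃ₐ[ℚ] Qb), (ρ (A 0), ρ (B 0)) = p t →
      ∀ i, ∀ x ∈ Om q (H i), ρ x = σt t x := by
    intro t ρ hρ
    have hex : ∃ σ : Qb ≃ₐ[ℚ] Qb, (σ (A 0), σ (B 0)) = p t := ⟨ρ, hρ⟩
    have h1 : (σt t (A 0), σt t (B 0)) = p t := by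
      simp only [σt, dif_pos hex]
      exact hex.choose_spec
    rw [← h1] at hρ
    obtain ⟨hρA, hρB⟩ := Prod.ext_iff.1 hρ
    simp only at hρA hρB
    have h2 : ∀ x ∈ Om q (H 0), ((σt t)⁻¹ * ρ) x = x := by
      intro x hx
      have h3 : ρ x = σt t x := by
        rcases hAB 0 x hx with rfl | rfl | rfl | rfl
        · exact hρA
        · rw [hσq, hσq, hρA]
        · exact hρB
        · rw [hσq, hσq, hρB]
      rw [AlgEquiv.mul_apply, h3]
      exact AlgEquiv.symm_apply_apply _ _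
    intro i x hx
    have h3 := hHf i _ h2 x hx
    rw [AlgEquiv.mul_apply] at h3
    have h4 := congrArg (σt t) h3
    rw [← h4]
    exact (AlgEquiv.apply_symm_apply (σt t) (ρ x)).symm
  -- all automorphisms
  have hall : ∀ σ : Qb ≃ₐ[ℚ] Qb, ∃ t, (∀ i, ∀ x ∈ Om q (H i), σ x = σt t x) ∨
      (∀ i, ∀ x ∈ Om q (H i), σ ((q : Qb) / x) = σt t x) := by
    intro σ
    have hx := (hOM 0).2 _ (hA 0) σ
    have hy := (hOM 0).2 _ (hB 0) σ
    have hκx : κ (σ (A 0)) = (q : Qb) / σ (A 0) := hκ _ (hH 0) _ hx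
    have hκy : κ (σ (B 0)) = (q : Qb) / σ (B 0) := hκ _ (hH 0) _ hy
    have hqq : ∀ z : Qb, z ≠ 0 → (q : Qb) / ((q : Qb) / z) = z := by
      intro z hz
      field_simp
    have hA0 : A 0 ≠ 0 := (hA 0).1
    have hB0 : B 0 ≠ 0 := (hB 0).1
    have hxy : σ (B 0) ≠ σ (A 0) := fun h => hBA 0 (σ.injective h)
    have hxy' : σ (B 0) ≠ (q : Qb) / σ (A 0) := by
      rw [← hσq]
      exact fun h => hBA' 0 (σ.injective h)
    -- the case of `κ σ`
    have hk2 : ∀ t, (κ (σ (A 0)), κ (σ (B 0))) = p t →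
        ∀ i, ∀ x ∈ Om q (H i), σ ((q : Qb) / x) = σt t x := by
      intro t ht i x hx'
      have h1 := hσt t (κ * σ) ht i x hx'
      rw [← h1, AlgEquiv.mul_apply, hκ _ (hH i) _ ((hOM i).2 x hx' σ), hσq]
    rcases hAB 0 _ hx with h1 | h1 | h1 | h1
    · rcases hAB 0 _ hy with h2 | h2 | h2 | h2
      · exact absurd (h2.trans h1.symm) hxy
      · exact absurd (by rw [h2, h1]) hxy'
      · exact ⟨0, Or.inl (hσt 0 σ (by rw [h1, h2]; rfl))⟩
      · exact ⟨1, Or.inl (hσt 1 σ (by rw [h1, h2]; rfl))⟩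
    · rcases hAB 0 _ hy with h2 | h2 | h2 | h2
      · exact absurd (by rw [h2, h1, hqq _ hA0]) hxy'
      · exact absurd (h2.trans h1.symm) hxy
      · exact ⟨1, Or.inr (hk2 1 (by rw [hκx, hκy, h1, h2, hqq _ hA0]; rfl))⟩
      · exact ⟨0, Or.inr (hk2 0 (by rw [hκx, hκy, h1, h2, hqq _ hA0, hqq _ hB0]; rfl))⟩
    · rcases hAB 0 _ hy with h2 | h2 | h2 | h2
      · exact ⟨2, Or.inl (hσt 2 σ (by rw [h1, h2]; rfl))⟩
      · exact ⟨3, Or.inl (hσt 3 σ (by rw [h1, h2]; rfl))⟩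
      · exact absurd (h2.trans h1.symm) hxy
      · exact absurd (by rw [h2, h1]) hxy'
    · rcases hAB 0 _ hy with h2 | h2 | h2 | h2
      · exact ⟨3, Or.inr (hk2 3 (by rw [hκx, hκy, h1, h2, hqq _ hB0]; rfl))⟩
      · exact ⟨2, Or.inr (hk2 2 (by rw [hκx, hκy, h1, h2, hqq _ hA0, hqq _ hB0]; rfl))⟩
      · exact absurd (by rw [h2, h1, hqq _ hB0]) hxy'
      · exact absurd (h2.trans h1.symm) hxy
  -- the linear system
  let Mx : Matrix (Fin 4) (Fin (3 * 2)) ℤ := Matrix.of fun t k =>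
    if sgn P (R (E k)) (σt t) = 1 then 1 else -1
  have hMx : ∀ t k, ((Mx t k : ℤ) : ℚ) = sgn P (R (E k)) (σt t) := by
    intro t k
    have h1 := ((hSGB q P (H (E k).1) (R (E k)) hq hP hqP (hH _) (hR _)).1 (σt t)).1
    have h2 : Mx t k = if sgn P (R (E k)) (σt t) = 1 then 1 else -1 := rfl
    rw [h2]
    rcases h1 with h1 | h1
    · rw [if_pos h1, h1]
      norm_num
    · rw [h1]
      norm_num
  obtain ⟨c, hc, hMc, -⟩ := Int.Matrix.exists_ne_zero_int_vec_norm_le Mx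
    (by simp) (by simp)
  have hct : ∀ t, ∑ k, (c k : ℚ) * sgn P (R (E k)) (σt t) = 0 := by
    intro t
    have h1 : ∑ k, Mx t k * c k = 0 := congrFun hMc t
    have h2 : ((∑ k, Mx t k * c k : ℤ) : ℚ) = 0 := by rw [h1]; rfl
    rw [Int.cast_sum] at h2
    rw [← h2]
    refine Finset.sum_congr rfl fun k _ => ?_
    rw [Int.cast_mul, hMx]
    ring
  refine data hSGB hUNI hGIS q P _ hq hP hqP ?_ (3 * 2) (fun k => H (E k).1) (fun k => R (E k))
    (fun k => ⟨hHS _, hR _⟩) c hc ?_ ?_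
  · intro x hx
    simp only [Set.mem_insert_iff, Set.mem_singleton_iff] at hx
    rcases hx with rfl | rfl | rfl
    · exact hh₁
    · exact hh₂
    · exact hh₃
  · intro σ
    obtain ⟨t, ht | ht⟩ := hall σ
    · rw [← hct t]
      exact Finset.sum_congr rfl fun k _ => by rw [sgn_congr P (ht _ _ (hR (E k)))]
    · have h1 : ∀ k, sgn P (R (E k)) (σt t) = - sgn P (R (E k)) σ := by
        intro k
        rw [← sgn_congr P (ht _ _ (hR (E k)))]
        exact ((hSGB q P (H (E k).1) (R (E k)) hq hP hqP (hH _) (hR _)).1 σ).2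
      have h2 := hct t
      simp only [h1, mul_neg, Finset.sum_neg_distrib, neg_eq_zero] at h2
      exact h2
  · intro k k' hkk
    have hkk' : E k ≠ E k' := fun h => hkk (E.injective h)
    by_cases hi : (E k).1 = (E k').1
    · have hs : (E k).2 ≠ (E k').2 := fun h => hkk' (Prod.ext hi h)
      have hAi : Ind q (A (E k).1) (B (E k).1) := by
        intro M hM
        constructor
        · intro h1
          exact hBA _ (g1 _ (hH _) _ (hA _) _ (hB _) M hM h1).symm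
        · intro h1
          exact hBA' _ (g2 _ (hH _) _ (hA _) _ (hB _) M hM h1)
      by_cases h0 : (E k).2 = 0
      · have h0' : (E k').2 ≠ 0 := fun h => hs (h0.trans h.symm)
        simp only [R, if_pos h0, if_neg h0', ← hi]
        exact hAi
      · have h0' : (E k').2 = 0 := by
          by_contra h
          apply hs
          omega
        simp only [R, if_neg h0, if_pos h0', ← hi]
        exact Ind_symm hAi
    · intro M hM
      constructor
      · intro h1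
        exact hHn _ _ hi ⟨_, hR _, _, hR _, M, hM, h1⟩
      · intro h1
        refine hHn _ _ hi ⟨_, hR (E k), (q : Qb) / R (E k'), (hOM _).1 _ (hR _), M, hM, ?_⟩
        rw [div_pow, ← h1, mul_pow, mul_div_cancel_right₀ _ (pow_ne_zero M (hR (E k')).1)]

end

end Pool.Agent.TJ3
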