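import Pool.Agent.TJ3.St
import Pool.Agent.TJ2.OMB
import Pool.Agent.TJ2.EMB
import Pool.Agent.TJ2.STAB

/-!
# TJ3: auxiliary lemmas for E1 and E2 (helper85)
-/

open Polynomial IntermediateField

namespace Pool.Agent.TJ3

open Pool.Agent.TJ2

noncomputable section

namespace E2_aux

/-- complex conjugation -/
theorem conj (q : ℕ) (hq : 1 ≤ q) :
    ∃ κ : Qb ≃ₐ[ℚ] Qb, ∀ h ∈ FO q, ∀ a ∈ Om q h, κ a = (q : Qb) / a := by
  have hgal := STAB_galois
  have halg := STAB_algebraic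
  let ι : Qb →ₐ[ℚ] ℂ := IsAlgClosed.lift
  let _ : Algebra Qb ℂ := (ι : Qb →+* ℂ).toAlgebra
  have : IsScalarTower ℚ Qb ℂ := IsScalarTower.of_algebraMap_eq' (Subsingleton.elim _ _)
  let c : ℂ ≃ₐ[ℚ] ℂ := AlgEquiv.ofRingEquiv (f := (starRingAut : ℂ ≃+* ℂ))
    (fun r => by simp)
  have : Normal ℚ Qb := hgal.to_normal
  refine ⟨c.restrictNormal Qb, fun h hh a ha => ?_⟩
  have h1 : algebraMap Qb ℂ (c.restrictNormal Qb a) = c (algebraMap Qb ℂ a) :=
    AlgEquiv.restrictNormal_commutes c Qb a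
  have h2 := (t_EMB _ q h hq hh.2.1.1 a ha (ι : Qb →+* ℂ)).2.1
  have h3 : (ι : Qb →+* ℂ) (c.restrictNormal Qb a) = (ι : Qb →+* ℂ) ((q : Qb) / a) := by
    rw [h2]
    exact h1
  exact (ι : Qb →+* ℂ).injective h3

/-- the weighted list -/
theorem wlist {M : Type*} [CommMonoid M] (n : ℕ) (r : Fin n → Qb) (e : Fin n → ℕ) (f : Qb → M) :
    (((List.ofFn fun k => List.replicate (e k) (r k)).flatten).map f).prod =
      ∏ k, f (r k) ^ e k := by
  rw [List.map_flatten, List.prod_flatten, List.map_map, List.map_ofFn, List.prod_ofFn]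
  refine Finset.prod_congr rfl fun k _ => ?_
  simp

theorem wlist_sum {M : Type*} [AddCommMonoid M] (n : ℕ) (r : Fin n → Qb) (e : Fin n → ℕ)
    (f : Qb → M) :
    (((List.ofFn fun k => List.replicate (e k) (r k)).flatten).map f).sum =
      ∑ k, e k • f (r k) := by
  rw [List.map_flatten, List.sum_flatten, List.map_map, List.map_ofFn, List.sum_ofFn]
  refine Finset.sum_congr rfl fun k _ => ?_
  simp

/-- not related geometrically -/
def Ind (q : ℕ) (x y : Qb) : Prop :=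
  ∀ M : ℕ, 1 ≤ M → x ^ M ≠ y ^ M ∧ (x * y) ^ M ≠ (q : Qb) ^ M

theorem Ind_symm {q : ℕ} {x y : Qb} (h : Ind q x y) : Ind q y x := fun M hM =>
  ⟨(h M hM).1.symm, by rw [mul_comm]; exact (h M hM).2⟩

theorem Ind_bar {q : ℕ} (hq0 : (q : Qb) ≠ 0) {x y : Qb} (hx : x ≠ 0) (h : Ind q x y) :
    Ind q ((q : Qb) / x) y := by
  intro M hM
  have hxM : x ^ M ≠ 0 := pow_ne_zero _ hx
  constructor
  · intro h1
    refine (h M hM).2 ?_
    rw [mul_pow, ← h1, div_pow, mul_div_cancel₀ _ hxM]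
  · intro h1
    refine (h M hM).1 ?_
    rw [mul_pow, div_pow, div_mul_eq_mul_div, div_eq_iff hxM] at h1
    exact (mul_left_cancel₀ (pow_ne_zero M hq0) h1).symm

/-- integer relations of the sign vectors give data -/
theorem data (hSGB : S_SGB) (hUNI : S_UNI) (hGIS : S_GIS) (q : ℕ) (P : Ideal Zb) (S : Set ℤ[X])
    (hq : IsPrimePow q) (hP : P.IsPrime) (hqP : ((q.minFac : ℕ) : Zb) ∈ P) (hS : S ⊆ FO q) (n : ℕ)
    (h : Fin n → ℤ[X]) (r₀ : Fin n → Qb) (hr : ∀ k, h k ∈ S ∧ r₀ k ∈ Om q (h k))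
    (c : Fin n → ℤ) (hc : c ≠ 0)
    (hrel : ∀ σ : Qb ≃ₐ[ℚ] Qb, ∑ k, (c k : ℚ) * sgn P (r₀ k) σ = 0)
    (hind : ∀ k k', k ≠ k' → Ind q (r₀ k) (r₀ k')) : HasData q S := by
  classical
  have hq1 : 1 < q := hq.one_lt
  have hq0 : (q : Qb) ≠ 0 := by
    have : q ≠ 0 := by omega
    exact_mod_cast this
  have hom : ∀ k, r₀ k ≠ 0 ∧ (q : Qb) / r₀ k ∈ Om q (h k) := by
    intro k
    have hk := hS (hr k).1
    obtain ⟨-, h2, -⟩ := t_OMB _ q (h k) hq1.le hk.2.1.1.1 rfl
    exact ⟨(hr k).2.1, (h2 _ (hr k).2).1⟩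
  let r : Fin n → Qb := fun k => if 0 ≤ c k then r₀ k else (q : Qb) / r₀ k
  let e : Fin n → ℕ := fun k => (c k).natAbs
  have hrom : ∀ k, r k ∈ Om q (h k) := by
    intro k
    by_cases hk : 0 ≤ c k
    · simp only [r, if_pos hk]
      exact (hr k).2
    · simp only [r, if_neg hk]
      exact (hom k).2
  have hrind : ∀ k k', k ≠ k' → Ind q (r k) (r k') := by
    intro k k' hkk
    have h1 : Ind q (r k) (r₀ k') := by
      by_cases hk : 0 ≤ c k
      · simp only [r, if_pos hk]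
        exact hind k k' hkk
      · simp only [r, if_neg hk]
        exact Ind_bar hq0 (hom k).1 (hind k k' hkk)
    by_cases hk : 0 ≤ c k'
    · simp only [r, if_pos hk] at h1 ⊢
      exact h1
    · have h2 := Ind_symm (Ind_bar hq0 (hom k').1 (Ind_symm h1))
      simp only [r, if_neg hk] at h2 ⊢
      exact h2
  let l : List Qb := (List.ofFn fun k => List.replicate (e k) (r k)).flatten
  have hl : ∀ a ∈ l, ∃ h ∈ FO q, a ∈ Om q h := by
    intro a ha
    obtain ⟨l', hl', hal⟩ := List.mem_flatten.1 ha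
    obtain ⟨k, rfl⟩ := (List.mem_ofFn' _ _).1 hl'
    have h1 := List.eq_of_mem_replicate hal
    rw [h1]
    exact ⟨h k, hS (hr k).1, hrom k⟩
  have hsum : ∀ σ : Qb ≃ₐ[ℚ] Qb, (l.map fun a => sgn P a σ).sum = 0 := by
    intro σ
    rw [wlist_sum n r e, ← hrel σ]
    refine Finset.sum_congr rfl fun k _ => ?_
    have h1 := ((hSGB q P (h k) (r₀ k) hq hP hqP (hS (hr k).1) (hr k).2).1 σ).2
    rw [nsmul_eq_mul]
    by_cases hk : 0 ≤ c k
    · have h2 : ((e k : ℕ) : ℚ) = (c k : ℚ) := by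
        have : ((e k : ℕ) : ℤ) = c k := Int.natAbs_of_nonneg hk
        exact_mod_cast this
      simp only [r, if_pos hk]
      rw [h2]
    · have h2 : ((e k : ℕ) : ℚ) = -(c k : ℚ) := by
        have : ((e k : ℕ) : ℤ) = -c k := by
          have := Int.ofNat_natAbs_of_nonpos (le_of_not_ge hk)
          exact this
        exact_mod_cast this
      simp only [r, if_neg hk]
      rw [h2, h1]
      ring
  obtain ⟨N, hN, hrelN⟩ := hUNI q P hq hP hqP l hl hsum
  refine ⟨n, h, r, e, N, fun k => ⟨(hr k).1, hrom k⟩, ?_, hN, ?_, fun k k' hkk M hM =>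
    (hrind k k' hkk M hM).1, ?_⟩
  · by_contra hcon
    push Not at hcon
    refine hc ?_
    funext k
    have h1 := hcon k
    have h2 : (c k).natAbs = 0 := by
      change e k < 1 at h1
      simp only [e] at h1
      omega
    exact Int.natAbs_eq_zero.1 h2
  · have h1 := wlist n r e (fun a : Qb => a)
    have h2 := wlist n r e (fun a : Qb => (q : Qb) / a)
    rw [List.map_id'] at h1
    rw [← h1, ← h2]
    exact hrelN
  · intro k k' M hM
    by_cases hkk : k = k'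
    · subst hkk
      intro h1
      obtain ⟨-, g2, -⟩ := hGIS q hq
      have h2 := g2 (h k) (hS (hr k).1) (r k) (hrom k) (r k) (hrom k) M hM h1
      have h3 := ((hSGB q P (h k) (r k) hq hP hqP (hS (hr k).1) (hrom k)).1 1)
      rw [← h2] at h3
      obtain ⟨h4, h5⟩ := h3
      have h6 : sgn P (r k) 1 = 0 := by linarith
      rw [h6] at h4
      rcases h4 with h4 | h4 <;> norm_num at h4
    · exact (hrind k k' hkk M hM).2

end E2_aux

end

end Pool.Agent.TJ3
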