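import Pool.Agent.TJ3.St

/-!
# TJ3: independent eigenvectors (helper85)
-/

open Polynomial IntermediateField

namespace Pool.Agent.TJ3

open Pool.Agent.TJ2

noncomputable section

theorem t_EIG : S_EIG := by
  classical
  intro L V _ _ _ _ F hF n μ e hμ hdvd
  have hfin : ∀ k, e k ≤ Module.finrank L (F.eigenspace (μ k)) := by
    intro k
    rw [← hF.isFinitelySemisimple.maxGenEigenspace_eq_eigenspace (μ k),
      LinearMap.finrank_maxGenEigenspace_eq]
    exact (le_rootMultiplicity_iff (LinearMap.charpoly_monic F).ne_zero).2 (hdvd k)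
  choose f hf using fun k => exists_linearIndependent_of_le_finrank (hfin k)
  refine ⟨fun x => (f x.1 x.2 : V), ?_, ?_⟩
  · have h1 : iSupIndep (fun k => F.eigenspace (μ k)) := F.eigenspaces_iSupIndep.comp hμ
    refine linearIndependent_iUnion_finite (f := fun k i => ((f k i : F.eigenspace (μ k)) : V))
      (fun k => ?_) ?_
    · exact (hf k).map' (Submodule.subtype _) (Submodule.ker_subtype _)
    · intro i t _ hi
      have hle : ∀ k, Submodule.span L (Set.range fun j => ((f k j : F.eigenspace (μ k)) : V)) ≤
          F.eigenspace (μ k) := by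
        intro k
        rw [Submodule.span_le]
        rintro _ ⟨j, rfl⟩
        exact (f k j).2
      refine (h1 i).mono (hle i) ?_
      refine iSup₂_le fun k hk => (hle k).trans ?_
      have hki : k ≠ i := fun h => hi (h ▸ hk)
      exact le_iSup₂_of_le k hki le_rfl
  · intro x
    exact Module.End.mem_eigenspace_iff.1 (f x.1 x.2).2

end

end Pool.Agent.TJ3
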