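import Pool.Agent.TJ3.St

/-!
# TJ3: exotic classes descend (helper85)
-/

open Polynomial IntermediateField
open scoped TensorProduct

namespace Pool.Agent.TJ3

open Pool.Agent.TJ2

noncomputable section

namespace EXK_aux

section

variable {K L V : Type} [Field K] [Field L] [Algebra K L] [CharZero K] [AddCommGroup V]
  [Module K V]

omit [CharZero K] in
theorem mul_mem (m : L ⊗[K] V) (i : ℕ) {t : L ⊗[K] ExteriorAlgebra K V}
    (ht : t ∈ (⋀[K]^i V).baseChange L) :
    (ExteriorAlgebra.ι K).baseChange L m * t ∈ (⋀[K]^(i + 1) V).baseChange L := by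
  obtain ⟨s, rfl⟩ := ht
  induction m using TensorProduct.induction_on with
  | zero => rw [map_zero, zero_mul]; exact Submodule.zero_mem _
  | add x y hx hy => rw [map_add, add_mul]; exact Submodule.add_mem _ hx hy
  | tmul l v =>
    induction s using TensorProduct.induction_on with
    | zero => rw [map_zero, mul_zero]; exact Submodule.zero_mem _
    | add x y hx hy => rw [map_add, mul_add]; exact Submodule.add_mem _ hx hy
    | tmul l' w =>
      rw [LinearMap.baseChange_tmul, LinearMap.baseChange_tmul,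
        Algebra.TensorProduct.tmul_mul_tmul]
      refine Submodule.tmul_mem_baseChange_of_mem _ ?_
      change _ ∈ (LinearMap.range (ExteriorAlgebra.ι K : V →ₗ[K] _)) ^ (i + 1)
      rw [pow_succ']
      exact Submodule.mul_mem_mul ⟨_, rfl⟩ w.2

theorem theta_mem {n : ℕ} {y : ExteriorAlgebra L (L ⊗[K] V)} (hy : y ∈ ⋀[L]^n (L ⊗[K] V)) :
    JF_theta K L V y ∈ (⋀[K]^n V).baseChange L := by
  have hy' : y ∈ (LinearMap.range (ExteriorAlgebra.ι L : L ⊗[K] V →ₗ[L] _)) ^ n := hy
  induction hy' using Submodule.pow_induction_on_left' with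
  | algebraMap r =>
    rw [AlgHom.commutes]
    refine Submodule.tmul_mem_baseChange_of_mem (a := r) (m := (1 : ExteriorAlgebra K V)) ?_
    change _ ∈ (LinearMap.range (ExteriorAlgebra.ι K : V →ₗ[K] _)) ^ 0
    rw [pow_zero, Submodule.mem_one]
    exact ⟨1, map_one _⟩
  | add x y i hx1 hy1 ihx ihy =>
    rw [map_add]
    exact Submodule.add_mem _ (ihx hx1) (ihy hy1)
  | mem_mul m hm i x hx1 ih =>
    obtain ⟨v, rfl⟩ := hm
    rw [map_mul, JF_theta_ι]
    exact mul_mem v i (ih hx1)

/-- the inverse of `JF_theta` -/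
def Phi (K L V : Type) [Field K] [Field L] [Algebra K L] [AddCommGroup V] [Module K V] :
    L ⊗[K] ExteriorAlgebra K V →ₐ[L] ExteriorAlgebra L (L ⊗[K] V) :=
  Algebra.TensorProduct.lift (Algebra.ofId L _) (JF_phi K L V)
    (fun l x => Algebra.commutes l (JF_phi K L V x))

omit [CharZero K] in
theorem Phi_tmul (l : L) (x : ExteriorAlgebra K V) :
    Phi K L V (l ⊗ₜ[K] x) = l • JF_phi K L V x := by
  unfold Phi
  rw [Algebra.TensorProduct.lift_tmul, Algebra.smul_def]
  rfl

theorem Phi_theta (y : ExteriorAlgebra L (L ⊗[K] V)) :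
    Phi K L V (JF_theta K L V y) = y := by
  have h1 : (Phi K L V).comp (JF_theta K L V) = AlgHom.id L _ := by
    apply ExteriorAlgebra.hom_ext
    apply TensorProduct.AlgebraTensorModule.ext
    intro l v
    change Phi K L V (JF_theta K L V (ExteriorAlgebra.ι L (l ⊗ₜ[K] v))) =
      ExteriorAlgebra.ι L (l ⊗ₜ[K] v)
    rw [JF_theta_ι, LinearMap.baseChange_tmul, Phi_tmul, JF_phi_ι, ← map_smul,
      TensorProduct.smul_tmul', smul_eq_mul, mul_one]
  exact DFunLike.congr_fun h1 y

end

end EXK_aux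

theorem t_EXK (hJF3 : S_JF3) : S_EXK := by
  intro K L V _ _ _ _ _ _ _ F c j N hex
  obtain ⟨y, hy1, hy2, hy3⟩ := hex
  by_contra hcon
  push Not at hcon
  apply hy3
  let M : ExteriorAlgebra K V →ₗ[K] ExteriorAlgebra K V :=
    (ExteriorAlgebra.map (F ^ N)).toLinearMap - (c ^ (j * N)) • LinearMap.id
  let W : Submodule K (ExteriorAlgebra K V) := ⋀[K]^(2 * j) V ⊓ LinearMap.ker M
  have hW : ∀ w ∈ W, w ∈ Algebra.adjoin K (Deg2g F c) := by
    rintro w ⟨h3, h4⟩
    refine hcon w h3 ?_
    have h5 : M w = 0 := h4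
    exact sub_eq_zero.1 h5
  have h0 : ((F ^ N).baseChange L : Module.End L (L ⊗[K] V)) = (F.baseChange L) ^ N :=
    LinearMap.baseChange_pow _ _ _ F N
  have h3 : JF_theta K L V (ExteriorAlgebra.map ((F ^ N).baseChange L) y) =
      (ExteriorAlgebra.map (F ^ N)).toLinearMap.baseChange L (JF_theta K L V y) :=
    JF_theta_map _ _
  rw [h0, hy2, map_smul] at h3
  let b := Module.Basis.ofVectorSpace K L
  have h4 : JF_theta K L V y ∈ W.baseChange L := by
    refine JF_co_mem b W fun i => ⟨?_, ?_⟩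
    · exact JF_mem_co b _ (EXK_aux.theta_mem hy1) i
    · have h5 := congrArg (JF_co b i) h3
      rw [JF_co_map] at h5
      have h6 : (algebraMap K L c) ^ (j * N) • JF_theta K L V y =
          (c ^ (j * N)) • JF_theta K L V y := by
        rw [← map_pow, algebraMap_smul]
      rw [h6, map_smul] at h5
      exact sub_eq_zero.2 h5.symm
  rw [← EXK_aux.Phi_theta y]
  obtain ⟨s, hs⟩ := h4
  rw [← hs]
  clear hs h3
  induction s using TensorProduct.induction_on with
  | zero => rw [map_zero, map_zero]; exact Subalgebra.zero_mem _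
  | add x y hx hy => rw [map_add, map_add]; exact Subalgebra.add_mem _ hx hy
  | tmul l w =>
    rw [LinearMap.baseChange_tmul, EXK_aux.Phi_tmul]
    exact Subalgebra.smul_mem _ ((hJF3 K L V F c w).2 (hW w w.2)) l

end

end Pool.Agent.TJ3
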