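import Pool.Agent.TJ3.St
import Pool.Agent.TJ2.JG
import Pool.Agent.TJ2.JA

/-!
# TJ3: the exotic class over an algebraically closed field (helper85)
-/

open Polynomial IntermediateField

namespace Pool.Agent.TJ3

open Pool.Agent.TJ2

noncomputable section

namespace EXL_aux

/-- the product of linearly independent vectors is not zero -/
theorem wedge_ne {L V : Type} [Field L] [AddCommGroup V] [Module L V] (n : ℕ) (v : Fin n → V)
    (hv : LinearIndependent L v) : ExteriorAlgebra.ιMulti L n v ≠ 0 := by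
  have h1 := exteriorPower.ιMulti_family_linearIndependent_field n hv
  have h2 := h1.ne_zero (Set.powersetCard.ofFinEmbEquiv (RelEmbedding.refl (· ≤ ·)))
  intro h3
  apply h2
  apply Subtype.ext
  unfold exteriorPower.ιMulti_family
  rw [Equiv.symm_apply_apply]
  exact h3

/-- a function with given values on the eigenvectors -/
theorem interp {L V : Type} [Field L] [AddCommGroup V] [Module L V]
    [Module.Finite L V] (F : Module.End L V) (τ : L → L) :
    ∃ T : Module.End L V, ∀ (v : V) (μ : L), F v = μ • v → T v = τ μ • v := by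
  classical
  let s : Finset L := F.charpoly.roots.toFinset
  let R : L[X] := Lagrange.interpolate s id τ
  refine ⟨aeval F R, fun v μ hμ => ?_⟩
  by_cases hv : v = 0
  · rw [hv, map_zero, smul_zero]
  have h1 : μ ∈ s := by
    have h2 : Module.End.HasEigenvalue F μ :=
      Module.End.hasEigenvalue_of_hasEigenvector
        ⟨Module.End.mem_eigenspace_iff.2 hμ, hv⟩
    have h3 := (Module.End.hasEigenvalue_iff_isRoot_charpoly F μ).1 h2
    rw [Multiset.mem_toFinset, mem_roots (LinearMap.charpoly_monic F).ne_zero]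
    exact h3
  have h2 : R.eval μ = τ μ := by
    have := Lagrange.eval_interpolate_at_node (s := s) (v := id) τ (Function.injective_id.injOn) h1
    exact this
  rw [← h2]
  exact Module.End.aeval_apply_of_hasEigenvector ⟨Module.End.mem_eigenspace_iff.2 hμ, hv⟩

/-- the character of the eigenvalues -/
theorem tau {L : Type} [Field L] [CharZero L] (c m : L) (hc : c ≠ 0)
    (hm : ∀ M : ℕ, 1 ≤ M → (m * m) ^ M ≠ c ^ M) :
    ∃ τ : L → L, τ m = 2 ∧
      (∀ x, (∀ M : ℕ, 1 ≤ M → x ^ M ≠ m ^ M) → (∀ M : ℕ, 1 ≤ M → (x * m) ^ M ≠ c ^ M) →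
        τ x = 1) ∧
      ∀ x y : L, ∀ M : ℕ, 1 ≤ M → (x * y) ^ M = c ^ M → τ x * τ y = 1 := by
  classical
  let A : L → Prop := fun x => ∃ M : ℕ, 1 ≤ M ∧ x ^ M = m ^ M
  let B : L → Prop := fun x => ∃ M : ℕ, 1 ≤ M ∧ (x * m) ^ M = c ^ M
  have hAB : ∀ x, A x → B x → False := by
    rintro x ⟨M, hM, h1⟩ ⟨M', hM', h2⟩
    refine hm (M * M') (Nat.mul_pos hM hM') ?_
    calc (m * m) ^ (M * M') = (m ^ M) ^ M' * m ^ (M * M') := by rw [mul_pow, pow_mul]
      _ = (x * m) ^ (M' * M) := by rw [← h1, ← pow_mul, ← mul_pow, mul_comm M M']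
      _ = c ^ (M * M') := by rw [pow_mul, h2, ← pow_mul, mul_comm M M']
  have hA : ∀ x y : L, ∀ M : ℕ, 1 ≤ M → (x * y) ^ M = c ^ M → A x → B y := by
    rintro x y M hM h1 ⟨M', hM', h2⟩
    refine ⟨M * M', Nat.mul_pos hM hM', ?_⟩
    calc (y * m) ^ (M * M') = (m ^ M') ^ M * y ^ (M * M') := by
            rw [mul_pow, mul_comm, mul_comm M M', pow_mul m]
      _ = (x * y) ^ (M * M') := by rw [← h2, ← pow_mul, mul_comm M' M, ← mul_pow]
      _ = c ^ (M * M') := by rw [pow_mul, h1, ← pow_mul]
  have hB : ∀ x y : L, ∀ M : ℕ, 1 ≤ M → (x * y) ^ M = c ^ M → B x → A y := by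
    rintro x y M hM h1 ⟨M', hM', h2⟩
    refine ⟨M * M', Nat.mul_pos hM hM', ?_⟩
    have hx : x ≠ 0 := by
      rintro rfl
      rw [zero_mul, zero_pow (by omega)] at h1
      exact pow_ne_zero M hc h1.symm
    have h3 : x ^ (M * M') * y ^ (M * M') = x ^ (M * M') * m ^ (M * M') := by
      rw [← mul_pow, ← mul_pow, pow_mul, h1, mul_comm M M', pow_mul (x * m), h2, ← pow_mul,
        ← pow_mul, mul_comm M M']
    exact mul_left_cancel₀ (pow_ne_zero _ hx) h3
  refine ⟨fun x => if A x then 2 else if B x then 1 / 2 else 1, ?_, ?_, ?_⟩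
  · have : A m := ⟨1, le_rfl, rfl⟩
    simp [this]
  · intro x h1 h2
    have h3 : ¬ A x := fun ⟨M, hM, h⟩ => h1 M hM h
    have h4 : ¬ B x := fun ⟨M, hM, h⟩ => h2 M hM h
    simp [h3, h4]
  · intro x y M hM h1
    have h1' : (y * x) ^ M = c ^ M := by rw [mul_comm]; exact h1
    by_cases hAx : A x
    · have hBy := hA x y M hM h1 hAx
      have hAy : ¬ A y := fun h => hAB y h hBy
      simp only [if_pos hAx, if_neg hAy, if_pos hBy]
      norm_num
    · by_cases hBx : B x
      · have hAy := hB x y M hM h1 hBx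
        simp only [if_neg hAx, if_pos hBx, if_pos hAy]
        norm_num
      · have hAy : ¬ A y := fun h => hBx (hA y x M hM h1' h)
        have hBy : ¬ B y := fun h => hAx (hB y x M hM h1' h)
        simp [hAx, hBx, hAy, hBy]

end EXL_aux

theorem t_EXL : S_EXL := by
  classical
  intro L V _ _ _ _ _ _ F c hF hc n μ e k₀ N j v hv hFv he hN hj hrel hne hne'
  obtain ⟨τ, hτ0, hτ1, hτ2⟩ := EXL_aux.tau c (μ k₀) hc (fun M hM => hne' k₀ M hM)
  obtain ⟨T, hT⟩ := EXL_aux.interp F τ
  have hcard : Fintype.card (Σ k : Fin n, Fin (e k)) = 2 * j := by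
    rw [Fintype.card_sigma]
    simpa using hj
  let E : Fin (2 * j) ≃ (Σ k : Fin n, Fin (e k)) := (Fintype.equivFinOfCardEq hcard).symm
  let x : ExteriorAlgebra L V := ExteriorAlgebra.ιMulti L (2 * j) (v ∘ E)
  have hx0 : x ≠ 0 := EXL_aux.wedge_ne _ _ (hv.comp _ E.injective)
  -- the action of a linear map with given eigenvalues
  have hact : ∀ (G : Module.End L V) (ρ : Fin n → L), (∀ y, G (v y) = ρ y.1 • v y) →
      ExteriorAlgebra.map G x = (∏ k, ρ k ^ e k) • x := by
    intro G ρ hG
    have h1 : ExteriorAlgebra.map G x = ExteriorAlgebra.ιMulti L (2 * j) (G ∘ (v ∘ E)) :=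
      ExteriorAlgebra.map_apply_ιMulti G (v ∘ E)
    have h2 : G ∘ (v ∘ E) = fun i => ρ (E i).1 • (v ∘ E) i := by
      funext i
      exact hG (E i)
    have h3 : ∏ i, ρ (E i).1 = ∏ k, ρ k ^ e k := by
      rw [Equiv.prod_comp E (fun y : (Σ k : Fin n, Fin (e k)) => ρ y.1), Fintype.prod_sigma]
      exact Finset.prod_congr rfl fun k _ => by simp
    rw [h1, h2, AlternatingMap.map_smul_univ, h3]
  refine ⟨x, ?_, ?_, ?_⟩
  · exact ExteriorAlgebra.ιMulti_range L (2 * j) (Set.mem_range_self _)
  · rw [hact (F ^ N) (fun k => μ k ^ N) ?_]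
    · congr 1
      rw [pow_mul, ← hrel, ← Finset.prod_pow]
      exact Finset.prod_congr rfl fun k _ => by rw [← pow_mul, ← pow_mul, mul_comm]
    · intro y
      have h1 : ∀ M : ℕ, (F ^ M) (v y) = μ y.1 ^ M • v y := by
        intro M
        induction M with
        | zero => simp
        | succ M ih =>
          rw [pow_succ, Module.End.mul_apply, hFv, map_smul, ih, smul_smul, pow_succ, mul_comm]
      exact h1 N
  · intro hmem
    -- `map T` fixes the subalgebra
    have hfix : ∀ y ∈ Algebra.adjoin L (Deg2g F c), ExteriorAlgebra.map T y = y := by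
      have h1 : Algebra.adjoin L (Deg2g F c) ≤
          AlgHom.equalizer (ExteriorAlgebra.map T) (AlgHom.id L (ExteriorAlgebra L V)) := by
        refine Algebra.adjoin_le ?_
        rintro y ⟨hy, M, hM, hyM⟩
        have hE : ∀ w ∈ JGE F, ∃ m : L, F w = m • w := fun w hw => hw.2
        choose! lam hlam using hE
        have h2 : ∀ w ∈ JGE F, (F ^ M) w = lam w ^ M • w := by
          intro w hw
          have h3 : ∀ M : ℕ, (F ^ M) w = lam w ^ M • w := by
            intro M
            induction M with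
            | zero => simp
            | succ M ih =>
              rw [pow_succ, Module.End.mul_apply, hlam w hw, map_smul, ih, smul_smul, pow_succ,
                mul_comm]
          exact h3 M
        have h3 := t_JA L V (F ^ M) (JGE F) (fun w => lam w ^ M) h2 (JG_span F hF) 2 y (c ^ M) hy
          hyM
        have h4 : Submodule.span L {w | ∃ l : List V, l.length = 2 ∧ (∀ e ∈ l, e ∈ JGE F) ∧
            (l.map (fun w => lam w ^ M)).prod = c ^ M ∧
            w = (l.map (ExteriorAlgebra.ι L)).prod} ≤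
            Subalgebra.toSubmodule (AlgHom.equalizer (ExteriorAlgebra.map T)
              (AlgHom.id L (ExteriorAlgebra L V))) := by
          rw [Submodule.span_le]
          rintro w ⟨l, hl1, hl2, hl3, rfl⟩
          obtain ⟨a, b, rfl⟩ := List.length_eq_two.1 hl1
          have ha := hl2 a (by simp)
          have hb := hl2 b (by simp)
          have h5 : (lam a * lam b) ^ M = c ^ M := by
            rw [mul_pow, ← hl3]
            simp
          have h6 := hτ2 _ _ M hM h5
          change ExteriorAlgebra.map T _ = _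
          simp only [List.map_cons, List.map_nil, List.prod_cons, List.prod_nil, mul_one, map_mul,
            ExteriorAlgebra.map_apply_ι, AlgHom.coe_id, id_eq]
          rw [hT a _ (hlam a ha), hT b _ (hlam b hb), map_smul, map_smul, smul_mul_smul_comm, h6,
            one_smul]
        exact h4 h3
      intro y hy
      exact h1 hy
    have h1 := hfix x hmem
    rw [hact T (fun k => τ (μ k)) (fun y => hT _ _ (hFv y))] at h1
    have h2 : ∏ k, τ (μ k) ^ e k = 2 ^ e k₀ := by
      rw [Finset.prod_eq_single k₀]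
      · rw [hτ0]
      · intro k _ hk
        rw [hτ1 _ (fun M hM => hne k hk M hM) (fun M hM => hne' k M hM), one_pow]
      · intro h
        exact absurd (Finset.mem_univ _) h
    rw [h2] at h1
    have h3 : ((2 : L) ^ e k₀ - 1) • x = 0 := by
      rw [sub_smul, one_smul, h1, sub_self]
    rcases smul_eq_zero.1 h3 with h4 | h4
    · have h5 : ((2 ^ e k₀ : ℕ) : L) = ((1 : ℕ) : L) := by
        push_cast
        exact sub_eq_zero.1 h4
      have h6 : 2 ^ e k₀ = 1 := Nat.cast_injective h5
      have h7 : e k₀ < 2 ^ e k₀ := Nat.lt_two_pow_self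
      omega
    · exact hx0 h4

end

end Pool.Agent.TJ3
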