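import Pool.Agent.TJ3.St
import Pool.Agent.TJ2.STAB

/-!
# GAL: the Galois correspondence
-/

set_option autoImplicit false

open IntermediateField

namespace Pool.Agent.TJ3

open Pool.Agent.TJ2

namespace GAL_aux

lemma fix (A : Set Qb) (σ : Qb ≃ₐ[ℚ] Qb) :
    σ ∈ (adjoin ℚ A).fixingSubgroup ↔ ∀ a ∈ A, σ a = a := by
  constructor
  · intro h a ha
    exact (IntermediateField.mem_fixingSubgroup_iff _ _).1 h a (subset_adjoin ℚ A ha)
  · intro h
    rw [IntermediateField.mem_fixingSubgroup_iff]
    intro y hy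
    have h3 : adjoin ℚ A ≤ fixedField (Subgroup.zpowers σ) := by
      rw [adjoin_le_iff]
      intro z hz
      rw [SetLike.mem_coe, mem_fixedField_iff]
      intro f hf
      have : Subgroup.zpowers σ ≤ MulAction.stabilizer (Qb ≃ₐ[ℚ] Qb) z := by
        rw [Subgroup.zpowers_le, MulAction.mem_stabilizer_iff]
        exact h z hz
      exact this hf
    have h4 := h3 hy
    rw [mem_fixedField_iff] at h4
    exact h4 σ (Subgroup.mem_zpowers σ)

end GAL_aux

theorem t_GAL : S_GAL := by
  intro A B
  have := STAB_galois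
  constructor
  · intro h σ
    rw [← GAL_aux.fix A σ, ← GAL_aux.fix B σ, h]
  · intro h
    have h1 : (adjoin ℚ A).fixingSubgroup = (adjoin ℚ B).fixingSubgroup := by
      ext σ
      rw [GAL_aux.fix, GAL_aux.fix]
      exact h σ
    rw [← InfiniteGalois.fixedField_fixingSubgroup (adjoin ℚ A),
      ← InfiniteGalois.fixedField_fixingSubgroup (adjoin ℚ B), h1]

end Pool.Agent.TJ3
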