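import Pool.Agent.TJ3.St
import Pool.Agent.TJ2.ORB

/-!
# GRP2: minimal relations
-/

set_option autoImplicit false

namespace Pool.Agent.TJ3

open Pool.Agent.TJ2

namespace GRP2_aux

/-- transitivity -/
lemma trans {Γ Ω : Type} [Group Γ] [DecidableEq Ω] [MulAction Γ Ω] {bar : Ω → Ω}
    (h1 : ∀ x, bar (bar x) = x) (h2 : ∀ x, bar x ≠ x)
    (h4 : ∀ τ : Equiv.Perm Ω, (∀ x, τ (bar x) = bar (τ x)) → ∃ s : Γ, ∀ x, s • x = τ x)
    (a b : Ω) : ∃ s : Γ, s • a = b := by
  by_cases hab : a = bar b
  · obtain ⟨s, hs⟩ := h4 (ORB_flip_flip h1 ({a} : Finset Ω)).toPerm (by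
      intro x
      simp only [Function.Involutive.coe_toPerm]
      exact ORB_flip_comm h1 _ x)
    refine ⟨s, ?_⟩
    rw [hs, Function.Involutive.coe_toPerm]
    unfold ORB_flip
    rw [if_pos (Or.inl (Finset.mem_singleton_self a)), hab, h1]
  · obtain ⟨s, hs⟩ := h4 (ORB_swap bar a b) (ORB_swap_comm h1 h2 hab)
    exact ⟨s, by rw [hs, ORB_swap_left h1 h2 hab]⟩

/-- flipping one pair -/
lemma flip {Γ Ω : Type} [Group Γ] [DecidableEq Ω] [MulAction Γ Ω] {bar : Ω → Ω}
    (h1 : ∀ x, bar (bar x) = x)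
    (h4 : ∀ τ : Equiv.Perm Ω, (∀ x, τ (bar x) = bar (τ x)) → ∃ s : Γ, ∀ x, s • x = τ x)
    (a : Ω) : ∃ s : Γ, s • a = bar a ∧ ∀ b, b ≠ a → b ≠ bar a → s • b = b := by
  obtain ⟨s, hs⟩ := h4 (ORB_flip_flip h1 ({a} : Finset Ω)).toPerm (by
      intro x
      simp only [Function.Involutive.coe_toPerm]
      exact ORB_flip_comm h1 _ x)
  refine ⟨s, ?_, fun b hb hb' => ?_⟩
  · rw [hs, Function.Involutive.coe_toPerm]
    unfold ORB_flip
    rw [if_pos (Or.inl (Finset.mem_singleton_self a))]
  · rw [hs, Function.Involutive.coe_toPerm]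
    unfold ORB_flip
    rw [if_neg]
    rintro (h | h)
    · exact hb (Finset.mem_singleton.1 h)
    · apply hb'
      rw [← h1 b, Finset.mem_singleton.1 h]

/-- the order of stabilisers and orbits -/
lemma card_le {Γ Ω Ω' : Type} [Group Γ] [Fintype Ω] [Fintype Ω'] [MulAction Γ Ω]
    [MulAction Γ Ω'] (x : Ω) (y : Ω') (ht : ∀ z : Ω', ∃ s : Γ, s • y = z)
    (hs : ∀ s : Γ, s • x = x → s • y = y) : Fintype.card Ω' ≤ Fintype.card Ω := by
  choose s hs' using ht
  apply Fintype.card_le_of_injective (fun z => s z • x)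
  intro z z' h
  have h1 : (s z)⁻¹ • s z' • x = x := by
    rw [inv_smul_eq_iff]
    exact h.symm
  have h2 := hs ((s z)⁻¹ * s z') (by rw [mul_smul]; exact h1)
  rw [mul_smul, inv_smul_eq_iff, hs', hs'] at h2
  exact h2.symm

end GRP2_aux

open GRP2_aux in
theorem t_GRP2 : S_GRP2 := by
  intro Γ ι _ _ _ Ω _ _ _ bar R h1 h2 h3 h4 h5 h6
  classical
  let supp : (∀ i, Ω i → ℤ) → Finset ι := fun d => Finset.univ.filter (fun i => d i ≠ 0)
  have hmem : ∀ d i, i ∈ supp d ↔ d i ≠ 0 := fun d i => by simp [supp]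
  obtain ⟨d₀, ⟨hd₀R, hd₀odd, hd₀ne⟩, hmin⟩ : ∃ d₀ : ∀ i, Ω i → ℤ,
      (d₀ ∈ R ∧ (∀ i x, d₀ i (bar i x) = - d₀ i x) ∧ d₀ ≠ 0) ∧
      ∀ d : ∀ i, Ω i → ℤ, (d ∈ R ∧ (∀ i x, d i (bar i x) = - d i x) ∧ d ≠ 0) →
        (supp d₀).card ≤ (supp d).card := by
    have hex : ∃ n, ∃ d : ∀ i, Ω i → ℤ,
        (d ∈ R ∧ (∀ i x, d i (bar i x) = - d i x) ∧ d ≠ 0) ∧ (supp d).card = n := by
      obtain ⟨d, h, h', h''⟩ := h6
      exact ⟨_, d, ⟨h, h', h''⟩, rfl⟩
    obtain ⟨d, hd, hdn⟩ := Nat.find_spec hex
    exact ⟨d, hd, fun d' hd' => by rw [hdn]; exact Nat.find_min' hex ⟨d', hd', rfl⟩⟩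
  have hzero : ∀ d ∈ R, (∀ i x, d i (bar i x) = - d i x) → (∀ i, d₀ i = 0 → d i = 0) →
      ∀ i, d₀ i ≠ 0 → d i = 0 → d = 0 := by
    intro d hdR hodd hsub i hi hdi
    by_contra hne
    have h := hmin d ⟨hdR, hodd, hne⟩
    have hlt : (supp d).card < (supp d₀).card := by
      apply Finset.card_lt_card
      refine ⟨fun j hj => ?_, fun hc => ?_⟩
      · rw [hmem] at hj ⊢
        exact fun h => hj (hsub j h)
      · exact (hmem d i).1 (hc ((hmem d₀ i).2 hi)) hdi
    omega
  have h11 : ∀ i, d₀ i ≠ 0 → ∃ d ∈ R, (∀ i x, d i (bar i x) = - d i x) ∧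
      (∀ j, d₀ j = 0 → d j = 0) ∧
      ∃ (x : Ω i) (c : ℤ), c ≠ 0 ∧ d i = Pi.single x c - Pi.single (bar i x) c := by
    intro i hi
    obtain ⟨x, hx⟩ : ∃ x, d₀ i x ≠ 0 := by
      by_contra hc
      push Not at hc
      exact hi (funext hc)
    obtain ⟨s, hs⟩ := h4 i (Equiv.swap x (bar i x)) (by
      intro y
      by_cases hy : y = x
      · subst hy
        rw [Equiv.swap_apply_right, Equiv.swap_apply_left, h1]
      · by_cases hy' : y = bar i x
        · subst hy'
          rw [h1, Equiv.swap_apply_left, Equiv.swap_apply_right]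
        · rw [Equiv.swap_apply_of_ne_of_ne hy hy', Equiv.swap_apply_of_ne_of_ne]
          · intro h
            apply hy'
            rw [← h1 i y, h]
          · intro h
            apply hy
            rw [← h1 i y, h, h1])
    have hs' : ∀ y, s⁻¹ • y = Equiv.swap x (bar i x) y := by
      intro y
      rw [inv_smul_eq_iff, hs, Equiv.swap_apply_self]
    refine ⟨d₀ - (fun j y => d₀ j (s⁻¹ • y)), R.sub_mem hd₀R (h5 s d₀ hd₀R), ?_, ?_, x,
      2 * d₀ i x, by omega, ?_⟩
    · intro j y
      simp only [Pi.sub_apply]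
      rw [hd₀odd, ← h3, hd₀odd]
      ring
    · intro j hj
      funext y
      simp [hj]
    · funext y
      simp only [Pi.sub_apply]
      rw [hs']
      by_cases hy : y = x
      · subst hy
        rw [Equiv.swap_apply_left, hd₀odd, Pi.single_eq_same, Pi.single_eq_of_ne (h2 i _).symm]
        ring
      · by_cases hy' : y = bar i x
        · subst hy'
          rw [Equiv.swap_apply_right, hd₀odd, Pi.single_eq_same, Pi.single_eq_of_ne (h2 i _)]
          ring
        · rw [Equiv.swap_apply_of_ne_of_ne hy hy', Pi.single_eq_of_ne hy, Pi.single_eq_of_ne hy']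
          ring
  obtain ⟨i₁, hi₁⟩ : ∃ i, d₀ i ≠ 0 := by
    by_contra hc
    push Not at hc
    exact hd₀ne (funext hc)
  obtain ⟨i, hiI, hcardmin⟩ := Finset.exists_min_image (supp d₀)
    (fun i => Fintype.card (Ω i)) ⟨i₁, (hmem _ _).2 hi₁⟩
  have hi : d₀ i ≠ 0 := (hmem _ _).1 hiI
  obtain ⟨d, hdR, hodd, hsub, x, c, hc, hd⟩ := h11 i hi
  have hdx : d i x ≠ 0 := by
    rw [hd]
    simp only [Pi.sub_apply, Pi.single_eq_same, Pi.single_eq_of_ne (h2 i x).symm]
    omega
  have hdne : d ≠ 0 := by
    intro h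
    apply hdx
    rw [h]
    rfl
  have hw0 : ∀ j, d₀ j ≠ 0 → d j ≠ 0 := fun j hj h => hdne (hzero d hdR hodd hsub j hj h)
  -- the translates
  have htR : ∀ s : Γ, (fun k y => d k (s⁻¹ • y)) ∈ R := fun s => h5 s d hdR
  have htodd : ∀ (s : Γ) k y, d k (s⁻¹ • bar k y) = - d k (s⁻¹ • y) := by
    intro s k y
    rw [← h3, hodd]
  have hval : ∀ (s : Γ) y, d i (s⁻¹ • y) =
      (Pi.single (s • x) c - Pi.single (bar i (s • x)) c : Ω i → ℤ) y := by
    intro s y
    rw [hd]
    simp only [Pi.sub_apply, Pi.single_apply, inv_smul_eq_iff, h3]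
  have hstab : ∀ j, d₀ j ≠ 0 → ∀ s : Γ, s • x = x ↔ ∀ y, d j (s⁻¹ • y) = d j y := by
    intro j hj s
    constructor
    · intro hs
      have h := hzero ((fun k y => d k (s⁻¹ • y)) - d) (R.sub_mem (htR s) hdR) (by
        intro k y
        simp only [Pi.sub_apply]
        rw [htodd, hodd]
        ring) (by
        intro k hk
        funext y
        simp [hsub k hk]) i hi (by
        funext y
        simp only [Pi.sub_apply, Pi.zero_apply]
        rw [hval, hs, hd, sub_self])
      intro y
      have h' := congrFun (congrFun h j) y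
      simp only [Pi.sub_apply, Pi.zero_apply] at h'
      linarith
    · intro hs
      have h := hzero ((fun k y => d k (s⁻¹ • y)) - d) (R.sub_mem (htR s) hdR) (by
        intro k y
        simp only [Pi.sub_apply]
        rw [htodd, hodd]
        ring) (by
        intro k hk
        funext y
        simp [hsub k hk]) j hj (by
        funext y
        simp only [Pi.sub_apply, Pi.zero_apply]
        rw [hs, sub_self])
      have h' := congrFun (congrFun h i) x
      simp only [Pi.sub_apply, Pi.zero_apply] at h'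
      rw [hval, hd] at h'
      simp only [Pi.sub_apply, Pi.single_eq_same, Pi.single_eq_of_ne (h2 i x).symm] at h'
      by_contra hsx
      rw [Pi.single_eq_of_ne (Ne.symm hsx)] at h'
      by_cases hb : x = bar i (s • x)
      · rw [← hb, Pi.single_eq_same] at h'
        omega
      · rw [Pi.single_eq_of_ne hb] at h'
        omega
  have hstab' : ∀ j, d₀ j ≠ 0 → ∀ s : Γ, s • x = x ↔ ∀ y, d j (s • y) = d j y := by
    intro j hj s
    rw [hstab j hj]
    constructor
    · intro h y
      have h' := h (s • y)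
      rw [inv_smul_smul] at h'
      exact h'.symm
    · intro h y
      have h' := h (s⁻¹ • y)
      rw [smul_inv_smul] at h'
      exact h'.symm
  have htr : ∀ j (a b : Ω j), ∃ s : Γ, s • a = b := fun j => trans (h1 j) (h2 j) (h4 j)
  -- the orbit of the component
  have horb : ∀ j, d₀ j ≠ 0 → (Set.range (fun s : Γ => fun y => d j (s⁻¹ • y))).ncard ≤
      Fintype.card (Ω i) := by
    intro j hj
    let G : Ω i → (Ω j → ℤ) := fun z =>
      if h : ∃ s : Γ, s • x = z then (fun y => d j ((Classical.choose h)⁻¹ • y)) else 0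
    have hsubG : Set.range (fun s : Γ => fun y => d j (s⁻¹ • y)) ⊆ G '' Set.univ := by
      rintro _ ⟨s, rfl⟩
      refine ⟨s • x, Set.mem_univ _, ?_⟩
      have hex : ∃ s' : Γ, s' • x = s • x := ⟨s, rfl⟩
      simp only [G, dif_pos hex]
      have hs' := Classical.choose_spec hex
      set s' := Classical.choose hex with hs'def
      have h := (hstab j hj (s'⁻¹ * s)).1 (by rw [mul_smul, ← hs', inv_smul_smul])
      funext y
      have h' := h (s'⁻¹ • y)
      rw [mul_inv_rev, inv_inv, mul_smul, smul_inv_smul] at h'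
      exact h'.symm
    calc (Set.range (fun s : Γ => fun y => d j (s⁻¹ • y))).ncard
        ≤ (G '' Set.univ).ncard := Set.ncard_le_ncard hsubG (Set.toFinite _)
      _ ≤ (Set.univ : Set (Ω i)).ncard := Set.ncard_image_le (Set.toFinite _)
      _ = Fintype.card (Ω i) := by rw [Set.ncard_univ, Nat.card_eq_fintype_card]
  -- the two cases
  have hcase : ∀ j, d₀ j ≠ 0 →
      (∃ y, d j y ≠ 0 ∧ (∀ z, z ≠ y → z ≠ bar j y → d j z = 0) ∧
          ∀ s : Γ, s • x = x ↔ s • y = y) ∨
        (Fintype.card (Ω j) = 4 ∧ (∀ y z, |d j y| = |d j z|) ∧ Fintype.card (Ω i) = 4) := by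
    intro j hj
    have hcard : Fintype.card (Ω i) ≤ Fintype.card (Ω j) := hcardmin j ((hmem _ _).2 hj)
    rcases t_ORB Γ (Ω j) (bar j) (d j) (h1 j) (h2 j) (fun s y => h3 j s y) (h4 j)
      (fun y => hodd j y) (hw0 j hj) ((horb j hj).trans hcard) with ⟨y, hy, hy'⟩ | ⟨hc4, habs, hr4⟩
    · left
      refine ⟨y, hy, hy', fun s => ?_⟩
      rw [hstab j hj]
      constructor
      · intro h
        have h' := h (s • y)
        rw [inv_smul_smul] at h'
        by_contra hsy
        by_cases hb : s • y = bar j y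
        · rw [hb, hodd] at h'
          omega
        · rw [hy' _ hsy hb] at h'
          exact hy h'
      · intro hs z
        have hs' : s⁻¹ • y = y := by rw [inv_smul_eq_iff, hs]
        by_cases hz : z = y
        · subst hz
          rw [hs']
        · by_cases hz' : z = bar j y
          · subst hz'
            rw [← h3, hs']
          · rw [hy' z hz hz', hy' (s⁻¹ • z)]
            · intro h
              apply hz
              rw [inv_smul_eq_iff, hs] at h
              exact h
            · intro h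
              apply hz'
              rw [inv_smul_eq_iff, ← h3, hs] at h
              exact h
    · right
      refine ⟨hc4, habs, ?_⟩
      have := horb j hj
      omega
  refine ⟨supp d₀, i, x, d, hiI, hdR, hodd, fun j => ?_, hdx, fun z hz hz' => ?_,
    fun j hj => ?_, fun j hj => hstab' j ((hmem _ _).1 hj), fun j hj s => ?_, fun j hj => ?_⟩
  · rw [hmem]
    exact ⟨hw0 j, fun h h' => h (hsub j h')⟩
  · rw [hd]
    simp only [Pi.sub_apply, Pi.single_eq_of_ne hz, Pi.single_eq_of_ne hz', sub_self]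
  · -- cardinality
    have hj0 := (hmem _ _).1 hj
    rcases hcase j hj0 with ⟨y, hy, hy', hs⟩ | ⟨hc4, _, hi4⟩
    · refine le_antisymm ?_ (hcardmin j hj)
      exact card_le x y (htr j y) (fun s h => (hs s).1 h)
    · rw [hc4, hi4]
  · -- kernels
    have hj0 := (hmem _ _).1 hj
    constructor
    · intro hs z
      obtain ⟨t, rfl⟩ := htr i x z
      have h := (hstab' j hj0 (t⁻¹ * s * t)).2 (fun y => by
        rw [mul_smul, mul_smul, hs (t • y), inv_smul_smul])
      rw [mul_smul, mul_smul, inv_smul_eq_iff] at h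
      exact h
    · intro hs z
      have hfix : ∀ (t : Γ), (t⁻¹ * s * t) • x = x := by
        intro t
        rw [mul_smul, mul_smul, hs (t • x), inv_smul_smul]
      rcases hcase j hj0 with ⟨y, hy, hy', hsy⟩ | ⟨hc4, habs, _⟩
      · obtain ⟨t, rfl⟩ := htr j y z
        have h := (hsy _).1 (hfix t)
        rw [mul_smul, mul_smul, inv_smul_eq_iff] at h
        exact h
      · have hne0 : ∀ u, d j u ≠ 0 := by
          intro u hu
          apply hw0 j hj0
          funext v
          have := habs v u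
          rw [hu, abs_zero, abs_eq_zero] at this
          exact this
        have hinv : ∀ (t : Γ) u, d j (t⁻¹ • s • u) = d j (t⁻¹ • u) := by
          intro t u
          have h := (hstab' j hj0 _).1 (hfix t) (t⁻¹ • u)
          rw [mul_smul, mul_smul, smul_inv_smul] at h
          exact h
        by_contra hz
        have hone : d j (s • z) = d j z := by
          have := hinv 1 z
          rwa [inv_one, one_smul, one_smul] at this
        by_cases hb : s • z = bar j z
        · rw [hb, hodd] at hone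
          exact hne0 z (by omega)
        · obtain ⟨t, ht, ht'⟩ := flip (Γ := Γ) (h1 j) (h4 j) (s • z)
          have e1 : t⁻¹ • s • z = bar j (s • z) := by
            rw [inv_smul_eq_iff, ← h3, ht, h1]
          have e2 : t⁻¹ • z = z := by
            rw [inv_smul_eq_iff, ht' z (fun h => hz h.symm) (fun h => hb (by
              have h' := congrArg (bar j) h
              rw [h1] at h'
              exact h'.symm))]
          have := hinv t z
          rw [e1, e2, hodd, hone] at this
          exact hne0 z (by omega)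
  · rcases hcase j ((hmem _ _).1 hj) with h | ⟨hc4, habs, _⟩
    · exact Or.inl h
    · exact Or.inr ⟨hc4, habs⟩

end Pool.Agent.TJ3
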