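import Pool.Agent.TJ3.St
import Pool.Agent.TJ2.OMB
import Pool.Agent.TJ2.FULC

/-!
# Project TJ3, module IND4: no relations between the sign vectors (MP_3af9db_ag)
-/

open Polynomial IntermediateField

namespace Pool.Agent.TJ3

open Pool.Agent.TJ2

noncomputable section

lemma IND4_om {q : ℕ} (hq : 1 ≤ q) {h : ℤ[X]} (hh : h ∈ FO q) {a : Qb} (ha : a ∈ Om q h) :
    (q : Qb) / a ∈ Om q h ∧ a ≠ (q : Qb) / a := by
  obtain ⟨-, h1, -, -, h2⟩ := t_OMB h.natDegree q h hq hh.2.1.1.1 rfl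
  exact ⟨(h1 a ha).1, (h2 hh.2.2.1).1 a ha⟩

/-- the sum of a function supported on one pair -/
lemma IND4_single (hSGB : S_SGB) {q : ℕ} {P : Ideal Zb} (hq : IsPrimePow q) (hP : P.IsPrime)
    (hp : ((q.minFac : ℕ) : Zb) ∈ P) {h : ℤ[X]} (hh : h ∈ FO q) (A : Finset Qb)
    (hA : (A : Set Qb) = Om q h) (w : Qb → ℤ) (y : Qb) (hy : y ∈ A)
    (hw : ∀ x ∈ A, w ((q : Qb) / x) = - w x)
    (h0 : ∀ x ∈ A, x ≠ y → x ≠ (q : Qb) / y → w x = 0) (σ : Qb ≃ₐ[ℚ] Qb) :
    ∑ a ∈ A, (w a : ℚ) * sgn P a σ = (2 * (w y : ℚ)) * sgn P y σ := by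
  classical
  have hyO : y ∈ Om q h := by
    rw [← hA]
    exact hy
  obtain ⟨h1, h2⟩ := IND4_om hq.pos hh hyO
  have h1' : (q : Qb) / y ∈ A := by
    rw [← hA] at h1
    exact h1
  have h3 : ∑ a ∈ ({y, (q : Qb) / y} : Finset Qb), (w a : ℚ) * sgn P a σ =
      ∑ a ∈ A, (w a : ℚ) * sgn P a σ := by
    refine Finset.sum_subset ?_ ?_
    · intro x hx
      rw [Finset.mem_insert, Finset.mem_singleton] at hx
      rcases hx with hx | hx <;> rw [hx] <;> assumption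
    · intro x hx hx'
      rw [Finset.mem_insert, Finset.mem_singleton, not_or] at hx'
      rw [h0 x hx hx'.1 hx'.2]
      simp
  rw [← h3, Finset.sum_pair h2, hw y hy, ((hSGB q P h y hq hP hp hh hyO).1 σ).2]
  push_cast
  ring

theorem t_IND4 (hREL : S_REL) (hSGB : S_SGB) : S_IND4 := by
  classical
  intro q P S hq hP hp hS hC n h A m hhS hiso hA hsum
  by_contra hcon
  push Not at hcon
  obtain ⟨i', a', ha', hne'⟩ := hcon
  have hFO : ∀ i, h i ∈ FO q := fun i => hS (hhS i)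
  have hq1 : 1 ≤ q := hq.pos
  obtain ⟨J, i₀, x₀, w, hi₀, hx₀, hw0, hw1, hodd, hout, hrel, hdeg, halt⟩ :=
    hREL q P hq hP hp n h A m hFO hA hsum ⟨i', a', ha', hne'⟩
  have hS1 : ∀ i, ∀ y ∈ A i, ∀ σ, sgn P y σ = 1 ∨ sgn P y σ = -1 := by
    intro i y hy σ
    have : y ∈ Om q (h i) := by
      rw [← hA i]
      exact hy
    exact ((hSGB q P (h i) y hq hP hp (hFO i) this).1 σ).1
  by_cases hall : ∀ i ∈ J, ∃ y ∈ A i, w i y ≠ 0 ∧
      (∀ x ∈ A i, x ≠ y → x ≠ (q : Qb) / y → w i x = 0) ∧ ℚ⟮y⟯ = ℚ⟮x₀⟯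
  · -- case A
    choose! y hyA hy0 hy1 hy2 using hall
    let e : Fin J.card ≃ J := J.equivFin.symm
    have hli := hC.signs J.card (fun k => h (e k)) (fun k => y (e k)) (by
        intro k
        refine ⟨hhS _, ?_⟩
        have h1 := hyA (e k) (e k).2
        rw [← Finset.mem_coe, hA] at h1
        exact h1) (by
        intro k k'
        rw [hy2 (e k) (e k).2, hy2 (e k') (e k').2]) (by
        intro k k' hkk
        refine hiso _ _ fun he => hkk ?_
        exact e.injective (Subtype.ext he))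
    rw [Fintype.linearIndependent_iff] at hli
    have h1 := hli (fun k => 2 * (w (e k) (y (e k)) : ℚ)) (by
      funext σ
      rw [Finset.sum_apply]
      have h2 := hrel σ
      rw [← Finset.sum_coe_sort, ← Equiv.sum_comp e] at h2
      rw [Pi.zero_apply, ← h2]
      refine Finset.sum_congr rfl fun k _ => ?_
      rw [Pi.smul_apply, smul_eq_mul]
      exact (IND4_single hSGB hq hP hp (hFO (e k)) (A (e k)) (hA (e k)) (w (e k)) (y (e k))
        (hyA _ (e k).2) (hodd (e k)) (hy1 _ (e k).2) σ).symm) (e.symm ⟨i₀, hi₀⟩)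
    simp only [Equiv.apply_symm_apply] at h1
    have h2 : (w i₀ (y i₀) : ℚ) = 0 := by linarith
    exact hy0 i₀ hi₀ (by exact_mod_cast h2)
  · -- case B
    push Not at hall
    obtain ⟨i₁, hi₁, hno⟩ := hall
    have hne : i₁ ≠ i₀ := by
      rintro rfl
      exact hno x₀ hx₀ hw0 hw1 rfl
    obtain ⟨hd2, c, hc0, hc⟩ := (halt i₁ hi₁).resolve_left fun ⟨y, hy, h1, h2, h3⟩ =>
      hno y hy h1 h2 h3
    have hdd : ∀ i ∈ J, (h i).natDegree = 2 := by
      intro i hi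
      rw [(hdeg i hi).1, ← (hdeg i₁ hi₁).1, hd2]
    have hJ : J = {i₀, i₁} := by
      apply Finset.Subset.antisymm
      · intro i₂ hi₂
        by_contra hi
        rw [Finset.mem_insert, Finset.mem_singleton, not_or] at hi
        refine hC.surfaces (h i₀) (hhS i₀) (h i₁) (hhS i₁) (h i₂) (hhS i₂) (hdd i₀ hi₀)
          (hdd i₁ hi₁) (hdd i₂ hi₂) (hiso _ _ hne.symm) (hiso _ _ (Ne.symm hi.1))
          (hiso _ _ (Ne.symm hi.2)) ⟨((hdeg i₁ hi₁).2).symm, ((hdeg i₂ hi₂).2).symm⟩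
      · intro i hi
        rw [Finset.mem_insert, Finset.mem_singleton] at hi
        rcases hi with rfl | rfl <;> assumption
    have hrel2 : ∀ σ : Qb ≃ₐ[ℚ] Qb, (2 * (w i₀ x₀ : ℚ)) * sgn P x₀ σ +
        ∑ a ∈ A i₁, (w i₁ a : ℚ) * sgn P a σ = 0 := by
      intro σ
      have h1 := hrel σ
      rw [hJ, Finset.sum_pair hne.symm, IND4_single hSGB hq hP hp (hFO i₀) (A i₀) (hA i₀) (w i₀) x₀
        hx₀ (hodd i₀) hw1 σ] at h1
      exact h1
    -- the four elements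
    have hcard : (A i₁).card = 4 := by
      have h1 := (hFO i₁).2.2.1
      rw [← hA i₁, Set.ncard_coe_finset, hd2] at h1
      exact h1
    obtain ⟨y, hy⟩ : ∃ y, y ∈ A i₁ := by
      have : 0 < (A i₁).card := by omega
      exact Finset.card_pos.1 this
    have hO : ∀ {x}, x ∈ A i₁ ↔ x ∈ Om q (h i₁) := by
      intro x
      rw [← hA i₁, Finset.mem_coe]
    obtain ⟨hyb, hyn⟩ := IND4_om hq1 (hFO i₁) (hO.1 hy)
    have hcard2 : ((A i₁) \ {y, (q : Qb) / y}).card = 2 := by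
      rw [Finset.card_sdiff_of_subset, Finset.card_pair hyn, hcard]
      intro x hx
      rw [Finset.mem_insert, Finset.mem_singleton] at hx
      rcases hx with hx | hx <;> rw [hx]
      · exact hy
      · exact hO.2 hyb
    obtain ⟨z, hz⟩ : ∃ z, z ∈ (A i₁) \ {y, (q : Qb) / y} := by
      have : 0 < ((A i₁) \ {y, (q : Qb) / y}).card := by omega
      exact Finset.card_pos.1 this
    rw [Finset.mem_sdiff, Finset.mem_insert, Finset.mem_singleton, not_or] at hz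
    obtain ⟨hzA, hzy, hzy'⟩ := hz
    obtain ⟨hzb, hzn⟩ := IND4_om hq1 (hFO i₁) (hO.1 hzA)
    have hy00 : y ≠ 0 := (hO.1 hy).1
    have hz00 : z ≠ 0 := (hO.1 hzA).1
    have hq0 : (q : Qb) ≠ 0 := by
      have : q ≠ 0 := by omega
      exact_mod_cast this
    have hzb1 : (q : Qb) / z ≠ y := by
      intro e
      apply hzy'
      rw [← e]
      field_simp
    have hzb2 : (q : Qb) / z ≠ (q : Qb) / y := by
      intro e
      apply hzy
      field_simp at e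
      exact e.symm
    have hset : (A i₁) \ {y, (q : Qb) / y} = {z, (q : Qb) / z} := by
      symm
      apply Finset.eq_of_subset_of_card_le
      · intro x hx
        rw [Finset.mem_insert, Finset.mem_singleton] at hx
        rw [Finset.mem_sdiff, Finset.mem_insert, Finset.mem_singleton, not_or]
        rcases hx with hx | hx <;> rw [hx]
        · exact ⟨hzA, hzy, hzy'⟩
        · exact ⟨hO.2 hzb, hzb1, hzb2⟩
      · rw [hcard2, Finset.card_pair hzn]
    have hsumA : ∀ σ : Qb ≃ₐ[ℚ] Qb, ∑ a ∈ A i₁, (w i₁ a : ℚ) * sgn P a σ =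
        2 * ((w i₁ y : ℚ) * sgn P y σ + (w i₁ z : ℚ) * sgn P z σ) := by
      intro σ
      have hsub : ({y, (q : Qb) / y} : Finset Qb) ⊆ A i₁ := by
        intro x hx
        rw [Finset.mem_insert, Finset.mem_singleton] at hx
        rcases hx with hx | hx <;> rw [hx]
        · exact hy
        · exact hO.2 hyb
      rw [← Finset.sum_sdiff hsub, hset, Finset.sum_pair hzn, Finset.sum_pair hyn,
        hodd i₁ y hy, hodd i₁ z hzA, ((hSGB q P (h i₁) y hq hP hp (hFO i₁) (hO.1 hy)).1 σ).2,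
        ((hSGB q P (h i₁) z hq hP hp (hFO i₁) (hO.1 hzA)).1 σ).2]
      push_cast
      ring
    obtain ⟨τ, hτ1, hτ2⟩ := (t_FULC q (h i₁) hq1 (hFO i₁).2.1.1.1 (hFO i₁).2.2).2.1 z (hO.1 hzA)
    have hτy : τ y = y := hτ2 y (hO.1 hy) (fun e => hzy e.symm) (by
      intro e
      exact hzb1 e.symm)
    have e1 := hrel2 1
    have e2 := hrel2 τ
    rw [hsumA] at e1 e2
    have hsy : sgn P y τ = sgn P y 1 := by
      have h1 := sgn_apply P y τ 1
      rw [hτy, one_mul] at h1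
      exact h1.symm
    have hsz : sgn P z τ = - sgn P z 1 := by
      have h1 := sgn_apply P z τ 1
      rw [hτ1, one_mul, ((hSGB q P (h i₁) z hq hP hp (hFO i₁) (hO.1 hzA)).1 1).2] at h1
      exact h1.symm
    rw [hsy, hsz] at e2
    have hwy : (w i₁ y : ℚ) ^ 2 = (c : ℚ) ^ 2 := by
      rcases hc y hy with h1 | h1 <;> rw [h1] <;> push_cast <;> ring
    have hwz : (w i₁ z : ℚ) ^ 2 = (c : ℚ) ^ 2 := by
      rcases hc z hzA with h1 | h1 <;> rw [h1] <;> push_cast <;> ring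
    have hsq : ∀ {s : ℚ}, (s = 1 ∨ s = -1) → s ^ 2 = 1 := by
      rintro s (rfl | rfl) <;> norm_num
    have f1 := hsq (hS1 i₁ y hy 1)
    have f2 := hsq (hS1 i₁ z hzA 1)
    have f3 := hsq (hS1 i₀ x₀ hx₀ 1)
    have f4 := hsq (hS1 i₀ x₀ hx₀ τ)
    have g1 : (w i₀ x₀ : ℚ) * sgn P x₀ 1 =
        -((w i₁ y : ℚ) * sgn P y 1 + (w i₁ z : ℚ) * sgn P z 1) := by linarith
    have g2 : (w i₀ x₀ : ℚ) * sgn P x₀ τ =
        -((w i₁ y : ℚ) * sgn P y 1 - (w i₁ z : ℚ) * sgn P z 1) := by linarith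
    have g3 : ((w i₀ x₀ : ℚ) * sgn P x₀ 1) * ((w i₀ x₀ : ℚ) * sgn P x₀ τ) = 0 := by
      rw [g1, g2]
      linear_combination (w i₁ y : ℚ) ^ 2 * f1 - (w i₁ z : ℚ) ^ 2 * f2 + hwy - hwz
    have g4 : (w i₀ x₀ : ℚ) ^ 4 = 0 := by
      have h5 : (((w i₀ x₀ : ℚ) * sgn P x₀ 1) * ((w i₀ x₀ : ℚ) * sgn P x₀ τ)) ^ 2 =
          (w i₀ x₀ : ℚ) ^ 4 * (sgn P x₀ 1 ^ 2 * sgn P x₀ τ ^ 2) := by ring
      rw [f3, f4, g3] at h5
      linarith
    have g5 : (w i₀ x₀ : ℚ) = 0 := pow_eq_zero_iff (by norm_num) |>.1 g4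
    exact hw0 (by exact_mod_cast g5)

end

end Pool.Agent.TJ3
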