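import Pool.Agent.TJ3.St
import Pool.Agent.TJ2.JF

/-!
# Module TJ3_JF3: descent and ascent for the exterior algebra (MP_3af9db_ag, by helper30)
-/

set_option autoImplicit false

open scoped TensorProduct

namespace Pool.Agent.TJ3

open Pool.Agent.TJ2

namespace JF3_aux

variable {K L V : Type} [Field K] [Field L] [Algebra K L] [AddCommGroup V] [Module K V]

/-- powers commute with the extension of scalars -/
theorem pow_bc (F : Module.End K V) (M : ℕ) :
    ((F.baseChange L : Module.End L (L ⊗[K] V)) ^ M) =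
      ((F ^ M : Module.End K V).baseChange L : Module.End L (L ⊗[K] V)) := by
  induction M with
  | zero =>
    rw [pow_zero, pow_zero]
    exact LinearMap.baseChange_id.symm
  | succ M ih =>
    rw [pow_succ, pow_succ, ih]
    exact (LinearMap.baseChange_comp _ _).symm

theorem deg2 [CharZero K] (F : Module.End K V) (c : K) {y : ExteriorAlgebra L (L ⊗[K] V)}
    (hy : y ∈ Deg2g (F.baseChange L : Module.End L (L ⊗[K] V)) (algebraMap K L c)) :
    JF_theta K L V y ∈ Subalgebra.baseChange L (Algebra.adjoin K (Deg2g F c)) := by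
  obtain ⟨h1, M, hM, h2⟩ := hy
  let N : ExteriorAlgebra K V →ₗ[K] ExteriorAlgebra K V :=
    (ExteriorAlgebra.map (F ^ M)).toLinearMap - (c ^ M) • LinearMap.id
  let W : Submodule K (ExteriorAlgebra K V) := ⋀[K]^2 V ⊓ LinearMap.ker N
  have hW : ∀ w ∈ W, w ∈ Deg2g F c := by
    rintro w ⟨h3, h4⟩
    refine ⟨h3, M, hM, ?_⟩
    have h5 : N w = 0 := h4
    exact sub_eq_zero.1 h5
  have h3 : JF_theta K L V (ExteriorAlgebra.map ((F ^ M : Module.End K V).baseChange L) y) =
      (ExteriorAlgebra.map (F ^ M)).toLinearMap.baseChange L (JF_theta K L V y) :=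
    JF_theta_map _ _
  rw [pow_bc] at h2
  rw [h2, map_smul] at h3
  let b := Module.Basis.ofVectorSpace K L
  have h4 : JF_theta K L V y ∈ W.baseChange L := by
    refine JF_co_mem b W fun i => ⟨?_, ?_⟩
    · exact JF_mem_co b _ (JF_theta_two h1) i
    · have h5 := congrArg (JF_co b i) h3
      rw [JF_co_map] at h5
      have h6 : (algebraMap K L c) ^ M • JF_theta K L V y = (c ^ M) • JF_theta K L V y := by
        rw [← map_pow, algebraMap_smul]
      rw [h6, map_smul] at h5
      exact sub_eq_zero.2 h5.symm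
  obtain ⟨s, hs⟩ := h4
  rw [← hs]
  clear hs h3
  induction s using TensorProduct.induction_on with
  | zero => rw [map_zero]; exact Subalgebra.zero_mem _
  | add x y hx hy => rw [map_add]; exact Subalgebra.add_mem _ hx hy
  | tmul l w =>
    rw [LinearMap.baseChange_tmul]
    exact Subalgebra.tmul_mem_baseChange (Algebra.subset_adjoin (hW w w.2)) l

theorem phi_mem (F : Module.End K V) (c : K) {x : ExteriorAlgebra K V} (hx : x ∈ Deg2g F c) :
    JF_phi K L V x ∈ Deg2g (F.baseChange L : Module.End L (L ⊗[K] V)) (algebraMap K L c) := by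
  obtain ⟨h1, M, hM, h2⟩ := hx
  refine ⟨JF_phi_mem h1, M, hM, ?_⟩
  rw [pow_bc, JF_phi_map, h2, map_smul, ← map_pow, algebraMap_smul]

end JF3_aux

theorem t_JF3 : S_JF3 := by
  intro K L V _ _ _ _ _ _ _ F c x
  constructor
  · intro h1
    have h2 : JF_theta K L V (JF_phi K L V x) ∈
        Subalgebra.baseChange L (Algebra.adjoin K (Deg2g F c)) := by
      have h3 : Algebra.adjoin L (Deg2g (F.baseChange L : Module.End L (L ⊗[K] V))
          (algebraMap K L c)) ≤
          (Subalgebra.baseChange L (Algebra.adjoin K (Deg2g F c))).comap (JF_theta K L V) :=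
        Algebra.adjoin_le fun y hy => JF3_aux.deg2 F c hy
      exact h3 h1
    rw [JF_comp] at h2
    exact JF_descent _ h2
  · intro h1
    have h3 : Algebra.adjoin K (Deg2g F c) ≤
        ((Algebra.adjoin L (Deg2g (F.baseChange L : Module.End L (L ⊗[K] V))
          (algebraMap K L c))).restrictScalars K).comap (JF_phi K L V) :=
      Algebra.adjoin_le fun y hy => Algebra.subset_adjoin (JF3_aux.phi_mem F c hy)
    exact h3 h1

end Pool.Agent.TJ3
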