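import Pool.Agent.TJ3.St
import Pool.Agent.TJ2.JG
import Pool.Agent.TJ2.JA

/-!
# JG3: the positive part over an algebraically closed field
-/

set_option autoImplicit false

open Polynomial IntermediateField

namespace Pool.Agent.TJ3

open Pool.Agent.TJ2

namespace JG3_aux

/-- powers of an endomorphism at an eigenvector -/
lemma pow_eig {K : Type} [Field K] {V : Type} [AddCommGroup V] [Module K V]
    (F : Module.End K V) {v : V} {μ : K} (h : F v = μ • v) (M : ℕ) :
    (F ^ M) v = μ ^ M • v := by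
  induction M with
  | zero => simp
  | succ M ih => rw [pow_succ', Module.End.mul_apply, ih, map_smul, h, smul_smul, pow_succ]

end JG3_aux

theorem t_JG3 (hPART : S_PART) (hJB3 : S_JB3) : S_JG3 := by
  classical
  intro q P S hq hP hp hS hC K _ _ _ V _ _ _ F hss hadm j N x hN hx hFx
  have hq1 : 1 ≤ q := hq.one_lt.le
  have hq0 : (q : K) ≠ 0 := by exact_mod_cast (by omega : q ≠ 0)
  have hE : ∀ e ∈ JGE F, ∃ μ : K, F e = μ • e ∧ Adm q S μ := by
    rintro v ⟨hv, μ, hμ⟩
    refine ⟨μ, hμ, hadm μ ?_⟩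
    have h2 : Module.End.HasEigenvalue F μ :=
      Module.End.hasEigenvalue_of_hasEigenvector
        ⟨Module.End.mem_eigenspace_iff.2 hμ, hv⟩
    exact (Module.End.hasEigenvalue_iff_isRoot_charpoly F μ).1 h2
  choose! lam hlam hlamA using hE
  have hmem := t_JA K V (F ^ N) (JGE F) (fun e => lam e ^ N)
    (fun e he => JG3_aux.pow_eig F (hlam e he) N) (JG_span F hss) (2 * j) x ((q : K) ^ (j * N))
    hx hFx
  have hprod : ∀ l : List V, (l.map (fun e => lam e ^ N)).prod = (l.map lam).prod ^ N := by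
    intro l
    induction l with
    | nil => simp
    | cons a l ih => rw [List.map_cons, List.prod_cons, ih, List.map_cons, List.prod_cons, mul_pow]
  have hmatch : ∀ (e : V) (l : List V) (j N : ℕ), e ∈ JGE F → (∀ e' ∈ l, e' ∈ JGE F) → 1 ≤ N →
      (lam e * (l.map lam).prod) ^ N = ((q : K) ^ j) ^ N → l.length + 1 = 2 * j →
      ∃ e' ∈ l, ∃ M : ℕ, 1 ≤ M ∧ (lam e * lam e') ^ M = (q : K) ^ M := by
    intro e l j N he hl hN hp' hlen
    obtain ⟨y, hy, M, hM, hyM⟩ := hPART q P S hq hP hp hS hC K (lam e) (l.map lam) (hlamA e he)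
      (fun y hy => by
        obtain ⟨e', he', rfl⟩ := List.mem_map.1 hy
        exact hlamA e' (hl e' he')) j N hN (by rw [List.length_map]; exact hlen) hp'
    obtain ⟨e', he', rfl⟩ := List.mem_map.1 hy
    exact ⟨e', he', M, hM, hyM⟩
  have hle : Submodule.span K {w | ∃ l : List V, l.length = 2 * j ∧
      (∀ e ∈ l, e ∈ JGE F) ∧ (l.map (fun e => lam e ^ N)).prod = (q : K) ^ (j * N) ∧
      w = (l.map (ExteriorAlgebra.ι K)).prod} ≤
      Subalgebra.toSubmodule (Algebra.adjoin K (Deg2g F (q : K))) := by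
    rw [Submodule.span_le]
    rintro w ⟨l, hl1, hl2, hl3, rfl⟩
    refine hJB3 K V F (JGE F) lam (q : K) hq0 hlam hmatch l j N hN hl2 hl1 ?_
    rw [← hprod, hl3, pow_mul]
  exact hle hmem

end Pool.Agent.TJ3
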