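import Pool.Agent.TJ3.St
import Pool.Agent.TJ2.JD
import Pool.Agent.TJ2.OMB
import Pool.Agent.TJ2.WEI

/-!
# PART: partners of admissible eigenvalues
-/

set_option autoImplicit false

open Polynomial IntermediateField

namespace Pool.Agent.TJ3

open Pool.Agent.TJ2

namespace PART_aux

/-- admissible numbers come from `Qb` -/
lemma adm_cases {q : ℕ} (hq : IsPrimePow q) {S : Set ℤ[X]} (hS : S ⊆ FO q) {K : Type} [Field K]
    (ι : Qb →+* K) {z : K} (hz : Adm q S z) :
    (∃ N : ℕ, 1 ≤ N ∧ z ^ (2 * N) = (q : K) ^ N) ∨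
    (∃ h ∈ S, ∃ a ∈ Om q h, ∃ N : ℕ, 1 ≤ N ∧ z ^ N = (ι a) ^ N) := by
  obtain ⟨N, hN, h1 | ⟨h, hh, r, hr, hzr⟩⟩ := hz
  · exact Or.inl ⟨N, hN, h1⟩
  · right
    have hmon : h.Monic := (hS hh).2.1.1.1
    obtain ⟨w1, _, w3, _⟩ := t_WEI t_OMB q h hq.one_lt.le hmon
    have hroot : ((weil q h).map (Int.castRingHom K)).IsRoot r := by
      rw [Polynomial.IsRoot.def, Polynomial.eval_map, ← hr, Polynomial.aeval_def]
      congr 1
    obtain ⟨a, ha, ha2⟩ := JD_root ι _ w1 r hroot
    exact ⟨h, hh, a, (w3 a).1 ha2, N, hN, by rw [ha, hzr]⟩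

/-- the splitting of a list -/
lemma split {q : ℕ} (hq : IsPrimePow q) {S : Set ℤ[X]} (hS : S ⊆ FO q) {K : Type} [Field K]
    (ι : Qb →+* K) (L : List K) (hL : ∀ y ∈ L, Adm q S y) :
    ∃ (o : List (ℤ[X] × Qb)) (t M : ℕ), 1 ≤ M ∧ o.length + t = L.length ∧
      (∀ y ∈ o, y.1 ∈ S ∧ y.2 ∈ Om q y.1 ∧ ∃ w ∈ L, ∃ N : ℕ, 1 ≤ N ∧ w ^ N = (ι y.2) ^ N) ∧
      (1 ≤ t → ∃ w ∈ L, ∃ N : ℕ, 1 ≤ N ∧ w ^ (2 * N) = (q : K) ^ N) ∧
      L.prod ^ (2 * M) = (ι (o.map Prod.snd).prod) ^ (2 * M) * (q : K) ^ (M * t) := by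
  induction L with
  | nil => exact ⟨[], 0, 1, le_rfl, by simp, by simp, by simp, by simp⟩
  | cons z L ih =>
    obtain ⟨o, t, M, hM, hlen, ho, ht, hp⟩ := ih fun y hy => hL y (List.mem_cons_of_mem _ hy)
    rcases adm_cases hq hS ι (hL z List.mem_cons_self) with ⟨N, hN, hz⟩ | ⟨h, hh, a, ha, N, hN, hz⟩
    · refine ⟨o, t + 1, M * N, Nat.mul_pos hM hN, by rw [List.length_cons]; omega, ?_, ?_, ?_⟩
      · intro y hy
        obtain ⟨h1, h2, w, hw, h3⟩ := ho y hy
        exact ⟨h1, h2, w, List.mem_cons_of_mem _ hw, h3⟩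
      · intro _
        exact ⟨z, List.mem_cons_self, N, hN, hz⟩
      · have e1 : z ^ (2 * (M * N)) = (q : K) ^ (M * N) := by
          have : 2 * (M * N) = (2 * N) * M := by ring
          rw [this, pow_mul, hz, ← pow_mul, mul_comm N M]
        have e2 : L.prod ^ (2 * (M * N)) =
            (ι (o.map Prod.snd).prod) ^ (2 * (M * N)) * (q : K) ^ (M * N * t) := by
          have : 2 * (M * N) = (2 * M) * N := by ring
          rw [this, pow_mul, hp, mul_pow, ← pow_mul, ← pow_mul]
          congr 2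
          ring
        rw [List.prod_cons, mul_pow, e1, e2]
        ring
    · refine ⟨(h, a) :: o, t, M * N, Nat.mul_pos hM hN, by
        rw [List.length_cons, List.length_cons]; omega, ?_, ?_, ?_⟩
      · intro y hy
        rcases List.mem_cons.1 hy with rfl | hy
        · exact ⟨hh, ha, z, List.mem_cons_self, N, hN, hz⟩
        · obtain ⟨h1, h2, w, hw, h3⟩ := ho y hy
          exact ⟨h1, h2, w, List.mem_cons_of_mem _ hw, h3⟩
      · intro h1
        obtain ⟨w, hw, h3⟩ := ht h1
        exact ⟨w, List.mem_cons_of_mem _ hw, h3⟩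
      · have e1 : z ^ (2 * (M * N)) = (ι a) ^ (2 * (M * N)) := by
          have : 2 * (M * N) = N * (2 * M) := by ring
          rw [this, pow_mul, hz, ← pow_mul]
        have e2 : L.prod ^ (2 * (M * N)) =
            (ι (o.map Prod.snd).prod) ^ (2 * (M * N)) * (q : K) ^ (M * N * t) := by
          have : 2 * (M * N) = (2 * M) * N := by ring
          rw [this, pow_mul, hp, mul_pow, ← pow_mul, ← pow_mul]
          congr 2
          ring
        rw [List.prod_cons, mul_pow, e1, e2, List.map_cons, List.prod_cons, map_mul, mul_pow]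
        ring

end PART_aux

open PART_aux in
theorem t_PART (hIND3 : S_IND3) : S_PART := by
  intro q P S hq hP hp hS hC K _ _ _ z l hz hl j N hN hlen hrel
  obtain ⟨ι⟩ := JD_emb K
  have hq1 : 1 ≤ q := hq.one_lt.le
  have hq0 : (q : K) ≠ 0 := by exact_mod_cast (by omega : q ≠ 0)
  obtain ⟨o, t, M, hM, hol, ho, ht, hp'⟩ := split hq hS ι l hl
  rcases adm_cases hq hS ι hz with ⟨N₀, hN₀, hz0⟩ | ⟨h, hh, a, ha, N₀, hN₀, hz0⟩
  · by_cases ht1 : 1 ≤ t
    · obtain ⟨w, hw, N₁, hN₁, hw1⟩ := ht ht1
      refine ⟨w, hw, 2 * (N₀ * N₁), by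
        have := Nat.mul_pos hN₀ hN₁
        omega, ?_⟩
      have e1 : z ^ (2 * (N₀ * N₁)) = (q : K) ^ (N₀ * N₁) := by
        rw [← mul_assoc, pow_mul, hz0, ← pow_mul]
      have e2 : w ^ (2 * (N₀ * N₁)) = (q : K) ^ (N₀ * N₁) := by
        have : 2 * (N₀ * N₁) = (2 * N₁) * N₀ := by ring
        rw [this, pow_mul, hw1, ← pow_mul, mul_comm N₁ N₀]
      rw [mul_pow, e1, e2, ← pow_add]
      congr 1
      ring
    · exfalso
      have ht0 : t = 0 := by omega
      subst ht0
      rw [Nat.mul_zero, pow_zero, mul_one] at hp'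
      cases o with
      | nil =>
        simp only [List.length_nil] at hol
        omega
      | cons x o =>
        have hx := ho x List.mem_cons_self
        have hodd := (hIND3 q P S hq hP hp hS hC o x hx.1 hx.2.1 (fun y hy =>
          ⟨(ho y (List.mem_cons_of_mem _ hy)).1, (ho y (List.mem_cons_of_mem _ hy)).2.1⟩)
          (2 * (M * N₀ * N)) (((2 * j - 1) * (M * N₀ * N) : ℕ) : ℤ) (by
            have := Nat.mul_pos (Nat.mul_pos hM hN₀) hN
            omega) (by
            apply ι.injective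
            rw [zpow_natCast, map_pow, map_pow, map_natCast]
            rw [List.map_cons, List.prod_cons] at hp'
            have e0 : (z * l.prod) ^ (2 * (M * N₀ * N)) = (q : K) ^ (2 * j * (M * N₀ * N)) := by
              have : 2 * (M * N₀ * N) = N * (2 * (M * N₀)) := by ring
              rw [this, pow_mul, hrel, ← pow_mul, ← pow_mul]
              congr 1
              ring
            have e1 : z ^ (2 * (M * N₀ * N)) = (q : K) ^ (M * N₀ * N) := by
              have : 2 * (M * N₀ * N) = (2 * N₀) * (M * N) := by ring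
              rw [this, pow_mul, hz0, ← pow_mul]
              congr 1
              ring
            have e2 : l.prod ^ (2 * (M * N₀ * N)) =
                (ι (x.2 * (o.map Prod.snd).prod)) ^ (2 * (M * N₀ * N)) := by
              have : 2 * (M * N₀ * N) = (2 * M) * (N₀ * N) := by ring
              rw [this, pow_mul, hp', ← pow_mul]
            rw [mul_pow, e1, e2] at e0
            have e3 : (q : K) ^ (2 * j * (M * N₀ * N)) =
                (q : K) ^ (M * N₀ * N) * (q : K) ^ ((2 * j - 1) * (M * N₀ * N)) := by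
              rw [← pow_add]
              congr 1
              have h1 : 2 * j = 1 + (2 * j - 1) := by omega
              conv_lhs => rw [h1]
              ring
            rw [e3] at e0
            exact mul_left_cancel₀ (pow_ne_zero _ hq0) e0)).2
        rw [List.length_cons] at hol
        obtain ⟨k, hk⟩ := hodd
        omega
  · obtain ⟨y, hy, M', hM', hyM⟩ := (hIND3 q P S hq hP hp hS hC o (h, a) hh ha (fun y hy =>
          ⟨(ho y hy).1, (ho y hy).2.1⟩)
          (2 * (M * N₀ * N)) (((2 * j - t + t - t) * (M * N₀ * N) : ℕ) : ℤ) (by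
            have := Nat.mul_pos (Nat.mul_pos hM hN₀) hN
            omega) (by
            apply ι.injective
            rw [zpow_natCast, map_pow, map_pow, map_natCast]
            have e0 : (z * l.prod) ^ (2 * (M * N₀ * N)) = (q : K) ^ (2 * j * (M * N₀ * N)) := by
              have : 2 * (M * N₀ * N) = N * (2 * (M * N₀)) := by ring
              rw [this, pow_mul, hrel, ← pow_mul, ← pow_mul]
              congr 1
              ring
            have e1 : z ^ (2 * (M * N₀ * N)) = (ι a) ^ (2 * (M * N₀ * N)) := by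
              have : 2 * (M * N₀ * N) = N₀ * (2 * (M * N)) := by ring
              rw [this, pow_mul, hz0, ← pow_mul]
            have e2 : l.prod ^ (2 * (M * N₀ * N)) =
                (ι (o.map Prod.snd).prod) ^ (2 * (M * N₀ * N)) *
                  (q : K) ^ (t * (M * N₀ * N)) := by
              have : 2 * (M * N₀ * N) = (2 * M) * (N₀ * N) := by ring
              rw [this, pow_mul, hp', mul_pow, ← pow_mul, ← pow_mul]
              congr 2
              ring
            rw [mul_pow, e1, e2] at e0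
            have e3 : (q : K) ^ (2 * j * (M * N₀ * N)) =
                (q : K) ^ ((2 * j - t + t - t) * (M * N₀ * N)) * (q : K) ^ (t * (M * N₀ * N)) := by
              rw [← pow_add, ← add_mul]
              congr 2
              omega
            rw [e3, ← mul_assoc, ← mul_pow, ← map_mul] at e0
            exact mul_right_cancel₀ (pow_ne_zero _ hq0) e0)).1
    obtain ⟨_, _, w, hw, N₁, hN₁, hw1⟩ := ho y hy
    refine ⟨w, hw, M' * (N₀ * N₁), Nat.mul_pos hM' (Nat.mul_pos hN₀ hN₁), ?_⟩
    have e1 : z ^ (M' * (N₀ * N₁)) = (ι a) ^ (M' * (N₀ * N₁)) := by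
      have : M' * (N₀ * N₁) = N₀ * (M' * N₁) := by ring
      rw [this, pow_mul, hz0, ← pow_mul]
    have e2 : w ^ (M' * (N₀ * N₁)) = (ι y.2) ^ (M' * (N₀ * N₁)) := by
      have : M' * (N₀ * N₁) = N₁ * (M' * N₀) := by ring
      rw [this, pow_mul, hw1, ← pow_mul]
    have e3 := congrArg ι hyM
    rw [map_pow, map_mul, map_pow, map_natCast] at e3
    rw [mul_pow, e1, e2, ← mul_pow, pow_mul, e3, ← pow_mul]

end Pool.Agent.TJ3
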