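import Pool.Agent.TJ3.St
import Pool.Agent.TJ2.JH

/-!
# POS: the positive part
-/

set_option autoImplicit false

open Polynomial IntermediateField

namespace Pool.Agent.TJ3

open Pool.Agent.TJ2

theorem t_POS (hJG3 : S_JG3) (hJF3 : S_JF3) : S_POS := by
  intro q P S hq hP hp hS hC K _ _ V _ _ _ F hss hadm j N x hN hx hFx
  have hcz : CharZero (AlgebraicClosure K) := charZero_of_injective_algebraMap
    (algebraMap K (AlgebraicClosure K)).injective
  have e1 : algebraMap K (AlgebraicClosure K) (q : K) = (q : AlgebraicClosure K) :=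
    map_natCast _ q
  refine (hJF3 K (AlgebraicClosure K) V F (q : K) x).1 ?_
  rw [e1]
  refine hJG3 q P S hq hP hp hS hC (AlgebraicClosure K)
    (TensorProduct K (AlgebraicClosure K) V)
    (LinearMap.baseChange (AlgebraicClosure K) F) (JH_semisimple F hss) ?_ j N
    (JF_phi K (AlgebraicClosure K) V x) hN (JF_phi_mem hx) ?_
  · intro z hz
    apply hadm z
    rw [LinearMap.charpoly_baseChange, Polynomial.IsRoot.def, Polynomial.eval_map_algebraMap] at hz
    exact hz
  · have h1 := JF_phi_map (L := AlgebraicClosure K) (F ^ N) x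
    rw [hFx, map_smul] at h1
    have h2 : (LinearMap.baseChange (AlgebraicClosure K) F) ^ N =
        LinearMap.baseChange (AlgebraicClosure K) (F ^ N) := by
      rw [LinearMap.baseChange_pow]
    rw [h2, h1, ← algebraMap_smul (AlgebraicClosure K) ((q : K) ^ (j * N)), map_pow, e1]

end Pool.Agent.TJ3
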