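import Pool.Agent.TJ3.St
import Pool.Agent.TJ2.OMB

/-!
# REL: from a relation between sign vectors to a minimal one
-/

set_option autoImplicit false

open Polynomial IntermediateField

namespace Pool.Agent.TJ3

open Pool.Agent.TJ2

namespace REL_aux

/-- the relations between the sign vectors -/
def R (P : Ideal Zb) {ι : Type} [Fintype ι] (A : ι → Finset Qb) :
    AddSubgroup (∀ i, (A i) → ℤ) where
  carrier := {d | ∀ σ : Qb ≃ₐ[ℚ] Qb, ∑ i, ∑ x : A i, (d i x : ℚ) * sgn P x.1 σ = 0}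
  zero_mem' := fun σ => by simp
  add_mem' := by
    intro a b ha hb σ
    have h1 := ha σ
    have h2 := hb σ
    simp only [Pi.add_apply, Int.cast_add, add_mul, Finset.sum_add_distrib]
    rw [h1, h2, add_zero]
  neg_mem' := by
    intro a ha σ
    have h1 := ha σ
    simp only [Pi.neg_apply, Int.cast_neg, neg_mul, Finset.sum_neg_distrib]
    rw [h1, neg_zero]

lemma mem_R (P : Ideal Zb) {ι : Type} [Fintype ι] (A : ι → Finset Qb) (d : ∀ i, (A i) → ℤ) :
    d ∈ R P A ↔ ∀ σ : Qb ≃ₐ[ℚ] Qb, ∑ i, ∑ x : A i, (d i x : ℚ) * sgn P x.1 σ = 0 := Iff.rfl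

end REL_aux

open REL_aux in
theorem t_REL (hGRP2 : S_GRP2) (hGAL : S_GAL) (hSGB : S_SGB) : S_REL := by
  classical
  intro q P hq hP hp n h A m hFO hA hrel hne0
  have hq1 : 1 ≤ q := hq.one_lt.le
  have hq0 : (q : Qb) ≠ 0 := by
    have : q ≠ 0 := by omega
    exact_mod_cast this
  have hmon : ∀ i, (h i).Monic := fun i => (hFO i).2.1.1.1
  have hom := fun i => t_OMB (h i).natDegree q (h i) hq1 (hmon i) rfl
  have hne := fun i => (hom i).2.2.2.2 (hFO i).2.2.1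
  have hmemA : ∀ i a, a ∈ A i ↔ a ∈ Om q (h i) := by
    intro i a
    rw [← hA i, Finset.mem_coe]
  have hbar : ∀ i, ∀ a ∈ A i, (q : Qb) / a ∈ A i := by
    intro i a ha
    rw [hmemA] at ha ⊢
    exact ((hom i).2.1 a ha).1
  have hact : ∀ i, ∀ a ∈ A i, ∀ s : Qb ≃ₐ[ℚ] Qb, s a ∈ A i := by
    intro i a ha s
    rw [hmemA] at ha ⊢
    exact (hom i).2.2.1 a ha s
  have h0A : ∀ i, ∀ a ∈ A i, a ≠ 0 := by
    intro i a ha
    rw [hmemA] at ha
    exact ha.1
  have hbb : ∀ (z : Qb), z ≠ 0 → (q : Qb) / ((q : Qb) / z) = z := by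
    intro z hz
    field_simp
  let Ω : Fin n → Type := fun i => A i
  let act : ∀ i, MulAction (Qb ≃ₐ[ℚ] Qb) (Ω i) := fun i =>
    { smul := fun s x => ⟨s x.1, hact i x.1 x.2 s⟩
      one_smul := fun x => Subtype.ext rfl
      mul_smul := fun s t x => Subtype.ext rfl }
  let bar : ∀ i, Ω i → Ω i := fun i x => ⟨(q : Qb) / x.1, hbar i x.1 x.2⟩
  have hb1 : ∀ i x, bar i (bar i x) = x := fun i x => Subtype.ext (hbb x.1 (h0A i x.1 x.2))
  have hb2 : ∀ i x, bar i x ≠ x := by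
    intro i x h1
    exact (hne i).1 x.1 ((hmemA i x.1).1 x.2) (congrArg Subtype.val h1).symm
  have hb3 : ∀ i (s : Qb ≃ₐ[ℚ] Qb) x, bar i (s • x) = s • bar i x := by
    intro i s x
    apply Subtype.ext
    show (q : Qb) / s x.1 = s ((q : Qb) / x.1)
    rw [map_div₀, map_natCast]
  have hb4 : ∀ i (τ : Equiv.Perm (Ω i)), (∀ x, τ (bar i x) = bar i (τ x)) →
      ∃ s : Qb ≃ₐ[ℚ] Qb, ∀ x, s • x = τ x := by
    intro i τ hτ
    let τ' : Qb → Qb := fun b => if hb : b ∈ A i then (τ ⟨b, hb⟩).1 else b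
    have hτ' : ∀ (b : Qb) (hb : b ∈ A i), τ' b = (τ ⟨b, hb⟩).1 := by
      intro b hb
      simp only [τ', dif_pos hb]
    obtain ⟨σ, hσ⟩ := (hFO i).2.2.2 τ' (by
      rw [← hA i]
      refine ⟨?_, ?_, ?_⟩
      · intro b hb
        rw [hτ' b hb]
        exact (τ ⟨b, hb⟩).2
      · intro b hb c hc hbc
        rw [hτ' b hb, hτ' c hc] at hbc
        have := τ.injective (Subtype.ext hbc)
        exact congrArg Subtype.val this
      · intro b hb
        refine ⟨(τ.symm ⟨b, hb⟩).1, (τ.symm ⟨b, hb⟩).2, ?_⟩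
        rw [hτ' _ (τ.symm ⟨b, hb⟩).2]
        have : (⟨(τ.symm ⟨b, hb⟩).1, (τ.symm ⟨b, hb⟩).2⟩ : Ω i) = τ.symm ⟨b, hb⟩ := rfl
        rw [this, Equiv.apply_symm_apply]) (by
      intro b hb
      have hb' := (hmemA i b).2 hb
      have hqb := hbar i b hb'
      rw [hτ' b hb', hτ' _ hqb]
      exact congrArg Subtype.val (hτ ⟨b, hb'⟩))
    refine ⟨σ, fun x => Subtype.ext ?_⟩
    have := hσ x.1 ((hmemA i x.1).1 x.2)
    rw [hτ' x.1 x.2] at this
    exact this
  have hcard : ∀ i, Fintype.card (Ω i) = 2 * (h i).natDegree := by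
    intro i
    rw [← (hFO i).2.2.1, ← hA i, Set.ncard_coe_finset]
    exact Fintype.card_coe _
  have hsg : ∀ i (x : Ω i) σ, sgn P (bar i x).1 σ = - sgn P x.1 σ := by
    intro i x σ
    exact ((hSGB q P (h i) x.1 hq hP hp (hFO i) ((hmemA i x.1).1 x.2)).1 σ).2
  have hstab : ∀ (s : Qb ≃ₐ[ℚ] Qb), ∀ d ∈ R P A, (fun i (x : Ω i) => d i (s⁻¹ • x)) ∈ R P A := by
    intro s d hd σ
    have h1 := hd (σ * s)
    rw [← h1]
    refine Finset.sum_congr rfl fun i _ => ?_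
    rw [← Equiv.sum_comp (MulAction.toPerm s : Equiv.Perm (Ω i))]
    refine Finset.sum_congr rfl fun x _ => ?_
    rw [MulAction.toPerm_apply]
    have e1 : (fun i (x : Ω i) => d i (s⁻¹ • x)) i (s • x) = d i x := by
      show d i (s⁻¹ • (s • x)) = d i x
      rw [inv_smul_smul]
    rw [e1]
    rfl
  have hsumcoe : ∀ (w : Fin n → Qb → ℤ) (i : Fin n) (σ : Qb ≃ₐ[ℚ] Qb),
      ∑ x : Ω i, (w i x.1 : ℚ) * sgn P x.1 σ = ∑ a ∈ A i, (w i a : ℚ) * sgn P a σ := by
    intro w i σ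
    exact Finset.sum_coe_sort (A i) (fun a => (w i a : ℚ) * sgn P a σ)
  have hd0 : (fun i (x : Ω i) => m i x.1 - m i ((q : Qb) / x.1)) ∈ R P A := by
    intro σ
    have e1 : ∀ i, ∑ x : Ω i, ((m i x.1 - m i ((q : Qb) / x.1) : ℤ) : ℚ) * sgn P x.1 σ =
        ∑ a ∈ A i, (m i a : ℚ) * sgn P a σ + ∑ a ∈ A i, (m i a : ℚ) * sgn P a σ := by
      intro i
      have e2 : ∀ x : Ω i, ((m i x.1 - m i ((q : Qb) / x.1) : ℤ) : ℚ) * sgn P x.1 σ =
          (m i x.1 : ℚ) * sgn P x.1 σ + (m i (bar i x).1 : ℚ) * sgn P (bar i x).1 σ := by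
        intro x
        rw [hsg]
        push_cast
        ring
      rw [Finset.sum_congr rfl fun x _ => e2 x, Finset.sum_add_distrib, hsumcoe m i σ]
      congr 1
      rw [← hsumcoe m i σ]
      have hinv : Function.Involutive (bar i) := hb1 i
      exact Equiv.sum_comp hinv.toPerm (fun x : Ω i => (m i x.1 : ℚ) * sgn P x.1 σ)
    show ∑ i, ∑ x : Ω i, ((m i x.1 - m i ((q : Qb) / x.1) : ℤ) : ℚ) * sgn P x.1 σ = 0
    rw [Finset.sum_congr rfl fun i _ => e1 i, Finset.sum_add_distrib, hrel σ, add_zero]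
  obtain ⟨I, i₀, x₀, w, hi₀, hwR, hwodd, hwI, hwx, hwx', hIcard, hIst, hIker, hIcase⟩ :=
    hGRP2 (Qb ≃ₐ[ℚ] Qb) (Fin n) Ω bar (R P A) hb1 hb2 hb3 hb4 hstab ⟨_, hd0, by
      intro i x
      show m i ((q : Qb) / x.1) - m i ((q : Qb) / ((q : Qb) / x.1)) =
        -(m i x.1 - m i ((q : Qb) / x.1))
      rw [hbb x.1 (h0A i x.1 x.2)]
      ring, by
      intro hz
      obtain ⟨i, a, ha, hia⟩ := hne0
      apply hia
      have h1 := congrFun (congrFun hz i) (⟨a, ha⟩ : Ω i)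
      have h2 : m i a - m i ((q : Qb) / a) = 0 := h1
      omega⟩
  let w' : Fin n → Qb → ℤ := fun i b => if hb : b ∈ A i then w i ⟨b, hb⟩ else 0
  have hw' : ∀ i (b : Qb) (hb : b ∈ A i), w' i b = w i ⟨b, hb⟩ := by
    intro i b hb
    simp only [w', dif_pos hb]
  have hfix : ∀ i j (x : Ω i) (y : Ω j), (∀ s : Qb ≃ₐ[ℚ] Qb, s • x = x ↔ s • y = y) →
      ℚ⟮y.1⟯ = ℚ⟮x.1⟯ := by
    intro i j x y hs
    refine (hGAL {y.1} {x.1}).2 fun s => ?_
    constructor
    · intro h1 b hb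
      rw [Set.mem_singleton_iff] at hb
      rw [hb]
      exact congrArg Subtype.val ((hs s).2 (Subtype.ext (h1 y.1 rfl)))
    · intro h1 b hb
      rw [Set.mem_singleton_iff] at hb
      rw [hb]
      exact congrArg Subtype.val ((hs s).1 (Subtype.ext (h1 x.1 rfl)))
  refine ⟨I, i₀, x₀.1, w', hi₀, x₀.2, ?_, ?_, ?_, ?_, ?_, ?_, ?_⟩
  · rw [hw' i₀ x₀.1 x₀.2]
    exact hwx
  · intro x hx h1 h2
    rw [hw' i₀ x hx]
    exact hwx' ⟨x, hx⟩ (fun h => h1 (congrArg Subtype.val h))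
      (fun h => h2 (congrArg Subtype.val h))
  · intro i x hx
    rw [hw' i x hx, hw' i _ (hbar i x hx)]
    exact hwodd i ⟨x, hx⟩
  · intro i hi x hx
    rw [hw' i x hx]
    have h1 : w i = 0 := by
      by_contra h1
      exact hi ((hwI i).2 h1)
    rw [h1]
    rfl
  · intro σ
    have h1 := hwR σ
    have e1 : ∀ i, ∑ x : Ω i, (w i x : ℚ) * sgn P x.1 σ =
        ∑ a ∈ A i, (w' i a : ℚ) * sgn P a σ := by
      intro i
      rw [← hsumcoe w' i σ]
      refine Finset.sum_congr rfl fun x _ => ?_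
      rw [hw' i x.1 x.2]
    rw [← h1]
    have e2 : ∑ i, ∑ x : A i, (w i x : ℚ) * sgn P x.1 σ =
        ∑ i, ∑ a ∈ A i, (w' i a : ℚ) * sgn P a σ := Finset.sum_congr rfl fun i _ => e1 i
    rw [e2]
    apply Finset.sum_subset (Finset.subset_univ I)
    intro i _ hi
    apply Finset.sum_eq_zero
    intro a ha
    have h2 : w i = 0 := by
      by_contra h2
      exact hi ((hwI i).2 h2)
    rw [hw' i a ha, h2]
    simp
  · intro i hi
    refine ⟨?_, ?_⟩
    · have h1 := hIcard i hi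
      rw [hcard, hcard] at h1
      omega
    · refine (hGAL _ _).2 fun s => ?_
      have h1 := hIker i hi s
      constructor
      · intro h2 a ha
        have h3 := h1.1 (fun x => Subtype.ext (h2 x.1 ((hmemA i x.1).1 x.2)))
          ⟨a, (hmemA i₀ a).2 ha⟩
        exact congrArg Subtype.val h3
      · intro h2 a ha
        have h3 := h1.2 (fun x => Subtype.ext (h2 x.1 ((hmemA i₀ x.1).1 x.2)))
          ⟨a, (hmemA i a).2 ha⟩
        exact congrArg Subtype.val h3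
  · intro i hi
    rcases hIcase i hi with ⟨y, hy, hy', hst⟩ | ⟨hc, habs⟩
    · left
      refine ⟨y.1, y.2, ?_, ?_, hfix i₀ i x₀ y hst⟩
      · rw [hw' i y.1 y.2]
        exact hy
      · intro x hx h1 h2
        rw [hw' i x hx]
        exact hy' ⟨x, hx⟩ (fun h => h1 (congrArg Subtype.val h))
          (fun h => h2 (congrArg Subtype.val h))
    · right
      refine ⟨?_, ?_⟩
      · rw [hcard] at hc
        omega
      · have hwi : w i ≠ 0 := (hwI i).1 hi
        obtain ⟨y, hy⟩ := Function.ne_iff.1 hwi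
        refine ⟨w i y, hy, fun x hx => ?_⟩
        rw [hw' i x hx]
        exact abs_eq_abs.1 (habs ⟨x, hx⟩ y)

end Pool.Agent.TJ3
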