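import Pool.Agent.TJ3.St
import Pool.Agent.TJ2.OMB

/-!
# TJ3: the density one set satisfies the criterion (helper85)
-/

open Polynomial IntermediateField

namespace Pool.Agent.TJ3

open Pool.Agent.TJ2

noncomputable section

theorem t_SEL (hSGB : S_SGB) (hGIS : S_GIS) (hE2 : S_E2) (hIND : S_IND) : S_SEL := by
  classical
  intro q P hq hP hqP
  have hq1 : 1 < q := hq.one_lt
  have hq0 : (q : Qb) ≠ 0 := by
    have : q ≠ 0 := by omega
    exact_mod_cast this
  obtain ⟨-, -, g3, g4, -, -, g7⟩ := hGIS q hq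
  refine ⟨?_, ?_⟩
  · intro n h a ha hfield hn
    have hsub : ∀ i j : Fin n, i = j := by
      intro i j
      by_contra hij
      have h1 := (ha i).1.2.1 (h j) (ha j).1.1 (a i) (ha i).2 (a j) (ha j).2 (hfield i j)
      rcases h1 with h1 | h1
      · refine hn i j hij ?_
        rw [h1]
        exact g3 _ (ha i).1.1
      · refine hn i j hij ?_
        rw [h1]
        exact (g7 _ (ha i).1.1).1
    have : Subsingleton (Fin n) := ⟨hsub⟩
    rcases isEmpty_or_nonempty (Fin n) with hemp | ⟨⟨i⟩⟩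
    · exact linearIndependent_empty_type
    · refine LinearIndependent.of_subsingleton i ?_
      intro h0
      have h1 := ((hSGB q P (h i) (a i) hq hP hqP (ha i).1.1 (ha i).2).1 1).1
      have h2 : sgn P (a i) 1 = 0 := congrFun h0 1
      rw [h2] at h1
      rcases h1 with h1 | h1 <;> norm_num at h1
  · intro h₁ hh₁ h₂ hh₂ h₃ hh₃ d₁ d₂ d₃ n12 n13 n23 hcon
    obtain ⟨e12, e13⟩ := hcon
    obtain ⟨n, h, r, e, N, hr, ⟨k₀, hk₀⟩, hN, hrel, -, hne'⟩ :=
      hE2 q P hq hP hqP h₁ hh₁.1 h₂ hh₂.1 h₃ hh₃.1 d₁ d₂ d₃ n12 n13 n23 e12 e13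
    have hS : ∀ x ∈ ({h₁, h₂, h₃} : Set ℤ[X]), x ∈ Sel q := by
      intro x hx
      simp only [Set.mem_insert_iff, Set.mem_singleton_iff] at hx
      rcases hx with rfl | rfl | rfl
      · exact hh₁
      · exact hh₂
      · exact hh₃
    have hdiff : ∀ x ∈ ({h₁, h₂, h₃} : Set ℤ[X]), ∀ y ∈ ({h₁, h₂, h₃} : Set ℤ[X]), x ≠ y →
        ¬ GIso q x y := by
      intro x hx y hy hxy
      simp only [Set.mem_insert_iff, Set.mem_singleton_iff] at hx hy
      rcases hx with rfl | rfl | rfl <;> rcases hy with rfl | rfl | rfl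
      · exact absurd rfl hxy
      · exact n12
      · exact n13
      · exact fun h => n12 (g4 _ _ h)
      · exact absurd rfl hxy
      · exact n23
      · exact fun h => n13 (g4 _ _ h)
      · exact fun h => n23 (g4 _ _ h)
      · exact absurd rfl hxy
    let l : List (ℤ[X] × Qb) := (List.ofFn fun k => List.replicate (e k) (h k, r k)).flatten
    have hl : ∀ x ∈ l, ∃ k, x = (h k, r k) := by
      intro x hx
      obtain ⟨l', hl', hal⟩ := List.mem_flatten.1 hx
      obtain ⟨k, rfl⟩ := (List.mem_ofFn' _ _).1 hl'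
      exact ⟨k, List.eq_of_mem_replicate hal⟩
    have hprod : (l.map Prod.snd).prod = ∏ k, r k ^ e k := by
      rw [List.map_flatten, List.prod_flatten, List.map_map, List.map_ofFn, List.prod_ofFn]
      refine Finset.prod_congr rfl fun k _ => ?_
      simp
    have hpow : (l.map Prod.snd).prod ^ (N * 2) = (q : Qb) ^ ((N * ∑ k, e k : ℕ) : ℤ) := by
      rw [hprod, pow_mul, pow_two]
      nth_rw 2 [hrel]
      rw [← mul_pow, ← Finset.prod_mul_distrib, zpow_natCast, mul_comm N, pow_mul]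
      congr 1
      rw [← Finset.prod_pow_eq_pow_sum]
      refine Finset.prod_congr rfl fun k _ => ?_
      rw [← mul_pow, mul_div_cancel₀ _ (hr k).2.1]
    have hcount := hIND q hq l (fun x hx => by
      obtain ⟨k, rfl⟩ := hl x hx
      exact ⟨hS _ (hr k).1, (hr k).2⟩) (fun x hx y hy => by
      obtain ⟨k, rfl⟩ := hl x hx
      obtain ⟨k', rfl⟩ := hl y hy
      intro h0
      simp only at h0
      have hFk' := (hS _ (hr k').1).1
      by_cases hkk : h k = h k'
      · rw [hkk] at h0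
        exact (g7 _ hFk').2 h0
      · refine hdiff _ (hr k').1 _ (hr k).1 (Ne.symm hkk) ?_
        rw [h0]
        exact (g7 _ hFk').1) (N * 2) _ (by omega) hpow (h k₀) (r k₀)
    have hmem : (h k₀, r k₀) ∈ l := by
      refine List.mem_flatten.2 ⟨List.replicate (e k₀) (h k₀, r k₀), ?_, ?_⟩
      · exact (List.mem_ofFn' _ _).2 ⟨k₀, rfl⟩
      · exact List.mem_replicate.2 ⟨by omega, rfl⟩
    have hpos := List.count_pos_iff.2 hmem
    rw [hcount] at hpos
    obtain ⟨k, hk⟩ := hl _ (List.count_pos_iff.1 hpos)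
    have hk2 : (q : Qb) / r k₀ = r k := congrArg Prod.snd hk
    refine hne' k₀ k 1 le_rfl ?_
    rw [← hk2, mul_div_cancel₀ _ (hr k₀).2.1]

end

end Pool.Agent.TJ3
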