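import Pool.Agent.TJ3.St
import Pool.Agent.TJ2.OMB

/-!
# Module SGB: the signs of the roots of an ordinary Weil polynomial
-/

open Polynomial IntermediateField

namespace Pool.Agent.TJ3

open Pool.Agent.TJ2

noncomputable section

/-- The key fact: exactly one of the conjugate integers lies in the prime. -/
private lemma SGB_key (q : ℕ) (P : Ideal Zb) (h : ℤ[X]) (a : Qb) (hq : IsPrimePow q)
    (hP : P.IsPrime) (hp : ((q.minFac : ℕ) : Zb) ∈ P) (hh : h ∈ FO q) (ha : a ∈ Om q h)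
    (x y : Zb) (hx : (x : Qb) = a) (hy : (y : Qb) = (q : Qb) / a) :
    x * y = ((q : ℕ) : Zb) ∧ (x ∈ P ∧ y ∉ P ∨ x ∉ P ∧ y ∈ P) := by
  have ha0 : a ≠ 0 := ha.1
  have hxy : x * y = ((q : ℕ) : Zb) := by
    apply Subtype.ext
    push_cast
    rw [hx, hy]
    field_simp
  have hqP : ((q : ℕ) : Zb) ∈ P := by
    obtain ⟨k, hk⟩ := Nat.minFac_dvd q
    have e : ((q : ℕ) : Zb) = (k : Zb) * ((q.minFac : ℕ) : Zb) := by
      rw [mul_comm, ← Nat.cast_mul, ← hk]
    rw [e]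
    exact P.mul_mem_left _ hp
  refine ⟨hxy, ?_⟩
  have hor : x ∈ P ∨ y ∈ P := hP.mem_or_mem (by rw [hxy]; exact hqP)
  have hand : ¬ (x ∈ P ∧ y ∈ P) := by
    rintro ⟨h1, h2⟩
    have hb : x + y ∈ P := P.add_mem h1 h2
    have hev : aeval (x + y) h = 0 := by
      have h3 : algebraMap Zb Qb (aeval (x + y) h) = 0 := by
        rw [← Polynomial.aeval_algebraMap_apply]
        have h4 : algebraMap Zb Qb (x + y) = a + (q : Qb) / a := by
          rw [map_add]
          show (x : Qb) + (y : Qb) = _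
          rw [hx, hy]
        rw [h4]
        exact ha.2
      have h5 : Function.Injective (algebraMap Zb Qb) := Subtype.val_injective
      exact h5 (by rw [h3, map_zero])
    have hc : ((h.coeff 0 : ℤ) : Zb) ∈ P := by
      have h6 : aeval (x + y) h = aeval (x + y) h.divX * (x + y) + ((h.coeff 0 : ℤ) : Zb) := by
        conv_lhs => rw [← Polynomial.divX_mul_X_add h]
        simp
      rw [hev] at h6
      have h7 : ((h.coeff 0 : ℤ) : Zb) = - (aeval (x + y) h.divX * (x + y)) := by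
        rw [eq_neg_iff_add_eq_zero, add_comm]
        exact h6.symm
      rw [h7]
      exact P.neg_mem (P.mul_mem_left _ hb)
    have hpr : q.minFac.Prime := Nat.minFac_prime hq.one_lt.ne'
    have hco : IsCoprime ((q.minFac : ℕ) : ℤ) (h.coeff 0) :=
      (Nat.prime_iff_prime_int.mp hpr).coprime_iff_not_dvd.mpr hh.2.1.2
    obtain ⟨u, v, huv⟩ := hco
    apply hP.ne_top
    rw [Ideal.eq_top_iff_one]
    have h8 : ((1 : ℤ) : Zb) = (u : Zb) * ((q.minFac : ℕ) : Zb) + (v : Zb) * ((h.coeff 0 : ℤ) : Zb) := by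
      rw [← huv]
      push_cast
      rfl
    rw [Int.cast_one] at h8
    rw [h8]
    exact P.add_mem (P.mul_mem_left _ hp) (P.mul_mem_left _ hc)
  by_cases h1 : x ∈ P
  · left
    exact ⟨h1, fun h2 => hand ⟨h1, h2⟩⟩
  · right
    exact ⟨h1, hor.resolve_left h1⟩

/-- The value of the sign. -/
private lemma SGB_sgn (P : Ideal Zb) (a : Qb) (σ : Qb ≃ₐ[ℚ] Qb) (x : Zb) (hx : (x : Qb) = σ a) :
    (x ∈ P → sgn P a σ = -1) ∧ (x ∉ P → sgn P a σ = 1) := by
  constructor
  · intro h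
    unfold sgn
    rw [if_pos ⟨x, h, hx⟩]
  · intro h
    unfold sgn
    rw [if_neg]
    rintro ⟨x', h1, h2⟩
    have : x' = x := Subtype.ext (h2.trans hx.symm)
    exact h (this ▸ h1)

theorem t_SGB : S_SGB := by
  intro q P h a hq hP hp hh ha
  refine ⟨fun σ => ⟨?_, ?_⟩, fun x y hx hy => SGB_key q P h a hq hP hp hh ha x y hx hy⟩
  · unfold sgn
    split_ifs
    · right; rfl
    · left; rfl
  · have hm : h.Monic := hh.2.1.1.1
    have hO := t_OMB h.natDegree q h hq.pos hm rfl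
    have hσ : σ a ∈ Om q h := hO.2.2.1 a ha σ
    have h1 := hO.2.1 (σ a) hσ
    have h2 := hO.2.1 _ h1.1
    have e1 : σ ((q : Qb) / a) = (q : Qb) / σ a := by
      rw [map_div₀, map_natCast]
    have k := SGB_key q P h (σ a) hq hP hp hh hσ ⟨σ a, h1.2.1⟩ ⟨(q : Qb) / σ a, h2.2.1⟩ rfl rfl
    have s1 := SGB_sgn P a σ ⟨σ a, h1.2.1⟩ rfl
    have s2 := SGB_sgn P ((q : Qb) / a) σ ⟨(q : Qb) / σ a, h2.2.1⟩ e1.symm
    rcases k.2 with ⟨h3, h4⟩ | ⟨h3, h4⟩
    · rw [s1.1 h3, s2.2 h4]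
      norm_num
    · rw [s1.2 h3, s2.1 h4]

end

end Pool.Agent.TJ3
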