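import Pool.Agent.TJ2.Stmts3
import Pool.Agent.TJ2.JF

/-!
# Project TJ3: classification of the Tate classes on products of ordinary abelian varieties
(MP_3af9db_ag, architect helper65)

`q` is a prime power, `p = q.minFac`.  `FO q` (file `TJ2/Defs.lean`) is the set of the real Weil
polynomials `h` of degree `g >= 1` which are ordinary and full: the `2 g` roots `a` of
`x ^ g h (x + q / x)` (the set `Om q h`) are permuted by the Galois group in all ways compatible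
with `a ↦ q / a`.  By Honda and Tate these are the isogeny classes of the ordinary abelian varieties
`A` over the field with `q` elements whose Weil polynomial has the Galois group `W (B_g)`.

Let `P` be a prime ideal of the ring `Zb` of algebraic integers above `p`.  The SIGN VECTOR of `a`
is the function `sgn P a` on the Galois group: `-1` at `σ` if `σ a ∈ P`, else `1`.

THEOREM.  Let `S ⊆ FO q`.  Then all geometric Tate classes on all abelian varieties whose geometric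
simple factors are supersingular or come from `S` are polynomials in divisor classes if and only
if (`Crit`)
* members `h_1, ..., h_n` of `S`, pairwise not geometrically isogenous, with roots `a_i` generating
  the same field, have linearly independent sign vectors `sgn P a_i`;
* no three members of degree 2 of `S`, pairwise not geometrically isogenous, have the same splitting
  field.
If `Crit` fails there is an exotic Tate class on an explicit product, for every Weil cohomology.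
`Crit` holds if no four members of `S`, pairwise not geometrically isogenous, share a field (and
the second condition holds); and it holds for a set of density one in every dimension.

Idea: the odd part of the lattice `Z [Om q h]` is the reflection representation `V_h` of
`W (B_g)`, the sign vectors give a map from the sum of all `V_h` to the functions on the
Galois group, whose kernel is the module of the multiplicative relations (modules VAL, UNI).
A minimal relation is a graph of isomorphisms between some `V_h` (module GRP2); by the counting of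
orbits the isomorphism maps a root to a root (same field) or `g = 2` and it is the reflex
correspondence.

Each statement `S_X` below is a module, with its complete proof in the doc string: file
`Pool/Agent/TJ3/X.lean`, theorem `t_X : S_X`, or `t_X : S_Y → S_Z → S_X` if the doc string says
that it uses `S_Y`, `S_Z` (take them as hypotheses, do not import the other modules of TJ3).  Files
of `Pool/Agent/TJ2` which prove similar statements may be imported or adapted: `STAB`, `EMB`, `OMB`,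
`FULC`, `SING`, `FROB`, `ORB`, `GRP`, `IND`, `JA`, `JB`, `JC`, `JD`, `JF`, `JG`, `JH`.
-/

open Polynomial IntermediateField

namespace Pool.Agent.TJ3

open Pool.Agent.TJ2

noncomputable section

/-! ## Definitions -/

/-- the ring of all algebraic integers -/
abbrev Zb : Type := integralClosure ℤ Qb

open Classical in
/-- the sign vector of `a`: `-1` at `σ` if `σ a` lies in `P`, else `1` -/
def sgn (P : Ideal Zb) (a : Qb) (σ : Qb ≃ₐ[ℚ] Qb) : ℚ :=
  if ∃ x ∈ P, (x : Qb) = σ a then -1 else 1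

/-- geometric isogeny: two roots differ by a root of unity -/
def GIso (q : ℕ) (h h' : ℤ[X]) : Prop :=
  ∃ a ∈ Om q h, ∃ a' ∈ Om q h', ∃ N : ℕ, 1 ≤ N ∧ a ^ N = a' ^ N

/-- The criterion. -/
structure Crit (q : ℕ) (P : Ideal Zb) (S : Set ℤ[X]) : Prop where
  signs : ∀ (n : ℕ) (h : Fin n → ℤ[X]) (a : Fin n → Qb), (∀ i, h i ∈ S ∧ a i ∈ Om q (h i)) →
    (∀ i j, ℚ⟮a i⟯ = ℚ⟮a j⟯) → (∀ i j, i ≠ j → ¬ GIso q (h i) (h j)) →
    LinearIndependent ℚ (fun i => sgn P (a i))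
  surfaces : ∀ h₁ ∈ S, ∀ h₂ ∈ S, ∀ h₃ ∈ S, h₁.natDegree = 2 → h₂.natDegree = 2 →
    h₃.natDegree = 2 → ¬ GIso q h₁ h₂ → ¬ GIso q h₁ h₃ → ¬ GIso q h₂ h₃ →
    ¬ (adjoin ℚ (Om q h₁) = adjoin ℚ (Om q h₂) ∧ adjoin ℚ (Om q h₁) = adjoin ℚ (Om q h₃))

/-- Admissible eigenvalues: supersingular, or a root of the Weil polynomial of a member of `S`, up
to roots of unity. -/
def Adm (q : ℕ) (S : Set ℤ[X]) {K : Type} [Field K] (z : K) : Prop :=
  ∃ N : ℕ, 1 ≤ N ∧
    (z ^ (2 * N) = (q : K) ^ N ∨ ∃ h ∈ S, ∃ r : K, aeval r (weil q h) = 0 ∧ z ^ N = r ^ N)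

section

variable {K : Type} [Field K] {V : Type} [AddCommGroup V] [Module K V]

/-- the degree 2 elements `y` of the exterior algebra with `F ^ M y = c ^ M y` for some `M ≥ 1`
(geometric Tate classes of degree 2) -/
def Deg2g (F : Module.End K V) (c : K) : Set (ExteriorAlgebra K V) :=
  {y | y ∈ ⋀[K]^2 V ∧ ∃ M : ℕ, 1 ≤ M ∧ ExteriorAlgebra.map (F ^ M) y = c ^ M • y}

end

/-- The data of an exotic class: roots `r k` of members of `S`, pairwise not related geometrically,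
and exponents `e k` with `∏ r ^ e` geometrically equal to its complex conjugate. -/
def HasData (q : ℕ) (S : Set ℤ[X]) : Prop :=
  ∃ (n : ℕ) (h : Fin n → ℤ[X]) (r : Fin n → Qb) (e : Fin n → ℕ) (N : ℕ),
    (∀ k, h k ∈ S ∧ r k ∈ Om q (h k)) ∧ (∃ k, 1 ≤ e k) ∧ 1 ≤ N ∧
    (∏ k, r k ^ e k) ^ N = (∏ k, ((q : Qb) / r k) ^ e k) ^ N ∧
    (∀ k k', k ≠ k' → ∀ M : ℕ, 1 ≤ M → r k ^ M ≠ r k' ^ M) ∧
    (∀ k k', ∀ M : ℕ, 1 ≤ M → (r k * r k') ^ M ≠ (q : Qb) ^ M)

lemma sgn_apply (P : Ideal Zb) (a : Qb) (τ σ : Qb ≃ₐ[ℚ] Qb) :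
    sgn P (τ a) σ = sgn P a (σ * τ) := rfl

/-! ## Arithmetic -/

/-- SGB.  Signs.  Uses nothing (import `TJ2.OMB`).
PROOF.  `a` and `a' = q / a` are in `Om q h`, hence algebraic integers (`t_OMB`; a member of `FO q`
is monic of degree `g` and `Om q h` is stable under automorphisms), say `x, y : Zb`, and
`x y = q ∈ P` (`q` is a power of `p = q.minFac ∈ P`, exponent `≥ 1`).  So `x ∈ P` or `y ∈ P`.  Not
both: `β = x + y` would be in `P` and is a root of `h` (definition of `Om`), so `h.coeff 0 ∈ P`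
(`h (β) = 0` and `h (β) - h.coeff 0` is a multiple of `β`, e.g. `Polynomial.divX_mul_X_add`), while
`p ∤ h.coeff 0` (`h ∈ Ord`) gives `u p + v h.coeff 0 = 1 ∈ P` (Bezout, `p` prime).  This is the last
claim; the first one is it for `σ a`, `σ (q / a) = q / σ a`. -/
def S_SGB : Prop :=
  ∀ (q : ℕ) (P : Ideal Zb) (h : ℤ[X]) (a : Qb), IsPrimePow q → P.IsPrime →
    ((q.minFac : ℕ) : Zb) ∈ P → h ∈ FO q → a ∈ Om q h →
    (∀ σ : Qb ≃ₐ[ℚ] Qb, (sgn P a σ = 1 ∨ sgn P a σ = -1) ∧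
      sgn P ((q : Qb) / a) σ = - sgn P a σ) ∧
    (∀ x y : Zb, (x : Qb) = a → (y : Qb) = (q : Qb) / a →
      x * y = ((q : ℕ) : Zb) ∧ (x ∈ P ∧ y ∉ P ∨ x ∉ P ∧ y ∈ P))

/-- VAL.  A multiplicative relation gives a relation of the signs.  Uses `S_SGB` (import `TJ2.OMB`).
PROOF.  The relation is stable under automorphisms and `sgn P a σ = sgn P (σ a) 1`, so let `σ = 1`.
Take `x_a, y_a : Zb` with values `a`, `q / a`; `x_a y_a = q`.  Let `T` be the sublist of the `a`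
with `x_a ∈ P`, `T'` the one of the others (then `y_a ∈ P`).  Multiply
`(∏_T x ∏_T' x) ^ N = (∏_T y ∏_T' y) ^ N` by `(∏_T y ∏_T' x) ^ N`:
`q ^ (|T| N) (∏_T' x) ^ (2 N) = q ^ (|T'| N) (∏_T y) ^ (2 N)`.  If `|T| > |T'|`, cancel
`q ^ (|T'| N)` (`Zb` is a domain of characteristic 0): the left side is in `P`, the right side is
not, since the `y_a`, `a ∈ T`, are not in `P`.  In the same way `|T| < |T'|` is impossible.  So
`|T| = |T'|`; the sum of the signs is `|T'| - |T| = 0`. -/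
def S_VAL : Prop :=
  ∀ (q : ℕ) (P : Ideal Zb), IsPrimePow q → P.IsPrime → ((q.minFac : ℕ) : Zb) ∈ P →
    ∀ l : List Qb, (∀ a ∈ l, ∃ h ∈ FO q, a ∈ Om q h) → ∀ N : ℕ, 1 ≤ N →
    l.prod ^ N = ((l.map fun a => (q : Qb) / a).prod) ^ N →
    ∀ σ : Qb ≃ₐ[ℚ] Qb, (l.map fun a => sgn P a σ).sum = 0

/-- TRN.  The automorphisms of `Qb` are transitive on the prime ideals of `Zb` above `p`.
PROOF.  `Algebra.IsInvariant.exists_smul_of_under_eq_of_profinite` (Mathlib), with the instances of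
`TJ2/FROB.lean` (they are private: copy them).  Both ideals lie over `p ℤ` (as in `FROB.lean`). -/
def S_TRN : Prop :=
  ∀ (p : ℕ) (P P' : Ideal Zb), p.Prime → P.IsPrime → P'.IsPrime → (p : Zb) ∈ P → (p : Zb) ∈ P' →
    ∃ τ : Qb ≃ₐ[ℚ] Qb, ∀ x y : Zb, (y : Qb) = τ x → (x ∈ P ↔ y ∈ P')

/-- KRO.  Kronecker's theorem.
PROOF.  `NumberField.Embeddings.pow_eq_one_of_norm_eq_one` for the number field `ℚ⟮u⟯` and
`A = ℂ`; an embedding of `ℚ⟮u⟯` in `ℂ` extends to `Qb` (`IsAlgClosed.lift`). -/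
def S_KRO : Prop :=
  ∀ u : Qb, IsIntegral ℤ u → (∀ ι : Qb →+* ℂ, ‖ι u‖ = 1) → ∃ N : ℕ, 1 ≤ N ∧ u ^ N = 1

/-- UNI.  Converse of VAL.  Uses `S_SGB`, `S_TRN`, `S_KRO` (import `TJ2.OMB`, `TJ2.EMB`).
PROOF.  Let `x_a, y_a : Zb` be as in VAL, `x = ∏ x_a`, `y = ∏ y_a`; `x y = q ^ |l|`.  Claim: `y`
divides `x` in `Zb`.  Let `I = {s : Zb | s x ∈ (y)}`, an ideal; if it is not everything it lies in
a maximal ideal `P'`.  If `p ∉ P'`: `s = y` is in `I`, so `y ∈ P'`, so
`q ^ |l| = x y ∈ P'`, `p ∈ P'` (`q` is a power of `p`), contradiction.  If `p ∈ P'`: by TRN there is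
`τ` with (`z ∈ P ↔ τ z ∈ P'`), so with `T = {a ∈ l | x_a ∈ P'}`, `T'` the rest, the sum of the signs
at `σ = τ⁻¹` shows `|T| = |T'|`, and `y_a ∉ P'` for `a ∈ T`, `x_a ∉ P'` for `a ∈ T'` (SGB for `P'`
in place of `P`).  Now
`x (∏_T y) ^ 2 = q ^ |T| (∏_T' x) (∏_T y)` and
`y (∏_T' x) ^ 2 = q ^ |T'| (∏_T y) (∏_T' x)` are equal, so `s = (∏_T y) ^ 2 ∈ I ⊆ P'`,
contradiction.  So `x = u y`, `u : Zb`; for every complex embedding `‖ι a‖ = ‖ι (q / a)‖ = √q`
(`t_EMB`), so `‖ι u‖ = 1`, and KRO gives `u ^ N = 1`. -/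
def S_UNI : Prop :=
  ∀ (q : ℕ) (P : Ideal Zb), IsPrimePow q → P.IsPrime → ((q.minFac : ℕ) : Zb) ∈ P →
    ∀ l : List Qb, (∀ a ∈ l, ∃ h ∈ FO q, a ∈ Om q h) →
    (∀ σ : Qb ≃ₐ[ℚ] Qb, (l.map fun a => sgn P a σ).sum = 0) →
    ∃ N : ℕ, 1 ≤ N ∧ l.prod ^ N = ((l.map fun a => (q : Qb) / a).prod) ^ N

/-- GAL.  The Galois correspondence.
PROOF.  As `TJ2/STAB.lean`: `Qb` is Galois over `ℚ` (`STAB_galois`); an automorphism is in the fixing
subgroup of `adjoin ℚ A` iff it fixes all elements of `A`; and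
`InfiniteGalois.fixedField_fixingSubgroup`. -/
def S_GAL : Prop :=
  ∀ A B : Set Qb, adjoin ℚ A = adjoin ℚ B ↔
    ∀ σ : Qb ≃ₐ[ℚ] Qb, (∀ a ∈ A, σ a = a) ↔ (∀ b ∈ B, σ b = b)

/-- GIS.  Geometric isogeny.  (Import `TJ2.OMB`, `TJ2.FULC`, `TJ2.SING`.)
PROOF.  Uniqueness: let `a ^ M = b ^ M`, `a ≠ b`.  If `b = q / a`:
`(a ^ 1 * (q / a) ^ (-1)) ^ M = 1`, contradiction to `S_SING`.  If `b ≠ q / a`, take `σ` with
`σ a = q / a`, `σ b = b` (`S_FULC`); then `(q / a) ^ M = b ^ M = a ^ M`, contradiction as before.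
Second claim: `(a * b) ^ M = q ^ M` means `a ^ M = (q / b) ^ M`, so `a = q / b`.
Transfer: `b ^ N = b' ^ N`, `b ∈ Om q h`, `b' ∈ Om q h'`; `σ b = a` by transitivity
(`S_FULC`), take `a' = σ b'` (`S_OMB`).  Transitivity of `GIso`: transfer for `h'`.
Twist: `(-a) ^ 2 = a ^ 2` and `-a ∈ Om q (tw h)`; if `h = tw h`, then `a, -a ∈ Om q h` with
`a ^ 2 = (-a) ^ 2`, so `a = -a`, `a = 0`, contradiction. -/
def S_GIS : Prop :=
  ∀ q : ℕ, IsPrimePow q →
    (∀ h ∈ FO q, ∀ a ∈ Om q h, ∀ b ∈ Om q h, ∀ M : ℕ, 1 ≤ M → a ^ M = b ^ M → a = b) ∧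
    (∀ h ∈ FO q, ∀ a ∈ Om q h, ∀ b ∈ Om q h, ∀ M : ℕ, 1 ≤ M → (a * b) ^ M = (q : Qb) ^ M →
      b = (q : Qb) / a) ∧
    (∀ h ∈ FO q, GIso q h h) ∧
    (∀ h h' : ℤ[X], GIso q h h' → GIso q h' h) ∧
    (∀ h ∈ FO q, ∀ h' ∈ FO q, ∀ h'' ∈ FO q, GIso q h h' → GIso q h' h'' → GIso q h h'') ∧
    (∀ h ∈ FO q, ∀ h' ∈ FO q, GIso q h h' → ∀ a ∈ Om q h, ∃ a' ∈ Om q h', ∃ N : ℕ, 1 ≤ N ∧
      a ^ N = a' ^ N) ∧
    (∀ h ∈ FO q, GIso q h (tw h) ∧ h ≠ tw h)

/-! ## Relations -/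

/-- GRP2.  Minimal relations.  Uses `TJ2.ORB` (`t_ORB : S_ORB`); compare `TJ2/GRP.lean`.
PROOF.  For `d ∈ R` odd, `d ≠ 0`, let `I d = {i | d i ≠ 0}`; choose `d` with `I = I d` of minimal
cardinality, and `i₀ ∈ I` with `card (Ω i₀)` minimal among `i ∈ I`; `x₀` with `d i₀ x₀ ≠ 0`.  Let
`s ∈ Γ` induce on `Ω i₀` the permutation exchanging `x₀` and `bar x₀` and fixing the rest, and
`w = d - s d`, `(s d) i x = d i (s⁻¹ x)`.  `w ∈ R` is odd, `w i₀` is supported on `x₀, bar x₀`, with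
`w i₀ x₀ = 2 d i₀ x₀`, and `I w ⊆ I`, so `I w = I` by minimality.
(a) If `s x₀ = x₀` then `(s w - w) i₀ = 0`, so `s w = w` by minimality (`I (s w - w) ⊆ I`,
`≠ I`).  So `Stab x₀ ⊆ Stab (w i)` for all `i`, and the orbit of `w i` (`i ∈ I`) has at most
`card (Γ / Stab x₀) = card (Ω i₀) ≤ card (Ω i)` elements (`Γ` is transitive on `Ω i₀`: the full
group of permutations compatible with `bar` is).
(b) `S_ORB` for `w i`, `i ∈ I`: either `w i` is supported on one pair `y, bar y`, then its orbit has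
exactly `card (Ω i)` elements (the functions `± c` on the pairs), so
`card (Ω i) = card (Ω i₀)`; or `card (Ω i) = 4`, `|w i|` is constant and the orbit has 4 elements,
and `4 ≤ card (Ω i₀) ≤ card (Ω i) = 4`.
(c) So for `i ∈ I` the orbits of `x₀` and of `w i` have the same finite cardinality and
`Stab x₀ ⊆ Stab (w i)`: the equivariant surjection `g x₀ ↦ g (w i)` of `Ω i₀` onto the orbit is
bijective, so the stabilisers are equal.  In the first case
`Stab (w i) = Stab y` (`w i` determines `y` by `w i y = c ≠ 0`, `w i (bar y) = -c`).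
(d) An element of `Γ` is trivial on `Ω i₀` iff it fixes all `g (w i)`, by (c) (for all `g`).  First
case: the orbit of `w i` contains for every `z ∈ Ω i` the function supported on `z, bar z`, so this
holds iff it is trivial on `Ω i`.  Second case: the orbit consists of the 4 odd functions with values
`± c` (it is contained in this set of 4 elements), and for `z ∈ Ω i` the sum of the two of them
which are `c` at `z` is supported on `z, bar z`; so again iff it is trivial on `Ω i`. -/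
def S_GRP2 : Prop :=
  ∀ (Γ ι : Type) [Group Γ] [Fintype ι] [DecidableEq ι] (Ω : ι → Type) [∀ i, Fintype (Ω i)]
    [∀ i, DecidableEq (Ω i)] [∀ i, MulAction Γ (Ω i)] (bar : ∀ i, Ω i → Ω i)
    (R : AddSubgroup (∀ i, Ω i → ℤ)),
    (∀ i x, bar i (bar i x) = x) → (∀ i x, bar i x ≠ x) →
    (∀ i (s : Γ) x, bar i (s • x) = s • bar i x) →
    (∀ i (τ : Equiv.Perm (Ω i)), (∀ x, τ (bar i x) = bar i (τ x)) → ∃ s : Γ, ∀ x, s • x = τ x) →
    (∀ (s : Γ), ∀ d ∈ R, (fun i x => d i (s⁻¹ • x)) ∈ R) →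
    (∃ d ∈ R, (∀ i x, d i (bar i x) = - d i x) ∧ d ≠ 0) →
    ∃ (I : Finset ι) (i₀ : ι) (x₀ : Ω i₀) (w : ∀ i, Ω i → ℤ), i₀ ∈ I ∧ w ∈ R ∧
      (∀ i x, w i (bar i x) = - w i x) ∧ (∀ i, i ∈ I ↔ w i ≠ 0) ∧
      w i₀ x₀ ≠ 0 ∧ (∀ x, x ≠ x₀ → x ≠ bar i₀ x₀ → w i₀ x = 0) ∧
      (∀ i ∈ I, Fintype.card (Ω i) = Fintype.card (Ω i₀)) ∧
      (∀ i ∈ I, ∀ s : Γ, s • x₀ = x₀ ↔ ∀ x, w i (s • x) = w i x) ∧
      (∀ i ∈ I, ∀ s : Γ, (∀ x : Ω i, s • x = x) ↔ (∀ x : Ω i₀, s • x = x)) ∧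
      (∀ i ∈ I, (∃ y, w i y ≠ 0 ∧ (∀ x, x ≠ y → x ≠ bar i y → w i x = 0) ∧
          ∀ s : Γ, s • x₀ = x₀ ↔ s • y = y) ∨
        (Fintype.card (Ω i) = 4 ∧ ∀ x y, |w i x| = |w i y|))

/-- REL.  The same for the sign vectors.  Uses `S_GRP2`, `S_GAL`, `S_SGB` (import `TJ2.OMB`).
PROOF.  `Γ = Qb ≃ₐ[ℚ] Qb`, `ι = Fin n`, `Ω i = {a // a ∈ A i}` (Galois action; `S_OMB`),
`bar a = q / a` (no fixed points: `S_OMB`, `Full` says that `Om` has `2 g` elements),
`R = {d | ∀ σ, ∑ i, ∑ a, d i a * sgn P a σ = 0}`; it is stable: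
`∑ d i (s⁻¹ a) sgn P a σ = ∑ d i a sgn P (s a) σ = ∑ d i a sgn P a (σ s)`.  All permutations of
`Ω i` compatible with `bar` are induced (definition of `Full`; extend a permutation of `A i` to a
function on `Qb`).  `d i a = m i a - m i (q / a)` is in `R` (`sgn P (q / a) = - sgn P a`), odd and
not zero.  GRP2 gives `J = I`, `i₀`, `x₀`, `w` (extend by 0 to `Qb`).  `card (Ω i) = 2 deg (h i)`
(`Full`).  The stabilisers and kernels give the equalities of fields by GAL (with `A = {y}`,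
`B = {x₀}`, note `ℚ⟮y⟯ = adjoin ℚ {y}`, and with `A = Om q (h i)`, `B = Om q (h i₀)`).  In the
last case `c = w i y` for some `y` (`w i ≠ 0`). -/
def S_REL : Prop :=
  ∀ (q : ℕ) (P : Ideal Zb), IsPrimePow q → P.IsPrime → ((q.minFac : ℕ) : Zb) ∈ P →
    ∀ (n : ℕ) (h : Fin n → ℤ[X]) (A : Fin n → Finset Qb) (m : Fin n → Qb → ℤ),
    (∀ i, h i ∈ FO q) → (∀ i, (A i : Set Qb) = Om q (h i)) →
    (∀ σ : Qb ≃ₐ[ℚ] Qb, ∑ i, ∑ a ∈ A i, (m i a : ℚ) * sgn P a σ = 0) →
    (∃ i, ∃ a ∈ A i, m i ((q : Qb) / a) ≠ m i a) →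
    ∃ (J : Finset (Fin n)) (i₀ : Fin n) (x₀ : Qb) (w : Fin n → Qb → ℤ),
      i₀ ∈ J ∧ x₀ ∈ A i₀ ∧ w i₀ x₀ ≠ 0 ∧
      (∀ x ∈ A i₀, x ≠ x₀ → x ≠ (q : Qb) / x₀ → w i₀ x = 0) ∧
      (∀ i, ∀ x ∈ A i, w i ((q : Qb) / x) = - w i x) ∧
      (∀ i, i ∉ J → ∀ x ∈ A i, w i x = 0) ∧
      (∀ σ : Qb ≃ₐ[ℚ] Qb, ∑ i ∈ J, ∑ a ∈ A i, (w i a : ℚ) * sgn P a σ = 0) ∧
      (∀ i ∈ J, (h i).natDegree = (h i₀).natDegree ∧
        adjoin ℚ (Om q (h i)) = adjoin ℚ (Om q (h i₀))) ∧
      (∀ i ∈ J, (∃ y ∈ A i, w i y ≠ 0 ∧ (∀ x ∈ A i, x ≠ y → x ≠ (q : Qb) / y → w i x = 0) ∧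
          ℚ⟮y⟯ = ℚ⟮x₀⟯) ∨
        ((h i).natDegree = 2 ∧ ∃ c : ℤ, c ≠ 0 ∧ ∀ x ∈ A i, w i x = c ∨ w i x = -c))

/-- IND4.  Under the criterion there are no relations between the sign vectors of pairwise not
isogenous members except the trivial ones.  Uses `S_REL`, `S_SGB` (import `TJ2.OMB`, `TJ2.FULC`).
PROOF.  Else REL gives `J, i₀, x₀, w`.
Case A: for all `i ∈ J` the first alternative, with `y_i`.  The sum over `A i` is
`w i y_i sgn P y_i - w i y_i sgn P (q / y_i) = 2 (w i y_i) sgn P y_i`, so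
`∑_(i ∈ J) 2 (w i y_i) sgn P y_i = 0` with nonzero coefficients, and `J` is not empty: this
contradicts `Crit.signs` for the family `(h i, y_i)`, `i ∈ J` (all fields are `ℚ⟮x₀⟯`; number `J` by
`Fin J.card`, `Finset.orderIsoOfFin` or `J.equivFin`).
Case B: for some `i₁ ∈ J` the second alternative and not the first, so `i₁ ≠ i₀` (for `i₀` the first
alternative holds with `y = x₀`) and all degrees are 2.  If `J` has a third element `i₂`:
`h i₀`, `h i₁`, `h i₂` contradict `Crit.surfaces`.  So `J = {i₀, i₁}`.  `A i₁` has 4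
elements; choose `y` in it and `z ∈ A i₁`, `z ≠ y, q / y`; so `A i₁ = {y, q / y, z, q / z}`.
Replacing `y` by `q / y` and `z` by `q / z` let `w i₁ y = w i₁ z = c ≠ 0`.  Then
`2 (w i₀ x₀) sgn P x₀ σ + 2 c (sgn P y σ + sgn P z σ) = 0` for all `σ`.  For `σ = 1` the bracket is
`0` or `± 2`; if it is not 0, take instead `σ` with `σ y = y`, `σ z = q / z` (`S_FULC`), for which
it is 0.  So `w i₀ x₀ = 0`, contradiction. -/
def S_IND4 : Prop :=
  ∀ (q : ℕ) (P : Ideal Zb) (S : Set ℤ[X]), IsPrimePow q → P.IsPrime →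
    ((q.minFac : ℕ) : Zb) ∈ P → S ⊆ FO q → Crit q P S →
    ∀ (n : ℕ) (h : Fin n → ℤ[X]) (A : Fin n → Finset Qb) (m : Fin n → Qb → ℤ),
    (∀ i, h i ∈ S) → (∀ i j, i ≠ j → ¬ GIso q (h i) (h j)) →
    (∀ i, (A i : Set Qb) = Om q (h i)) →
    (∀ σ : Qb ≃ₐ[ℚ] Qb, ∑ i, ∑ a ∈ A i, (m i a : ℚ) * sgn P a σ = 0) →
    ∀ i, ∀ a ∈ A i, m i ((q : Qb) / a) = m i a

/-- IND3.  Partners in lists.  Uses `S_IND4`, `S_VAL`, `S_GIS` (import `TJ2.OMB`, `TJ2.EMB`).
PROOF of the first claim.  Let `L = x :: l`.  Absolute values: for a complex embedding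
`‖∏_L a‖ = (√q) ^ |L|`, so `N |L| = 2 k` and
`(∏_L a) ^ (2 N) = q ^ (N |L|) = (∏_L a ∏_L (q / a)) ^ N`, `(∏_L a) ^ N = (∏_L (q / a)) ^ N`.
Choose representatives `h_1, ..., h_n ∈ S` of the classes of `GIso` among the `z.1`, `z ∈ L` (it is an
equivalence relation on `FO q`, `S_GIS`; e.g. by induction on the list: `n`, `h` with pairwise
`¬ GIso` and each `z.1` isogenous to some `h i`); for `z ∈ L` let `i z` be the index and `b z ∈ Om q
(h (i z))` with `z.2 ^ M = b z ^ M` for some `M ≥ 1` (transfer), one `M` for all `z ∈ L` (product);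
then also `(q / z.2) ^ M = (q / b z) ^ M`.  So
`(∏_L b z) ^ (N M) = (∏_L (q / b z)) ^ (N M)`, and VAL gives `∑_L sgn P (b z) σ = 0`, i.e.
`∑ i, ∑ a ∈ A i, m i a sgn P a σ = 0` with `m i a` the number of places `z` of `L` with `i z = i`,
`b z = a`.  IND4: `m i (q / a) = m i a`; for `i = i x`, `a = b x` this is `≥ 1`, so there is a place
`z` with `i z = i x`, `b z = q / b x ≠ b x`, hence it is in `l`, and
`(x.2 * z.2) ^ M = (b x * b z) ^ M = q ^ M`.
Second claim: induction on the length of `l`.  By the first claim `l` is not empty and has a partner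
`y`; write `l = s ++ y :: t`.  If `s ++ t` is empty the length is 1.  Else `s ++ t = x' :: l'` and
`(∏_(s ++ t)) ^ (N M) = q ^ k'`, `k' = k M - N M`, so `l'` has odd length by induction, and
`l.length = l'.length + 2`. -/
def S_IND3 : Prop :=
  ∀ (q : ℕ) (P : Ideal Zb) (S : Set ℤ[X]), IsPrimePow q → P.IsPrime →
    ((q.minFac : ℕ) : Zb) ∈ P → S ⊆ FO q → Crit q P S →
    ∀ (l : List (ℤ[X] × Qb)) (x : ℤ[X] × Qb), x.1 ∈ S → x.2 ∈ Om q x.1 →
    (∀ y ∈ l, y.1 ∈ S ∧ y.2 ∈ Om q y.1) → ∀ (N : ℕ) (k : ℤ), 1 ≤ N →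
    (x.2 * (l.map Prod.snd).prod) ^ N = (q : Qb) ^ k →
    (∃ y ∈ l, ∃ M : ℕ, 1 ≤ M ∧ (x.2 * y.2) ^ M = (q : Qb) ^ M) ∧ Odd l.length

/-! ## Exterior algebra: the positive part -/

/-- JB3.  Matching.
PROOF.  Exactly `TJ2/JB.lean` (induction on `j`; the relation for the rest of the list holds with the
exponent `N M`; `map (F ^ M) (e ∧ e') = (lam e * lam e') ^ M • (e ∧ e')`). -/
def S_JB3 : Prop :=
  ∀ (K V : Type) [Field K] [AddCommGroup V] [Module K V] (F : Module.End K V) (E : Set V)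
    (lam : V → K) (c : K), c ≠ 0 → (∀ e ∈ E, F e = lam e • e) →
    (∀ (e : V) (l : List V) (j N : ℕ), e ∈ E → (∀ e' ∈ l, e' ∈ E) → 1 ≤ N →
      (lam e * (l.map lam).prod) ^ N = (c ^ j) ^ N → l.length + 1 = 2 * j →
      ∃ e' ∈ l, ∃ M : ℕ, 1 ≤ M ∧ (lam e * lam e') ^ M = c ^ M) →
    ∀ (l : List V) (j N : ℕ), 1 ≤ N → (∀ e ∈ l, e ∈ E) → l.length = 2 * j →
      ((l.map lam).prod) ^ N = (c ^ j) ^ N →
      (l.map (ExteriorAlgebra.ι K)).prod ∈ Algebra.adjoin K (Deg2g F c)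

/-- PART.  Partners of admissible eigenvalues.  Uses `S_IND3` (import `TJ2.JD`, `TJ2.WEI` if it
exists: `t_WEI : S_WEI`, else take `S_WEI` as a hypothesis).
PROOF.  Embed `Qb` in `K` (`JD_emb`).  An admissible `y` is supersingular (`y ^ (2 N') = q ^ N'`) or
`y ^ N' = r ^ N'`, `r` a root of `weil q h`, `h ∈ S`, so `r = ι a` with `a ∈ Om q h` (`JD_root`,
`S_WEI`).  Take one exponent `N'` for all members of `z :: l`.  Let `r` be the number of members
which are not supersingular, with the elements `a_1, ..., a_r`, and `t = 2 j - r` the number of the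
supersingular ones.  Raising the relation to the power `2 N'`:
`(∏ a_i) ^ (2 N N') * q ^ (N N' t) = q ^ (2 j N N')`, so `(∏ a_i) ^ (2 N N')` is a power of `q`.
If `z` is not supersingular, IND3 gives a partner `a_i` of its element, and
`(z y) ^ (N' M) = (a a_i) ^ (N' M) = q ^ (N' M)`.  If `z` is supersingular: `r` is even (IND3 if
`r ≥ 1`), so `t` is even, and `t ≥ 1`, so there is a supersingular `y ∈ l`, and
`(z y) ^ (2 N') = q ^ (2 N')`. -/
def S_PART : Prop :=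
  ∀ (q : ℕ) (P : Ideal Zb) (S : Set ℤ[X]), IsPrimePow q → P.IsPrime →
    ((q.minFac : ℕ) : Zb) ∈ P → S ⊆ FO q → Crit q P S →
    ∀ (K : Type) [Field K] [IsAlgClosed K] [CharZero K] (z : K) (l : List K),
    Adm q S z → (∀ y ∈ l, Adm q S y) → ∀ j N : ℕ, 1 ≤ N → l.length + 1 = 2 * j →
    (z * l.prod) ^ N = ((q : K) ^ j) ^ N → ∃ y ∈ l, ∃ M : ℕ, 1 ≤ M ∧ (z * y) ^ M = (q : K) ^ M

/-- JG3.  The positive part over an algebraically closed field.  Uses `S_PART`, `S_JB3` and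
`S_JA` of TJ2.
PROOF.  As `TJ2/JG.lean`: `E` the set of the eigenvectors of `F`, which span `V` (`JG_span`),
`lam` the eigenvalue, an admissible number (a root of the characteristic polynomial).  `S_JA` for
`F ^ N` and `lam ^ N` writes `x` as a combination of the products of lists of `2 j` eigenvectors
with `∏ lam ^ N = q ^ (j N)`; JB3 with PART. -/
def S_JG3 : Prop :=
  ∀ (q : ℕ) (P : Ideal Zb) (S : Set ℤ[X]), IsPrimePow q → P.IsPrime →
    ((q.minFac : ℕ) : Zb) ∈ P → S ⊆ FO q → Crit q P S →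
    ∀ (K : Type) [Field K] [IsAlgClosed K] [CharZero K] (V : Type) [AddCommGroup V] [Module K V]
      [Module.Finite K V] (F : Module.End K V), F.IsSemisimple →
      (∀ z : K, F.charpoly.IsRoot z → Adm q S z) →
      ∀ (j N : ℕ) (x : ExteriorAlgebra K V), 1 ≤ N → x ∈ ⋀[K]^(2 * j) V →
        ExteriorAlgebra.map (F ^ N) x = (q : K) ^ (j * N) • x →
        x ∈ Algebra.adjoin K (Deg2g F (q : K))

/-- JF3.  Descent and ascent.
PROOF.  As `TJ2/JF.lean` (`JF_deg2`, `t_JF`; `(F.baseChange L) ^ M = (F ^ M).baseChange L` is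
`LinearMap.baseChange_pow` or `map_pow` for `Module.End.baseChangeHom`).  The second claim: `JF_phi`
maps `Deg2g F c` into `Deg2g (F.baseChange L) c` (`JF_phi_mem`, `JF_phi_map`). -/
def S_JF3 : Prop :=
  ∀ (K L V : Type) [Field K] [Field L] [Algebra K L] [CharZero K] [AddCommGroup V] [Module K V]
    [Module.Finite K V] (F : Module.End K V) (c : K) (x : ExteriorAlgebra K V),
    JF_phi K L V x ∈ Algebra.adjoin L (Deg2g (F.baseChange L : Module.End L (TensorProduct K L V))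
      (algebraMap K L c)) ↔ x ∈ Algebra.adjoin K (Deg2g F c)

/-- POS.  The positive part.  Uses `S_JG3`, `S_JF3` (import `TJ2.JH` for `JH_semisimple`).
PROOF.  As `TJ2/JH.lean`, with `L = AlgebraicClosure K`: `JF_phi x` is in `⋀^(2 j)` and is an
eigenvector of `(F.baseChange L) ^ N` (`JF_phi_mem`, `JF_phi_map`); the characteristic polynomial of
`F.baseChange L` is the one of `F`, mapped (`LinearMap.charpoly_baseChange`). -/
def S_POS : Prop :=
  ∀ (q : ℕ) (P : Ideal Zb) (S : Set ℤ[X]), IsPrimePow q → P.IsPrime →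
    ((q.minFac : ℕ) : Zb) ∈ P → S ⊆ FO q → Crit q P S →
    ∀ (K : Type) [Field K] [CharZero K] (V : Type) [AddCommGroup V] [Module K V]
      [Module.Finite K V] (F : Module.End K V), F.IsSemisimple →
      (∀ z : AlgebraicClosure K, aeval z F.charpoly = 0 → Adm q S z) →
      ∀ (j N : ℕ) (x : ExteriorAlgebra K V), 1 ≤ N → x ∈ ⋀[K]^(2 * j) V →
        ExteriorAlgebra.map (F ^ N) x = (q : K) ^ (j * N) • x →
        x ∈ Algebra.adjoin K (Deg2g F (q : K))

/-! ## Exotic classes: the negative part -/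

/-- EIG.  Independent eigenvectors.
PROOF.  For semisimple `F` the eigenspace of `μ k` is the generalised one
(`Module.End.IsFinitelySemisimple.maxGenEigenspace_eq_eigenspace`), of dimension the multiplicity of
the root `μ k` of the characteristic polynomial (`LinearMap.finrank_maxGenEigenspace_eq`), which is
`≥ e k`.  Choose `e k` linearly independent vectors in each; the eigenspaces are independent
(`Module.End.eigenspaces_iSupIndep`). -/
def S_EIG : Prop :=
  ∀ (L V : Type) [Field L] [AddCommGroup V] [Module L V] [Module.Finite L V]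
    (F : Module.End L V), F.IsSemisimple → ∀ (n : ℕ) (μ : Fin n → L) (e : Fin n → ℕ),
    Function.Injective μ → (∀ k, (X - C (μ k)) ^ e k ∣ F.charpoly) →
    ∃ v : (Σ k : Fin n, Fin (e k)) → V, LinearIndependent L v ∧ ∀ x, F (v x) = μ x.1 • v x

/-- EXL.  The exotic class over an algebraically closed field.  Uses `S_JA` of TJ2.
PROOF.  `x` is the product of all `ι (v y)` in some order (`∑ e k = 2 j` factors); it is not zero
(linear independence; `exteriorPower.ιMulti_family_linearIndependent_field`, or the determinant).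
`map (F ^ N) x = (∏ μ ^ e) ^ N x = c ^ (j N) x`.  For `λ : L` let `τ λ = 2` if `λ ^ M = μ k₀ ^ M` for
some `M ≥ 1`, `τ λ = 1 / 2` if `(λ μ k₀) ^ M = c ^ M` for some `M ≥ 1` (not both:
`(μ k₀ μ k₀) ^ (M M') ≠ c ^ (M M')`), `τ λ = 1` else.  If `(λ λ') ^ M = c ^ M`, `M ≥ 1`, then
`τ λ τ λ' = 1` (multiply exponents; `λ, λ' ≠ 0`).  Let `T = aeval F R`, `R` the Lagrange polynomial
with `R (λ) = τ λ` for the finitely many eigenvalues `λ` of `F`; so `T v = τ λ v` if
`F v = λ v`.  `map T` fixes each `y ∈ Deg2g F c`: by `S_JA` (for `F ^ M` and the set of the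
eigenvectors of `F`, which span, see `JG_span`) `y` is a combination of products of two eigenvectors
with `(λ λ') ^ M = c ^ M`.  So `map T` fixes the subalgebra generated by `Deg2g F c`.
But `map T x = (∏ (τ (μ k)) ^ e k) x = 2 ^ (e k₀) x ≠ x` (for `k ≠ k₀` is `τ (μ k) = 1`). -/
def S_EXL : Prop :=
  ∀ (L V : Type) [Field L] [IsAlgClosed L] [CharZero L] [AddCommGroup V] [Module L V]
    [Module.Finite L V] (F : Module.End L V) (c : L), F.IsSemisimple → c ≠ 0 →
    ∀ (n : ℕ) (μ : Fin n → L) (e : Fin n → ℕ) (k₀ : Fin n) (N j : ℕ)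
      (v : (Σ k : Fin n, Fin (e k)) → V), LinearIndependent L v →
      (∀ x, F (v x) = μ x.1 • v x) → 1 ≤ e k₀ → 1 ≤ N → ∑ k, e k = 2 * j →
      (∏ k, μ k ^ e k) ^ N = (c ^ j) ^ N →
      (∀ k, k ≠ k₀ → ∀ M : ℕ, 1 ≤ M → μ k ^ M ≠ μ k₀ ^ M) →
      (∀ k, ∀ M : ℕ, 1 ≤ M → (μ k * μ k₀) ^ M ≠ c ^ M) →
      ∃ x : ExteriorAlgebra L V, x ∈ ⋀[L]^(2 * j) V ∧
        ExteriorAlgebra.map (F ^ N) x = c ^ (j * N) • x ∧ x ∉ Algebra.adjoin L (Deg2g F c)

/-- EXK.  Exotic classes descend.  Uses `S_JF3`.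
PROOF.  Let `Φ : L ⊗ ⋀_K V → ⋀_L (L ⊗ V)`, `l ⊗ x ↦ l • JF_phi x`
(`Algebra.TensorProduct.lift`); it is a left inverse of `JF_theta` (both are algebra homomorphisms
over `L`; check on generators `ι (l ⊗ v)`).  Let `y` be the given class, `t = JF_theta y`.  Its
coordinates `JF_co b i t` lie in `⋀[K]^(2 j) V` (compare `JF_theta_two`) and satisfy
`map (F ^ N) x = c ^ (j N) x` (`JF_theta_map`, `JF_co_map`).  If all of them were in
`Algebra.adjoin K (Deg2g F c)`, then `t` would be in the base change of this subalgebra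
(`JF_co_mem`), a combination of `l ⊗ x`, and `y = Φ t` a combination of the `l • JF_phi x`, which
are in `Algebra.adjoin L (Deg2g ...)` by JF3, contradiction.  So some coordinate is exotic. -/
def S_EXK : Prop :=
  ∀ (K L V : Type) [Field K] [Field L] [Algebra K L] [CharZero K] [AddCommGroup V] [Module K V]
    [Module.Finite K V] (F : Module.End K V) (c : K) (j N : ℕ),
    (∃ y : ExteriorAlgebra L (TensorProduct K L V), y ∈ ⋀[L]^(2 * j) (TensorProduct K L V) ∧
      ExteriorAlgebra.map ((F.baseChange L : Module.End L (TensorProduct K L V)) ^ N) y =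
        (algebraMap K L c) ^ (j * N) • y ∧
      y ∉ Algebra.adjoin L (Deg2g (F.baseChange L : Module.End L (TensorProduct K L V))
        (algebraMap K L c))) →
    ∃ x : ExteriorAlgebra K V, x ∈ ⋀[K]^(2 * j) V ∧
      ExteriorAlgebra.map (F ^ N) x = c ^ (j * N) • x ∧ x ∉ Algebra.adjoin K (Deg2g F c)

/-- NEG.  Data give exotic classes.  Uses `S_EIG`, `S_EXL`, `S_EXK`, and `S_WEI` of TJ2 (import
`TJ2.JH` for `JH_semisimple`, `TJ2.JD` for `JD_emb`).
PROOF.  Take the `n`, `h` of the data and the exponents `2 e k`.  Let `L = AlgebraicClosure K`, `ι` an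
embedding of `Qb` in `L`, `μ k = ι (r k)`.  `X - μ k` divides `weil q (h k)` (`S_WEI`), so
`(X - μ k) ^ (2 e k)` divides the characteristic polynomial, and the `μ k` are different
(`M = 1`).  EIG gives the vectors.  `∑ 2 e k = 2 j` with `j = ∑ e k`, and
`(∏ μ ^ (2 e)) ^ N = (∏ r ^ e) ^ N (∏ (q / r) ^ e) ^ N = q ^ (j N)`.  EXL (`k₀` with `e k₀ ≥ 1`),
EXK. -/
def S_NEG : Prop :=
  ∀ (q : ℕ) (S : Set ℤ[X]), IsPrimePow q → S ⊆ FO q → HasData q S →
    ∃ (n : ℕ) (h : Fin n → ℤ[X]) (e : Fin n → ℕ), (∀ k, h k ∈ S) ∧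
      ∀ (K : Type) [Field K] [CharZero K] (V : Type) [AddCommGroup V] [Module K V]
        [Module.Finite K V] (F : Module.End K V), F.IsSemisimple →
        F.charpoly = ∏ k, ((weil q (h k)).map (Int.castRingHom K)) ^ e k →
        ∃ (j N : ℕ) (x : ExteriorAlgebra K V), 1 ≤ N ∧ x ∈ ⋀[K]^(2 * j) V ∧
          ExteriorAlgebra.map (F ^ N) x = (q : K) ^ (j * N) • x ∧
          x ∉ Algebra.adjoin K (Deg2g F (q : K))

/-! ## When the criterion holds or fails -/

/-- E1.  Dependent sign vectors give data.  Uses `S_SGB`, `S_UNI`, `S_GIS`.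
PROOF.  There are integers `c i`, not all zero, with `∑ c i sgn P (a i) = 0` (clear denominators).
Let `e i = |c i|` and `r i = a i` if `c i ≥ 0`, `r i = q / a i` else (`sgn P (q / a) = - sgn P a`):
`∑ e i sgn P (r i) σ = 0` for all `σ`.  UNI for the list with `e i` copies of `r i` for all `i`
gives the relation.  `r i ^ M = r j ^ M` or `(r i * r j) ^ M = q ^ M` (i.e.
`r i ^ M = (q / r j) ^ M`) with `i ≠ j` would be a `GIso` of `h i` and `h j`;
`(r i * r i) ^ M = q ^ M` would give `r i = q / r i` (`S_GIS`, second claim), impossible (then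
`sgn P (r i) = - sgn P (r i)`, `S_SGB`). -/
def S_E1 : Prop :=
  ∀ (q : ℕ) (P : Ideal Zb) (S : Set ℤ[X]), IsPrimePow q → P.IsPrime →
    ((q.minFac : ℕ) : Zb) ∈ P → S ⊆ FO q →
    ∀ (n : ℕ) (h : Fin n → ℤ[X]) (a : Fin n → Qb), (∀ i, h i ∈ S ∧ a i ∈ Om q (h i)) →
    (∀ i j, i ≠ j → ¬ GIso q (h i) (h j)) → ¬ LinearIndependent ℚ (fun i => sgn P (a i)) →
    HasData q S

/-- E2.  Three surfaces with the same splitting field give data.  Uses `S_SGB`, `S_UNI`, `S_GIS`,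
`S_GAL` (import `TJ2.OMB`, `TJ2.FULC`).
PROOF.  `Om q (h i)` has 4 elements; let `a_i ∈ Om q (h i)` and `b_i ∈ Om q (h i)` different from
`a_i`, `q / a_i`.  Claim: there are integers `c_i, d_i`, not all zero, with
`∑_i (c_i sgn P a_i + d_i sgn P b_i) = 0`.  Let `f ∈ Γ` with `f a_1 = a_1`, `f b_1 = q / b_1`, and
`w ∈ Γ` with `w a_1 = b_1`, `w b_1 = a_1` (definition of `Full` of `h₁`; for `f` see `S_FULC`).  The
6 unknowns can be chosen such that the 4 linear equations at `σ = 1, f, w, w f` hold (more unknowns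
than equations; clear denominators).  Each `σ ∈ Γ` acts on `Om q h₁` (and so by the equality of the
splitting fields and GAL on all `Om q (h i)`) like one of `1, f, w, w f` or like `κ` times one of
them, where `κ ∈ Γ` has `κ a = q / a` for `a ∈ Om q h₁`: indeed `(σ a_1, σ b_1)` is
`(x, y)` with `x = ±a_1, y = ±b_1` or `x = ±b_1, y = ±a_1` (`±` for `a` or `q / a`), and
`1 : (a, b)`, `f : (a, -b)`, `w : (b, a)`, `w f : (b, -a)`.  And `κ a = q / a` for all
`a ∈ Om q (h i)`: choose `κ` a complex conjugation, i.e. an element of `Γ` with `κ a = q / a` for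
all `a ∈ Om q h`, `h ∈ FO q` (complex conjugation on the image of `Qb` in `ℂ` under an embedding;
`S_EMB`).  If `σ` and `τ` act in the same way on all `Om q (h i)` the sums at `σ`, `τ` are equal, and
the sum at `κ τ` is minus the sum at `τ` (`κ τ a = q / τ a`, SGB).  So the equations hold for all `σ`.
Now as in E1 with `n = 6`: `e = |c|`, `r = a_i` or `q / a_i`.  Inside one `h i`:
`r ^ M = r' ^ M` or `(r r') ^ M = q ^ M` for `r = a_i^±`, `r' = b_i^±` contradicts the first two claims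
of `S_GIS`; between different ones it contradicts `¬ GIso`. -/
def S_E2 : Prop :=
  ∀ (q : ℕ) (P : Ideal Zb), IsPrimePow q → P.IsPrime → ((q.minFac : ℕ) : Zb) ∈ P →
    ∀ h₁ ∈ FO q, ∀ h₂ ∈ FO q, ∀ h₃ ∈ FO q, h₁.natDegree = 2 → h₂.natDegree = 2 →
    h₃.natDegree = 2 → ¬ GIso q h₁ h₂ → ¬ GIso q h₁ h₃ → ¬ GIso q h₂ h₃ →
    adjoin ℚ (Om q h₁) = adjoin ℚ (Om q h₂) → adjoin ℚ (Om q h₁) = adjoin ℚ (Om q h₃) →
    HasData q {h₁, h₂, h₃}

/-- THR.  Three functions with values `± 1`.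
PROOF.  `n ≤ 1`: a function with values `± 1` is not zero.  `n = 2`: `c₁ s₁ + c₂ s₂ = 0` with, say,
`c₁ ≠ 0`: `|c₁| = |c₂|`, `s₁ = ± s₂`, contradiction.  `n = 3`: `∑ c_i s_i = 0`; if all `c_i ≠ 0`:
at a place where `s₁ = s₂` (exists, as `s₁ ≠ - s₂`) `|c₃| = |c₁ + c₂|`, at a place where
`s₁ = - s₂` `|c₃| = |c₁ - c₂|`, so `(c₁ + c₂) ^ 2 = (c₁ - c₂) ^ 2`, `c₁ c₂ = 0`, contradiction.  If
some `c_i = 0` it is the case `n = 2`. -/
def S_THR : Prop :=
  ∀ (G : Type) (n : ℕ) (s : Fin n → G → ℚ), n ≤ 3 → Nonempty G →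
    (∀ i g, s i g = 1 ∨ s i g = -1) → (∀ i j, i ≠ j → s i ≠ s j ∧ s i ≠ - s j) →
    LinearIndependent ℚ s

/-- C3.  A simple sufficient condition.  Uses `S_SGB`, `S_UNI`, `S_THR`.
PROOF.  `surfaces` is assumed.  `signs`: a family with `n ≥ 4` would contain (the first four
members) a family as in the first hypothesis, pairwise not isogenous, contradiction.  For `n ≤ 3`
use THR: if `sgn P (a i) = sgn P (a j)`, `i ≠ j`, then the sum of the signs of the list
`[a i, q / a j]` is 0, so UNI: `(a i * (q / a j)) ^ N = ((q / a i) * (q / (q / a j))) ^ N`, i.e.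
`(a i) ^ (2 N) = (a j) ^ (2 N)`, a `GIso`.  If `sgn P (a i) = - sgn P (a j)` use `[a i, a j]`:
`(a i) ^ (2 N) = (q / a j) ^ (2 N)`, again a `GIso` (`q / a j ∈ Om q (h j)`). -/
def S_C3 : Prop :=
  ∀ (q : ℕ) (P : Ideal Zb) (S : Set ℤ[X]), IsPrimePow q → P.IsPrime →
    ((q.minFac : ℕ) : Zb) ∈ P → S ⊆ FO q →
    (∀ (h : Fin 4 → ℤ[X]) (a : Fin 4 → Qb), (∀ i, h i ∈ S ∧ a i ∈ Om q (h i)) →
      (∀ i j, ℚ⟮a i⟯ = ℚ⟮a j⟯) → ∃ i j, i ≠ j ∧ GIso q (h i) (h j)) →
    (∀ h₁ ∈ S, ∀ h₂ ∈ S, ∀ h₃ ∈ S, h₁.natDegree = 2 → h₂.natDegree = 2 →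
      h₃.natDegree = 2 → ¬ GIso q h₁ h₂ → ¬ GIso q h₁ h₃ → ¬ GIso q h₂ h₃ →
      ¬ (adjoin ℚ (Om q h₁) = adjoin ℚ (Om q h₂) ∧ adjoin ℚ (Om q h₁) = adjoin ℚ (Om q h₃))) →
    Crit q P S

/-- SEL.  The density one set `Sel q` satisfies the criterion.  Uses `S_SGB`, `S_GIS`, `S_E2`, and
`S_IND` of TJ2.
PROOF.  `signs`: if `i ≠ j`, then by the first condition in `Sel` (for `h i`, `a i`, `h j`, `a j`)
`h j = h i` or `h j = tw (h i)`, so `GIso` (`S_GIS`), contradiction.  So `n ≤ 1`, and one sign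
vector is not zero.  `surfaces`: E2 gives `HasData q {h₁, h₂, h₃}`, all three in `Sel q`.  Apply
`S_IND` to the list with `e k` copies of `(h k, r k)`: no member is the twist of a member
(`h ≠ tw h` by `S_GIS`; if `h i = tw (h j)` for different ones of the three, then `GIso`); the
product of all `r` is `ρ = ∏ r ^ e` with `ρ ^ (2 N) = (∏ r ^ e ∏ (q / r) ^ e) ^ N = q ^ (N ∑ e)`.
So `(h k₀, r k₀)` and `(h k₀, q / r k₀)` occur with the same multiplicity, for `e k₀ ≥ 1` this is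
`≥ 1`, so `q / r k₀ = r k` for some `k`, contradicting the last condition of the data
(`M = 1`). -/
def S_SEL : Prop :=
  ∀ (q : ℕ) (P : Ideal Zb), IsPrimePow q → P.IsPrime → ((q.minFac : ℕ) : Zb) ∈ P →
    Crit q P (Sel q)

end

end Pool.Agent.TJ3
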