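import Pool.Agent.TJ3.St

/-!
# THR: three functions with values 1 and -1
-/

set_option autoImplicit false

namespace Pool.Agent.TJ3

namespace THR_aux

variable {G : Type}

lemma prop {s t : G → ℚ} (hs : ∀ g, s g = 1 ∨ s g = -1) (ht : ∀ g, t g = 1 ∨ t g = -1) {c d : ℚ}
    (hc : c ≠ 0) (h : ∀ g, c * s g + d * t g = 0) : s = t ∨ s = -t := by
  by_cases hG : ∃ g, s g = t g
  · obtain ⟨g, hg⟩ := hG
    have h1 : c + d = 0 := by
      have h2 := h g
      rw [hg] at h2
      rcases ht g with h3 | h3 <;> rw [h3] at h2 <;> linarith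
    left
    funext x
    have h2 := h x
    have h3 : c * (s x - t x) = 0 := by
      have : d = -c := by linarith
      rw [this] at h2
      linarith
    exact sub_eq_zero.1 ((mul_eq_zero.1 h3).resolve_left hc)
  · right
    push Not at hG
    funext x
    have h1 := hG x
    rw [Pi.neg_apply]
    rcases hs x with h2 | h2 <;> rcases ht x with h3 | h3 <;> rw [h2, h3] at h1 ⊢
    · exact absurd rfl h1
    · norm_num
    · exact absurd rfl h1

lemma three {s t u : G → ℚ} (hs : ∀ g, s g = 1 ∨ s g = -1) (ht : ∀ g, t g = 1 ∨ t g = -1)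
    (hu : ∀ g, u g = 1 ∨ u g = -1) (h1 : s ≠ t) (h2 : s ≠ -t) {c d e : ℚ} (hc : c ≠ 0)
    (hd : d ≠ 0) (h : ∀ g, c * s g + d * t g + e * u g = 0) : False := by
  obtain ⟨g, hg⟩ : ∃ g, s g = t g := by
    by_contra hG
    push Not at hG
    apply h2
    funext x
    have h1 := hG x
    rw [Pi.neg_apply]
    rcases hs x with h2 | h2 <;> rcases ht x with h3 | h3 <;> rw [h2, h3] at h1 ⊢
    · exact absurd rfl h1
    · norm_num
    · exact absurd rfl h1
  obtain ⟨g', hg'⟩ : ∃ g, s g = - t g := by
    by_contra hG
    push Not at hG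
    apply h1
    funext x
    have h1 := hG x
    rcases hs x with h2 | h2 <;> rcases ht x with h3 | h3 <;> rw [h2, h3] at h1 ⊢
    · exact absurd (by norm_num) h1
    · exact absurd (by norm_num) h1
  have e1 : (c + d) ^ 2 = e ^ 2 := by
    have h3 := h g
    rw [hg] at h3
    have h4 : (c + d) * t g = - (e * u g) := by linarith
    have h5 : ((c + d) * t g) ^ 2 = (e * u g) ^ 2 := by rw [h4]; ring
    rcases ht g with h6 | h6 <;> rcases hu g with h7 | h7 <;> rw [h6, h7] at h5 <;> linarith
  have e2 : (c - d) ^ 2 = e ^ 2 := by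
    have h3 := h g'
    rw [hg'] at h3
    have h4 : (c - d) * t g' = e * u g' := by linarith
    have h5 : ((c - d) * t g') ^ 2 = (e * u g') ^ 2 := by rw [h4]
    rcases ht g' with h6 | h6 <;> rcases hu g' with h7 | h7 <;> rw [h6, h7] at h5 <;> linarith
  have e3 : c * d = 0 := by linarith
  rcases mul_eq_zero.1 e3 with h3 | h3
  · exact hc h3
  · exact hd h3

end THR_aux

open THR_aux in
theorem t_THR : S_THR := by
  intro G n s hn hG hs hd
  have hne : ∀ i, ∀ c : ℚ, (∀ g, c * s i g = 0) → c = 0 := by
    intro i c h
    obtain ⟨g⟩ := hG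
    have h1 := h g
    rcases hs i g with h2 | h2 <;> rw [h2] at h1 <;> linarith
  rw [Fintype.linearIndependent_iff]
  intro c hc
  have hc' : ∀ g, ∑ i, c i * s i g = 0 := by
    intro g
    have := congrFun hc g
    simpa [Finset.sum_apply] using this
  interval_cases n
  · intro i
    exact i.elim0
  · intro i
    have : i = 0 := Subsingleton.elim _ _
    subst this
    apply hne 0
    intro g
    have := hc' g
    simpa using this
  · have h01 : ∀ g, c 0 * s 0 g + c 1 * s 1 g = 0 := by
      intro g
      have := hc' g
      rw [Fin.sum_univ_two] at this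
      exact this
    have h0 : c 0 = 0 := by
      by_contra h0
      rcases prop (hs 0) (hs 1) h0 h01 with h | h
      · exact (hd 0 1 (by decide)).1 h
      · exact (hd 0 1 (by decide)).2 h
    have h1 : c 1 = 0 := by
      apply hne 1
      intro g
      have := h01 g
      rw [h0] at this
      linarith
    intro i
    fin_cases i
    · exact h0
    · exact h1
  · have h3 : ∀ g, c 0 * s 0 g + c 1 * s 1 g + c 2 * s 2 g = 0 := by
      intro g
      have := hc' g
      rw [Fin.sum_univ_three] at this
      exact this
    have h0 : c 0 = 0 := by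
      by_contra h0
      by_cases h1 : c 1 = 0
      · rcases prop (d := c 2) (hs 0) (hs 2) h0 (fun g => by
          have := h3 g
          rw [h1] at this
          linarith) with h | h
        · exact (hd 0 2 (by decide)).1 h
        · exact (hd 0 2 (by decide)).2 h
      · exact three (hs 0) (hs 1) (hs 2) (hd 0 1 (by decide)).1 (hd 0 1 (by decide)).2 h0 h1 h3
    have h1 : c 1 = 0 := by
      by_contra h1
      rcases prop (d := c 2) (hs 1) (hs 2) h1 (fun g => by
          have := h3 g
          rw [h0] at this
          linarith) with h | h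
      · exact (hd 1 2 (by decide)).1 h
      · exact (hd 1 2 (by decide)).2 h
    have h2 : c 2 = 0 := by
      apply hne 2
      intro g
      have := h3 g
      rw [h0, h1] at this
      linarith
    intro i
    fin_cases i
    · exact h0
    · exact h1
    · exact h2

end Pool.Agent.TJ3
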