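import Pool.Agent.TJ3.VAL
import Pool.Agent.TJ2.EMB

/-!
# UNI: a relation of the signs gives a multiplicative relation
-/

set_option autoImplicit false

open Polynomial IntermediateField

namespace Pool.Agent.TJ3

open Pool.Agent.TJ2 VAL_aux

namespace UNI_aux

/-- the ideal of the `s` with `Y ∣ s X` -/
def I (X Y : Zb) : Ideal Zb where
  carrier := {s | Y ∣ s * X}
  zero_mem' := by simp
  add_mem' := by
    intro a b ha hb
    show Y ∣ (a + b) * X
    rw [add_mul]
    exact dvd_add ha hb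
  smul_mem' := by
    intro c a ha
    show Y ∣ (c • a) * X
    rw [smul_eq_mul, mul_assoc]
    exact Dvd.dvd.mul_left ha c

lemma mem_I (X Y s : Zb) : s ∈ I X Y ↔ Y ∣ s * X := Iff.rfl

lemma prod_mul {q : ℕ} (hq : IsPrimePow q) (l : List Qb) (hl : ∀ a ∈ l, G q a) :
    (l.map toZ).prod * (l.map fun a => toZ ((q : Qb) / a)).prod = (q : Zb) ^ l.length := by
  induction l with
  | nil => simp
  | cons a l ih =>
    have ha := hl a List.mem_cons_self
    have h1 := ih fun b hb => hl b (List.mem_cons_of_mem _ hb)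
    have h2 : toZ a * toZ ((q : Qb) / a) = (q : Zb) := by
      apply Subtype.ext
      rw [MulMemClass.coe_mul, toZ_coe (G_int hq ha), toZ_coe (G_int hq (G_bar hq ha)),
        mul_div_cancel₀ _ (G_ne ha)]
      simp
    rw [List.map_cons, List.map_cons, List.prod_cons, List.prod_cons, List.length_cons, pow_succ,
      ← h1, ← h2]
    ring

lemma norm_prod {q : ℕ} (hq : IsPrimePow q) (ι : Qb →+* ℂ) (l : List Qb) (hl : ∀ a ∈ l, G q a) :
    ‖ι l.prod‖ = ‖ι (l.map fun a => (q : Qb) / a).prod‖ := by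
  induction l with
  | nil => simp
  | cons a l ih =>
    have ha := hl a List.mem_cons_self
    have h1 := ih fun b hb => hl b (List.mem_cons_of_mem _ hb)
    obtain ⟨h, hh, hah⟩ := ha
    have h2 := (t_EMB h.natDegree q h hq.one_lt.le hh.2.1.1 a hah ι).2.1
    rw [List.prod_cons, List.map_cons, List.prod_cons, map_mul, map_mul, norm_mul, norm_mul, h1, h2,
      RCLike.norm_conj]

lemma sgn_move {p : ℕ} {P P' : Ideal Zb} {τ : Qb ≃ₐ[ℚ] Qb}
    (h : ∀ x y : Zb, (y : Qb) = τ x → (x ∈ P ↔ y ∈ P')) (a : Qb) :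
    sgn P' a 1 = sgn P a τ⁻¹ := by
  unfold sgn
  have h1 : (∃ x ∈ P', (x : Qb) = (1 : Qb ≃ₐ[ℚ] Qb) a) ↔ (∃ x ∈ P, (x : Qb) = τ⁻¹ a) := by
    constructor
    · rintro ⟨y, hy, hya⟩
      have hya' : (y : Qb) = a := hya
      have hint : IsIntegral ℤ (τ⁻¹ a) := by
        rw [← hya']
        exact y.2.map (τ⁻¹ : Qb ≃ₐ[ℚ] Qb)
      refine ⟨⟨τ⁻¹ a, hint⟩, (h ⟨τ⁻¹ a, hint⟩ y ?_).2 hy, rfl⟩
      show (y : Qb) = τ (τ⁻¹ a)
      rw [hya']
      exact (AlgEquiv.apply_symm_apply τ a).symm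
    · rintro ⟨x, hx, hxa⟩
      have hint : IsIntegral ℤ a := by
        have h2 : a = τ x := by
          rw [hxa]
          exact (AlgEquiv.apply_symm_apply τ a).symm
        rw [h2]
        exact x.2.map τ
      refine ⟨⟨a, hint⟩, (h x ⟨a, hint⟩ ?_).1 hx, rfl⟩
      show a = τ x
      rw [hxa]
      exact (AlgEquiv.apply_symm_apply τ a).symm
  by_cases h2 : ∃ x ∈ P, (x : Qb) = τ⁻¹ a
  · rw [if_pos h2, if_pos (h1.2 h2)]
  · rw [if_neg h2, if_neg (fun h3 => h2 (h1.1 h3))]

end UNI_aux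

open UNI_aux in
theorem t_UNI (hSGB : S_SGB) (hTRN : S_TRN) (hKRO : S_KRO) : S_UNI := by
  intro q P hq hP hp l hl hsum
  have hq0 := q_ne hq
  obtain ⟨hc1, hc2⟩ := prod_coe hq l hl
  obtain ⟨hn1, hn2⟩ := prod_ne hq l hl
  have hmul := prod_mul hq l hl
  set X := (l.map toZ).prod with hX
  set Y := (l.map fun a => toZ ((q : Qb) / a)).prod with hY
  have hpow := hq.minFac_pow_factorization_eq
  have hdiv : Y ∣ X := by
    have h1 : I X Y = ⊤ := by
      by_contra hne
      obtain ⟨M, hM, hIM⟩ := Ideal.exists_le_maximal _ hne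
      have hMp := hM.isPrime
      have hpM : ((q.minFac : ℕ) : Zb) ∈ M := by
        have h2 : Y ∈ M := hIM ((mem_I X Y Y).2 (Dvd.intro X rfl))
        have h3 : (q : Zb) ^ l.length ∈ M := by
          rw [← hmul]
          exact M.mul_mem_left _ h2
        have h4 : (q : Zb) ∈ M := hMp.mem_of_pow_mem _ h3
        have h5 : ((q.minFac : ℕ) : Zb) ^ (q.factorization q.minFac) ∈ M := by
          rw [← Nat.cast_pow, hpow]
          exact h4
        exact hMp.mem_of_pow_mem _ h5
      obtain ⟨τ, hτ⟩ := hTRN q.minFac P M (Nat.minFac_prime hq.one_lt.ne') hP hMp hp hpM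
      obtain ⟨u, v, m, n, hu, hv, huv, hs⟩ := key hSGB hq hMp hpM l hl
      have h6 : (l.map fun a => sgn M a 1).sum = 0 := by
        rw [← hsum τ⁻¹]
        congr 1
        apply List.map_congr_left
        intro a _
        exact sgn_move (p := 0) hτ a
      rw [h6] at hs
      have hnm : n = m := by
        have : (n : ℚ) = m := by linarith
        exact_mod_cast this
      rw [hnm] at huv
      have h7 : u * X = v * Y := mul_right_cancel₀ (pow_ne_zero m hq0) huv
      apply hu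
      apply hIM
      rw [mem_I, h7]
      exact Dvd.intro_left v rfl
    have h2 : (1 : Zb) ∈ I X Y := by
      rw [h1]
      trivial
    rw [mem_I, one_mul] at h2
    exact h2
  obtain ⟨w, hw⟩ := hdiv
  have hw' : l.prod = (l.map fun a => (q : Qb) / a).prod * (w : Qb) := by
    rw [← hc1, ← hc2, hw]
    simp
  obtain ⟨N, hN, hwN⟩ := hKRO (w : Qb) w.2 (by
    intro ι
    have h1 := norm_prod hq ι l hl
    rw [hw', map_mul, norm_mul] at h1
    have h2 : ‖ι (l.map fun a => (q : Qb) / a).prod‖ ≠ 0 := by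
      rw [norm_ne_zero_iff]
      intro h3
      exact hn2 (by rwa [map_eq_zero] at h3)
    have h3 : ‖ι (l.map fun a => (q : Qb) / a).prod‖ * ‖ι (w : Qb)‖ =
      ‖ι (l.map fun a => (q : Qb) / a).prod‖ * 1 := by rw [mul_one]; exact h1
    exact mul_left_cancel₀ h2 h3)
  refine ⟨N, hN, ?_⟩
  rw [hw', mul_pow, hwN, mul_one]

end Pool.Agent.TJ3
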