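import Pool.Agent.TJ3.St
import Pool.Agent.TJ2.OMB

/-!
# VAL: a multiplicative relation gives a relation of the signs
-/

set_option autoImplicit false

open Polynomial IntermediateField

namespace Pool.Agent.TJ3

open Pool.Agent.TJ2

namespace VAL_aux

open Classical in
/-- an algebraic integer as an element of `Zb` -/
noncomputable def toZ (a : Qb) : Zb := if h : IsIntegral ℤ a then ⟨a, h⟩ else 0

lemma toZ_coe {a : Qb} (h : IsIntegral ℤ a) : (toZ a : Qb) = a := by
  unfold toZ
  rw [dif_pos h]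

/-- the elements of the sets `Om q h` -/
def G (q : ℕ) (a : Qb) : Prop := ∃ h ∈ FO q, a ∈ Om q h

lemma G_ne {q : ℕ} {a : Qb} (h : G q a) : a ≠ 0 := by
  obtain ⟨h, _, ha⟩ := h
  exact ha.1

lemma G_int {q : ℕ} (hq : IsPrimePow q) {a : Qb} (h : G q a) : IsIntegral ℤ a := by
  obtain ⟨h, hh, ha⟩ := h
  exact ((t_OMB h.natDegree q h hq.one_lt.le hh.2.1.1.1 rfl).2.1 a ha).2.1

lemma G_bar {q : ℕ} (hq : IsPrimePow q) {a : Qb} (h : G q a) : G q ((q : Qb) / a) := by
  obtain ⟨h, hh, ha⟩ := h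
  exact ⟨h, hh, ((t_OMB h.natDegree q h hq.one_lt.le hh.2.1.1.1 rfl).2.1 a ha).1⟩

lemma G_act {q : ℕ} (hq : IsPrimePow q) {a : Qb} (h : G q a) (σ : Qb ≃ₐ[ℚ] Qb) : G q (σ a) := by
  obtain ⟨h, hh, ha⟩ := h
  exact ⟨h, hh, (t_OMB h.natDegree q h hq.one_lt.le hh.2.1.1.1 rfl).2.2.1 a ha σ⟩

/-- the products of the integers and their conjugates, up to units at `P` -/
lemma key (hSGB : S_SGB) {q : ℕ} (hq : IsPrimePow q) {P : Ideal Zb} (hP : P.IsPrime)
    (hp : ((q.minFac : ℕ) : Zb) ∈ P) (l : List Qb) (hl : ∀ a ∈ l, G q a) :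
    ∃ (u v : Zb) (m n : ℕ), u ∉ P ∧ v ∉ P ∧
      u * (l.map toZ).prod * (q : Zb) ^ n = v * (l.map fun a => toZ ((q : Qb) / a)).prod * (q : Zb) ^ m ∧
      (l.map fun a => sgn P a 1).sum = (n : ℚ) - m := by
  classical
  induction l with
  | nil =>
    refine ⟨1, 1, 0, 0, ?_, ?_, by simp, by simp⟩
    · exact (Ideal.ne_top_iff_one P).1 hP.ne_top
    · exact (Ideal.ne_top_iff_one P).1 hP.ne_top
  | cons a l ih =>
    obtain ⟨u, v, m, n, hu, hv, huv, hs⟩ := ih fun b hb => hl b (List.mem_cons_of_mem _ hb)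
    have ha : G q a := hl a List.mem_cons_self
    have ha' := ha
    obtain ⟨h, hh, hah⟩ := ha'
    have h1 := (hSGB q P h a hq hP hp hh hah).2 (toZ a) (toZ ((q : Qb) / a))
      (toZ_coe (G_int hq ha)) (toZ_coe (G_int hq (G_bar hq ha)))
    obtain ⟨hxy, hcase⟩ := h1
    have hsg : sgn P a 1 = if toZ a ∈ P then -1 else 1 := by
      unfold sgn
      by_cases h3 : toZ a ∈ P
      · rw [if_pos h3, if_pos ⟨toZ a, h3, by rw [toZ_coe (G_int hq ha)]; rfl⟩]
      · rw [if_neg h3, if_neg]
        rintro ⟨x, hx, hx'⟩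
        apply h3
        have : toZ a = x := by
          apply Subtype.ext
          rw [toZ_coe (G_int hq ha), hx']
          rfl
        rw [this]
        exact hx
    rw [List.map_cons, List.map_cons, List.map_cons, List.prod_cons, List.prod_cons,
      List.sum_cons, hsg, hs]
    set x := toZ a with hx
    set y := toZ ((q : Qb) / a) with hy
    set X := (l.map toZ).prod with hX
    set Y := (l.map fun a => toZ ((q : Qb) / a)).prod with hY
    rcases hcase with ⟨hxP, hyP⟩ | ⟨hxP, hyP⟩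
    · refine ⟨u * y ^ 2, v, m + 1, n, ?_, hv, ?_, ?_⟩
      · intro h3
        rcases hP.mem_or_mem h3 with h4 | h4
        · exact hu h4
        · exact hyP (hP.mem_of_pow_mem _ h4)
      · have e1 : u * y ^ 2 * (x * X) * (q : Zb) ^ n = (x * y) * y * (u * X * (q : Zb) ^ n) := by
          ring
        rw [e1, huv, hxy]
        ring
      · rw [if_pos hxP]
        push_cast
        ring
    · refine ⟨u, v * x ^ 2, m, n + 1, hu, ?_, ?_, ?_⟩
      · intro h3
        rcases hP.mem_or_mem h3 with h4 | h4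
        · exact hv h4
        · exact hxP (hP.mem_of_pow_mem _ h4)
      · have e1 : v * x ^ 2 * (y * Y) * (q : Zb) ^ m = (x * y) * x * (v * Y * (q : Zb) ^ m) := by
          ring
        rw [e1, ← huv, hxy]
        ring
      · rw [if_neg hxP]
        push_cast
        ring

lemma prod_coe {q : ℕ} (hq : IsPrimePow q) (l : List Qb) (hl : ∀ a ∈ l, G q a) :
    ((l.map toZ).prod : Qb) = l.prod ∧
    ((l.map fun a => toZ ((q : Qb) / a)).prod : Qb) = (l.map fun a => (q : Qb) / a).prod := by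
  induction l with
  | nil => simp
  | cons a l ih =>
    have ha := hl a List.mem_cons_self
    obtain ⟨h1, h2⟩ := ih fun b hb => hl b (List.mem_cons_of_mem _ hb)
    constructor
    · rw [List.map_cons, List.prod_cons, List.prod_cons, ← h1, MulMemClass.coe_mul,
        toZ_coe (G_int hq ha)]
    · rw [List.map_cons, List.map_cons, List.prod_cons, List.prod_cons, ← h2, MulMemClass.coe_mul,
        toZ_coe (G_int hq (G_bar hq ha))]

lemma prod_ne {q : ℕ} (hq : IsPrimePow q) (l : List Qb) (hl : ∀ a ∈ l, G q a) :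
    l.prod ≠ 0 ∧ (l.map fun a => (q : Qb) / a).prod ≠ 0 := by
  induction l with
  | nil => simp
  | cons a l ih =>
    have ha := hl a List.mem_cons_self
    obtain ⟨h1, h2⟩ := ih fun b hb => hl b (List.mem_cons_of_mem _ hb)
    constructor
    · rw [List.prod_cons]
      exact mul_ne_zero (G_ne ha) h1
    · rw [List.map_cons, List.prod_cons]
      exact mul_ne_zero (G_ne (G_bar hq ha)) h2

lemma q_mem {q : ℕ} (hq : IsPrimePow q) {P : Ideal Zb} (hp : ((q.minFac : ℕ) : Zb) ∈ P) :
    ((q : ℕ) : Zb) ∈ P := by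
  obtain ⟨k, hk⟩ := Nat.minFac_dvd q
  rw [hk]
  push_cast
  exact P.mul_mem_right _ hp

lemma q_ne {q : ℕ} (hq : IsPrimePow q) : ((q : ℕ) : Zb) ≠ 0 := by
  have : q ≠ 0 := by
    have := hq.one_lt
    omega
  intro h
  apply this
  have h1 := congrArg (Subtype.val) h
  have h2 : ((q : ℕ) : Qb) = 0 := by simpa using h1
  exact_mod_cast h2

end VAL_aux

open VAL_aux in
theorem t_VAL (hSGB : S_SGB) : S_VAL := by
  intro q P hq hP hp l hl N hN hrel σ
  let l' : List Qb := l.map σ
  have hl' : ∀ a ∈ l', G q a := by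
    intro a ha
    obtain ⟨b, hb, rfl⟩ := List.mem_map.1 ha
    exact G_act hq (hl b hb) σ
  obtain ⟨u, v, m, n, hu, hv, huv, hs⟩ := key hSGB hq hP hp l' hl'
  have hrel' : l'.prod ^ N = ((l'.map fun a => (q : Qb) / a).prod) ^ N := by
    have h1 := congrArg σ hrel
    rw [map_pow, map_pow, map_list_prod, map_list_prod] at h1
    rw [h1]
    congr 2
    rw [List.map_map, List.map_map]
    apply List.map_congr_left
    intro a _
    simp
  obtain ⟨hc1, hc2⟩ := prod_coe hq l' hl'
  set X := (l'.map toZ).prod with hX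
  set Y := (l'.map fun a => toZ ((q : Qb) / a)).prod with hY
  have hXY : X ^ N = Y ^ N := by
    apply Subtype.ext
    rw [SubmonoidClass.coe_pow, SubmonoidClass.coe_pow, hc1, hc2]
    exact hrel'
  have hX0 : X ≠ 0 := by
    intro h
    apply (prod_ne hq l' hl').1
    rw [← hc1, h]
    rfl
  have hpow : u ^ N * (q : Zb) ^ (n * N) = v ^ N * (q : Zb) ^ (m * N) := by
    have h1 := congrArg (· ^ N) huv
    simp only [mul_pow] at h1
    rw [← hXY, ← pow_mul, ← pow_mul] at h1
    have h2 : X ^ N * (u ^ N * (q : Zb) ^ (n * N)) = X ^ N * (v ^ N * (q : Zb) ^ (m * N)) := by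
      calc X ^ N * (u ^ N * (q : Zb) ^ (n * N)) = u ^ N * X ^ N * (q : Zb) ^ (n * N) := by ring
        _ = v ^ N * X ^ N * (q : Zb) ^ (m * N) := h1
        _ = _ := by ring
    exact mul_left_cancel₀ (pow_ne_zero _ hX0) h2
  have hqP := q_mem hq hp
  have hq0 := q_ne hq
  have hnm : n = m := by
    rcases lt_trichotomy n m with h | h | h
    · exfalso
      obtain ⟨k, rfl⟩ := Nat.exists_eq_add_of_lt h
      have e1 : (q : Zb) ^ ((n + k + 1) * N) = (q : Zb) ^ (n * N) * (q : Zb) ^ ((k + 1) * N) := by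
        rw [← pow_add]
        congr 1
        ring
      rw [e1] at hpow
      have e2 : u ^ N = v ^ N * (q : Zb) ^ ((k + 1) * N) := by
        apply mul_left_cancel₀ (pow_ne_zero (n * N) hq0)
        calc (q : Zb) ^ (n * N) * u ^ N = u ^ N * (q : Zb) ^ (n * N) := by ring
          _ = _ := hpow
          _ = _ := by ring
      apply hu
      apply hP.mem_of_pow_mem N
      rw [e2]
      apply P.mul_mem_left
      exact P.pow_mem_of_mem hqP _ (Nat.mul_pos (Nat.succ_pos _) hN)
    · exact h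
    · exfalso
      obtain ⟨k, rfl⟩ := Nat.exists_eq_add_of_lt h
      have e1 : (q : Zb) ^ ((m + k + 1) * N) = (q : Zb) ^ (m * N) * (q : Zb) ^ ((k + 1) * N) := by
        rw [← pow_add]
        congr 1
        ring
      rw [e1] at hpow
      have e2 : v ^ N = u ^ N * (q : Zb) ^ ((k + 1) * N) := by
        apply mul_left_cancel₀ (pow_ne_zero (m * N) hq0)
        calc (q : Zb) ^ (m * N) * v ^ N = v ^ N * (q : Zb) ^ (m * N) := by ring
          _ = _ := hpow.symm
          _ = _ := by ring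
      apply hv
      apply hP.mem_of_pow_mem N
      rw [e2]
      apply P.mul_mem_left
      exact P.pow_mem_of_mem hqP _ (Nat.mul_pos (Nat.succ_pos _) hN)
  rw [hnm, sub_self] at hs
  rw [← hs, List.map_map]
  congr 1

end Pool.Agent.TJ3
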